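import Pool.Agent.AMH.Grp

/-!
# AMH, module AltComm: alternating normal forms commute with the twist
-/

open scoped BigOperators

namespace Pool.Agent.AMH

open Pool.Agent.AMG

private theorem nfv_nil : nfv [] = 1 := rfl

private theorem nfv_cons (b : ℤ) (e : Bool) (l : List (ℤ × Bool)) : nfv ((b, e) :: l) =
    FreeGroup.of 0 ^ b * (if e then FreeGroup.of 1 else (FreeGroup.of 1)⁻¹) * nfv l := by
  have h1 : wd ((b, e) :: l) = xw b ++ ([((1 : Fin 2), e)] ++ wd l) := by
    simp [wd]
  rw [nfv, h1, ← FreeGroup.mul_mk, ← FreeGroup.mul_mk, mk_xw, mul_assoc]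
  congr 2
  cases e <;> rfl

private theorem alt_tau (j : ℤ) : ∀ (k : ℕ) (l : List (ℤ × Bool)), l.length ≤ k →
    (∀ q ∈ trs false l, q.1 ≠ q.2.2) → lst false l = false → tau j (nfv l) = nfv l := by
  intro k
  induction k with
  | zero =>
    intro l hl _ _
    have : l = [] := List.length_eq_zero_iff.1 (by omega)
    subst this
    rw [nfv_nil, map_one]
  | succ k ih =>
    intro l hl h1 h2
    rcases l with _ | ⟨⟨b, e⟩, l⟩
    · rw [nfv_nil, map_one]
    rcases l with _ | ⟨⟨b', e'⟩, l⟩
    · -- one letter
      have h3 := h1 (false, b, e) (by simp [trs])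
      simp only [lst] at h2
      exact absurd h2.symm h3
    · have h3 := h1 (false, b, e) (by simp [trs])
      have he : e = true := by
        cases e
        · exact absurd rfl h3
        · rfl
      subst he
      have h4 := h1 (true, b', e') (by simp [trs])
      have he' : e' = false := by
        cases e'
        · rfl
        · exact absurd rfl h4
      subst he'
      have h5 := ih l (by simp at hl; omega) (fun q hq => h1 q (by simp [trs, hq])) (by
        simpa [lst] using h2)
      have t0 : tau j (FreeGroup.of 0) = FreeGroup.of 0 := by simp [tau]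
      have t1 : tau j (FreeGroup.of 1) = FreeGroup.of 1 * FreeGroup.of 0 ^ j := by simp [tau]
      rw [nfv_cons, nfv_cons]
      simp only [if_true, Bool.false_eq_true, if_false, map_mul, map_inv, map_zpow, h5, t0, t1]
      group

/-- [AltComm] -/
theorem alt_comm (l : List (ℤ × Bool)) (hl : NF l) (h : ∀ q ∈ cyc l, q.1 ≠ q.2.2) :
    (∀ j : ℤ, tau j (nfv l) = nfv l) ∧ Commute tt (inc (nfv l)) := by
  have h1 : ∀ j : ℤ, tau j (nfv l) = nfv l := by
    intro j
    obtain ⟨hne, -, h3⟩ := hl
    rcases l with _ | ⟨⟨b, e⟩, l⟩
    · exact absurd rfl hne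
    have h4 := h (lst true ((b, e) :: l), b, e) (by simp [cyc, trs])
    have h5 : lst true ((b, e) :: l) = false := by
      by_contra hcon
      have h6 : lst true ((b, e) :: l) = true := by simpa using hcon
      rw [h6] at h4
      have h7 : e = false := by
        cases e
        · rfl
        · exact absurd rfl h4
      apply h3
      refine ⟨h6, ?_⟩
      intro q hq
      simp only [List.head?_cons, Option.mem_def, Option.some.injEq] at hq
      rw [← hq]
      exact h7
    refine alt_tau j _ _ le_rfl ?_ h5
    intro q hq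
    refine h q ?_
    rw [cyc, h5]
    exact hq
  refine ⟨h1, ?_⟩
  have h2 := conj_tt 1 (nfv l)
  rw [h1 1, zpow_one, mul_inv_eq_iff_eq_mul] at h2
  exact h2

end Pool.Agent.AMH
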