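import Pool.Agent.AMH.DefsB

/-!
# AMH, module ClTop: the classical trace as a polynomial in `v` (helper71)
-/

open scoped BigOperators LaurentPolynomial Matrix Topology
open Polynomial Filter

set_option linter.unusedVariables false

namespace Pool.Agent.AMH

open Pool.Agent.AMG

private theorem ct_CT (a : ℂ) (n i : ℤ) :
    (LaurentPolynomial.C a * LaurentPolynomial.T n : ℂ[T;T⁻¹]).coeff i = if n = i then a else 0 := by
  rw [← LaurentPolynomial.single_eq_C_mul_T]
  exact Finsupp.single_apply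

private theorem ct_mul (f g : ℂ[T;T⁻¹]) (h : ∀ i, i ∉ ({-1, 0, 1} : Finset ℤ) → f.coeff i = 0)
    (j : ℤ) : (f * g).coeff j = ∑ i ∈ ({-1, 0, 1} : Finset ℤ), f.coeff i * g.coeff (j - i) := by
  rw [AddMonoidAlgebra.coeff_mul, Finsupp.sum]
  have h1 : ∀ i, (g.coeff.sum fun m₂ r₂ => if i + m₂ = j then f.coeff i * r₂ else 0) =
      f.coeff i * g.coeff (j - i) := by
    intro i
    rw [Finsupp.sum, Finset.sum_eq_single (j - i)]
    · rw [if_pos (by ring)]
    · intro b _ hb
      rw [if_neg]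
      intro h0
      exact hb (by omega)
    · intro h0
      rw [Finsupp.notMem_support_iff] at h0
      rw [h0]
      simp
  rw [Finset.sum_congr rfl fun i _ => h1 i]
  refine Finset.sum_subset ?_ ?_
  · intro i hi
    by_contra h0
    exact (Finsupp.mem_support_iff.1 hi) (h i h0)
  · intro i _ hi
    rw [Finsupp.notMem_support_iff.1 hi, zero_mul]

private theorem ct_top0 (x : ℂ) (b : Bool) (s' t : Fin 2) (i : ℤ) :
    (topL x (0, b) s' t).coeff i = lsym (0, b) t s' i x 1 0 := by
  have h1 : ∀ a : ℂ, (LaurentPolynomial.C a : ℂ[T;T⁻¹]).coeff i = if i = 0 then a else 0 :=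
    fun a => LaurentPolynomial.C_apply a i
  unfold topL lsym
  rcases (show s' = 0 ∨ s' = 1 by omega) with rfl | rfl <;>
    rcases (show t = 0 ∨ t = 1 by omega) with rfl | rfl <;> cases b <;>
    by_cases hi : i = 0 <;> simp [h1, hi]

private theorem ct_top1 (x : ℂ) (b : Bool) (s' t : Fin 2) (i : ℤ) :
    (topL x (1, b) s' t).coeff i = if s' ≠ t ∧ i = 0 then (x + x⁻¹)⁻¹
      else if s' = t ∧ i = dir b t then
        (if b then -1 else 1) * (x ^ (dir b t)) * (x + x⁻¹)⁻¹ else 0 := by
  have h1 : ∀ a c : ℂ, ∀ n : ℤ, (LaurentPolynomial.C a • (LaurentPolynomial.C c *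
      LaurentPolynomial.T n) : ℂ[T;T⁻¹]).coeff i = if n = i then a * c else 0 := by
    intro a c n
    rw [smul_eq_mul, ← mul_assoc, ← map_mul, ct_CT]
  have h2 : ∀ a : ℂ, (LaurentPolynomial.C a • (1 : ℂ[T;T⁻¹])).coeff i =
      if i = 0 then a else 0 := by
    intro a
    rw [smul_eq_mul, mul_one]
    exact LaurentPolynomial.C_apply a i
  have e1 : ∀ a n, (if (n : ℤ) = i then (a : ℂ) else 0) = if i = n then a else 0 := by
    intro a n
    simp only [eq_comm]
  rcases (show s' = 0 ∨ s' = 1 by omega) with rfl | rfl <;>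
    rcases (show t = 0 ∨ t = 1 by omega) with rfl | rfl <;> cases b
  · refine (h1 (x + x⁻¹)⁻¹ x 1).trans ?_
    rw [e1]
    simp [dir, mul_comm]
  · refine (h1 (x + x⁻¹)⁻¹ (-x⁻¹) (-1)).trans ?_
    rw [e1]
    simp [dir, mul_comm]
  · refine (h2 (x + x⁻¹)⁻¹).trans ?_
    simp
  · refine (h2 (x + x⁻¹)⁻¹).trans ?_
    simp
  · refine (h2 (x + x⁻¹)⁻¹).trans ?_
    simp
  · refine (h2 (x + x⁻¹)⁻¹).trans ?_
    simp
  · refine (h1 (x + x⁻¹)⁻¹ x⁻¹ (-1)).trans ?_
    rw [e1]
    simp [dir, mul_comm]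
  · refine (h1 (x + x⁻¹)⁻¹ (-x) 1).trans ?_
    rw [e1]
    simp [dir, mul_comm]

private theorem ct_supp (x : ℂ) (l : Fin 2 × Bool) (s' t : Fin 2) (i : ℤ)
    (hi : i ∉ ({-1, 0, 1} : Finset ℤ)) : (topL x l s' t).coeff i = 0 := by
  simp only [Finset.mem_insert, Finset.mem_singleton, not_or] at hi
  obtain ⟨c, b⟩ := l
  rcases (show c = 0 ∨ c = 1 by omega) with rfl | rfl
  · rw [ct_top0]
    unfold lsym
    rw [if_pos rfl, if_neg (fun h => hi.2.1 h.2)]
  · rw [ct_top1, if_neg (fun h => hi.2.1 h.2), if_neg]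
    rintro ⟨-, h⟩
    unfold dir at h
    split_ifs at h
    · exact hi.1 h
    · exact hi.2.2 h

private theorem ct_letter (x : ℂ) (hx : x ≠ 0) (hx2 : x ^ 2 + 1 ≠ 0) (l : Fin 2 × Bool)
    (t s' : Fin 2) (i : ℤ) : ∃ P : ℂ[X], (∀ v : ℂ, v ≠ 0 →
      v ^ (if l.1 = 1 then 1 else 0) * lsym l t s' i x 1 v = P.eval v) ∧
      P.eval 0 = (topL x l s' t).coeff i := by
  obtain ⟨c, b⟩ := l
  rcases (show c = 0 ∨ c = 1 by omega) with rfl | rfl
  · refine ⟨Polynomial.C (lsym (0, b) t s' i x 1 0), fun v hv => ?_, ?_⟩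
    · rw [if_neg (show ¬ ((0, b) : Fin 2 × Bool).1 = 1 by simp), pow_zero, one_mul,
        Polynomial.eval_C]
      rfl
    · rw [Polynomial.eval_C, ct_top0]
  · by_cases h1 : s' ≠ t ∧ i = 0
    · refine ⟨Polynomial.C (x + x⁻¹)⁻¹ * (Polynomial.X ^ 2 + 1), fun v hv => ?_, ?_⟩
      · have h2 : lsym (1, b) t s' i x 1 v = flipc x 1 v (dir b t) := by
          unfold lsym
          rw [if_neg (show ¬ ((1, b) : Fin 2 × Bool).1 = 0 by simp), if_pos h1]
        rw [h2, if_pos rfl]
        unfold flipc den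
        simp only [one_zpow, mul_one, one_mul, pow_one, Polynomial.eval_mul, Polynomial.eval_C,
          Polynomial.eval_add, Polynomial.eval_pow, Polynomial.eval_X, Polynomial.eval_one]
        field_simp
      · rw [ct_top1, if_pos h1]
        simp
    · by_cases h3 : s' = t ∧ i = dir b t
      · refine ⟨Polynomial.C ((if b then 1 else -1) * (x + x⁻¹)⁻¹) *
          (Polynomial.C (x ^ (-dir b t)) * Polynomial.X ^ 2 - Polynomial.C (x ^ dir b t)),
          fun v hv => ?_, ?_⟩
        · have h2 : lsym (1, b) t s' i x 1 v = (if b then 1 else -1) *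
              shiftc x 1 v (dir b t) := by
            unfold lsym
            rw [if_neg (show ¬ ((1, b) : Fin 2 × Bool).1 = 0 by simp), if_neg h1, if_pos h3]
          rw [h2, if_pos rfl]
          unfold shiftc den
          simp only [one_zpow, mul_one, pow_one, Polynomial.eval_mul, Polynomial.eval_C,
            Polynomial.eval_sub, Polynomial.eval_pow, Polynomial.eval_X]
          field_simp
        · rw [ct_top1, if_neg h1, if_pos h3]
          simp only [Polynomial.eval_mul, Polynomial.eval_C,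
            Polynomial.eval_sub, Polynomial.eval_pow, Polynomial.eval_X]
          cases b
          · simp
            ring
          · simp
            ring
      · refine ⟨0, fun v hv => ?_, ?_⟩
        · have h2 : lsym (1, b) t s' i x 1 v = 0 := by
            unfold lsym
            rw [if_neg (show ¬ ((1, b) : Fin 2 × Bool).1 = 0 by simp), if_neg h1, if_neg h3]
          rw [h2, mul_zero, Polynomial.eval_zero]
        · rw [ct_top1, if_neg h1, if_neg h3, Polynomial.eval_zero]

private theorem ct_word (x : ℂ) (hx : x ≠ 0) (hx2 : x ^ 2 + 1 ≠ 0) (w : List (Fin 2 × Bool)) :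
    ∀ (s s' : Fin 2) (j : ℤ), ∃ P : ℂ[X], (∀ v : ℂ, v ≠ 0 →
      v ^ ny w * sym w s s' j x 1 v = P.eval v) ∧
      P.eval 0 = (((w.map (topL x)).prod) s' s).coeff j := by
  induction w with
  | nil =>
    intro s s' j
    refine ⟨Polynomial.C (if s' = s ∧ j = 0 then 1 else 0), fun v hv => ?_, ?_⟩
    · rw [Polynomial.eval_C]
      show v ^ 0 * _ = _
      rw [pow_zero, one_mul]
      rfl
    · rw [Polynomial.eval_C, List.map_nil, List.prod_nil, Matrix.one_apply]
      by_cases h : s' = s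
      · subst h
        rw [if_pos rfl]
        have h1 : (1 : ℂ[T;T⁻¹]) = LaurentPolynomial.C 1 := (map_one _).symm
        rw [h1, LaurentPolynomial.C_apply]
        simp
      · rw [if_neg h, if_neg (fun h' => h h'.1)]
        rfl
  | cons l w ih =>
    intro s s' j
    choose P hP hP0 using ih
    choose Q hQ hQ0 using ct_letter x hx hx2 l
    refine ⟨∑ t : Fin 2, ∑ i ∈ ({-1, 0, 1} : Finset ℤ), P s t (j - i) * Q t s' i,
      fun v hv => ?_, ?_⟩
    · have h1 : sym (l :: w) s s' j x 1 v = ∑ t : Fin 2, ∑ i ∈ ({-1, 0, 1} : Finset ℤ),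
          sym w s t (j - i) x 1 v * lsym l t s' i x 1 v := by
        have h2 : sym (l :: w) s s' j x 1 v = ∑ t : Fin 2, ∑ i ∈ ({-1, 0, 1} : Finset ℤ),
          sym w s t (j - i) x 1 v * lsym l t s' i (x * 1 ^ (2 * (j - i))) 1 v := rfl
        rw [h2]
        simp only [one_zpow, mul_one]
      have h3 : ny (l :: w) = ny w + if l.1 = 1 then 1 else 0 := by
        unfold ny
        rw [List.countP_cons]
        simp only [decide_eq_true_eq]
      rw [h1, h3, pow_add, Polynomial.eval_finsetSum, Finset.mul_sum]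
      refine Finset.sum_congr rfl fun t _ => ?_
      rw [Polynomial.eval_finsetSum, Finset.mul_sum]
      refine Finset.sum_congr rfl fun i _ => ?_
      rw [Polynomial.eval_mul, ← hP _ _ _ v hv, ← hQ _ _ _ v hv]
      ring
    · rw [List.map_cons, List.prod_cons, Matrix.mul_apply, AddMonoidAlgebra.coeff_sum,
        Finsupp.finsetSum_apply, Polynomial.eval_finsetSum]
      refine Finset.sum_congr rfl fun t _ => ?_
      rw [ct_mul _ _ (fun i hi => ct_supp x l s' t i hi), Polynomial.eval_finsetSum]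
      refine Finset.sum_congr rfl fun i _ => ?_
      rw [Polynomial.eval_mul, hP0, hQ0, mul_comm]

theorem cl_top (w : List (Fin 2 × Bool)) (x : ℂ) (hx : x ≠ 0) (hx2 : x ^ 2 + 1 ≠ 0) :
    ∃ P : ℂ[X], (∀ v : ℂ, v ≠ 0 → v ^ ny w * clC w x v = P.eval v) ∧ P.eval 0 = topT w x := by
  choose P hP hP0 using ct_word x hx hx2 w
  refine ⟨∑ s : Fin 2, P s s 0, fun v hv => ?_, ?_⟩
  · unfold clC
    rw [Polynomial.eval_finsetSum, Finset.mul_sum]
    exact Finset.sum_congr rfl fun s _ => hP s s 0 v hv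
  · unfold topT
    rw [Matrix.trace, AddMonoidAlgebra.coeff_sum, Finsupp.finsetSum_apply,
      Polynomial.eval_finsetSum]
    exact Finset.sum_congr rfl fun s _ => hP0 s s 0

end Pool.Agent.AMH
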