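import Pool.Agent.AMH.DefsB
import Pool.Agent.AMG.Cmp

/-!
# Comparison of the quantum representation with the window for `t ^ (4 N) v`
-/

set_option autoImplicit false

open scoped BigOperators Matrix

namespace Pool.Agent.AMH

open Pool.Agent.AMG

private theorem ct_scalar {ι : Type*} [Fintype ι] [DecidableEq ι] (a b a' b' : Matrix ι ι ℂ)
    (ha : a * a' = 1) (hb : b * b' = 1) (k : ℕ) (z : ℂ) (h : (a' * b) ^ k = z • 1) :
    ∃ z' : ℂ, (a * b') ^ k = z' • 1 := by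
  have ha' : a' * a = 1 := mul_eq_one_comm.mp ha
  have hb' : b' * b = 1 := mul_eq_one_comm.mp hb
  rcases isEmpty_or_nonempty ι with he | he
  · refine ⟨0, ?_⟩
    ext i
    exact he.elim i
  have h1 : (b' * a) * (a' * b) = 1 := by
    rw [Matrix.mul_assoc, ← Matrix.mul_assoc a, ha, Matrix.one_mul, hb']
  have h2 : (b' * a) ^ k * (a' * b) ^ k = 1 := pow_mul_pow_eq_one k h1
  rw [h, Matrix.mul_smul, Matrix.mul_one] at h2
  have hz : z ≠ 0 := by
    rintro rfl
    rw [zero_smul] at h2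
    exact zero_ne_one h2
  have h3 : (b' * a) ^ k = z⁻¹ • 1 := by
    rw [← h2, smul_smul, inv_mul_cancel₀ hz, one_smul]
  refine ⟨z⁻¹, ?_⟩
  have h4 : (a * b') ^ k * a = a * (b' * a) ^ k := mul_pow_mul a b' k
  calc (a * b') ^ k = (a * b') ^ k * a * a' := by rw [Matrix.mul_assoc, ha, Matrix.mul_one]
    _ = z⁻¹ • 1 := by
      rw [h4, h3, Matrix.mul_smul, Matrix.mul_one, Matrix.smul_mul, ha]

private theorem ct_conj {ι : Type*} [Fintype ι] [DecidableEq ι] (G G' M : Matrix ι ι ℂ)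
    (h1 : G * G' = 1) (c : ℂ) (hc : c ≠ 0) (k : ℕ) (z : ℂ)
    (h : (c • (G * M * G')) ^ k = z • 1) : ∃ z' : ℂ, M ^ k = z' • 1 := by
  have h2 : G' * G = 1 := mul_eq_one_comm.mp h1
  have h3 : ∀ m : ℕ, (G * M * G') ^ m = G * M ^ m * G' := by
    intro m
    induction m with
    | zero => rw [pow_zero, pow_zero, Matrix.mul_one, h1]
    | succ m ih =>
      rw [pow_succ, ih, pow_succ]
      calc _ = G * M ^ m * (G' * G) * M * G' := by simp only [Matrix.mul_assoc]
        _ = _ := by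
          rw [h2, Matrix.mul_one]
          simp only [Matrix.mul_assoc]
  rw [smul_pow, h3] at h
  refine ⟨(c ^ k)⁻¹ * z, ?_⟩
  calc M ^ k = G' * (G * M ^ k * G') * G := by
        rw [Matrix.mul_assoc G, ← Matrix.mul_assoc G', h2,
          Matrix.one_mul, Matrix.mul_assoc, h2, Matrix.mul_one]
    _ = G' * ((c ^ k)⁻¹ • (z • 1)) * G := by
        rw [← h, smul_smul, inv_mul_cancel₀ (pow_ne_zero _ hc), one_smul]
    _ = _ := by
        rw [smul_smul, Matrix.mul_smul, Matrix.mul_one, Matrix.smul_mul, h2]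

private theorem ct_iw {C : ℕ} {A : ℂ} (hA : Good C A) (v : List (Fin 2 × Bool)) :
    wordW C A v * wordW C A (iw v) = 1 := by
  induction v with
  | nil => simp [wordW, iw]
  | cons l v ih =>
    have h1 : wordW C A (l :: v) = letW C A l * wordW C A v := by simp [wordW]
    have h2 : wordW C A (iw (l :: v)) = wordW C A (iw v) * letW C A (l.1, !l.2) := by
      simp [wordW, iw]
    rw [h1, h2, Matrix.mul_assoc, ← Matrix.mul_assoc (wordW C A v), ih, Matrix.one_mul]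
    exact letW_inv hA l.1 l.2

private theorem ct_sub_smul {ι κ : Type*} [DecidableEq ι] [DecidableEq κ] (e : ι ≃ κ) (z : ℂ) :
    (z • (1 : Matrix κ κ ℂ)).submatrix e e = z • 1 := by
  ext i j
  rw [Matrix.submatrix_apply, Matrix.smul_apply, Matrix.smul_apply,
    Matrix.one_apply, Matrix.one_apply]
  simp only [EmbeddingLike.apply_eq_iff_eq]

private theorem ct_sub_pow {ι κ : Type*} [Fintype ι] [Fintype κ] [DecidableEq ι] [DecidableEq κ]
    (e : ι ≃ κ) (M : Matrix κ κ ℂ) (k : ℕ) : (M ^ k).submatrix e e = (M.submatrix e e) ^ k := by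
  induction k with
  | zero => rw [pow_zero, pow_zero, Matrix.submatrix_one_equiv]
  | succ k ih => rw [pow_succ, pow_succ, ← Matrix.submatrix_mul_equiv _ _ e e e, ih]

/-- The fourth power of the twist on the window. -/
private theorem ct_tw {r c C h : ℕ} (hr : r = c + 2 + C) (hc : c = 2 * h + 1) {A : ℂ}
    (hA : IsPrimitiveRoot A (4 * r)) :
    ∃ u : ℂ, u ≠ 0 ∧ ((twT r c A) ^ 4).submatrix (cmp_sig (C := C) hr hc)
      (cmp_sig (C := C) hr hc) = u • DW C A := by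
  have hr0 : 0 < r := by omega
  have hA0 : A ≠ 0 := hA.ne_zero (by omega)
  have hε := cmp_pow2 hr0 hA
  have hrz : (r : ℤ) = 2 * h + 3 + C := by
    subst hr hc
    push_cast
    ring
  have h2r : A ^ (2 * (r : ℤ)) = -1 := by
    rw [two_mul, zpow_add₀ hA0, hε]
  refine ⟨A ^ ((r : ℤ) ^ 2 - 4) * (-1) ^ (C + 1), mul_ne_zero (zpow_ne_zero _ hA0)
    (pow_ne_zero _ (by norm_num)), ?_⟩
  have key : ∀ p : Win C, tw A (cmp_a h p) ^ 4 = A ^ ((r : ℤ) ^ 2 - 4) * (-1) ^ (C + 1) *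
      A ^ ((2 * (p.1 : ℤ) - C + sg p.2) ^ 2) := by
    intro p
    have h0 : ((-1 : ℂ) ^ (cmp_a h p)) ^ 4 = 1 := by
      rw [← pow_mul]
      exact Even.neg_one_pow ⟨cmp_a h p * 2, by ring⟩
    have h1 : (2 * (p.1 : ℤ) - C + sg p.2 + r) = 2 * ((cmp_a h p : ℕ) : ℤ) + 2 := by
      rw [hrz, sg, cmp_a]
      split_ifs <;> push_cast <;> ring
    have h2 : (((cmp_a h p * (cmp_a h p + 2)) * 4 : ℕ) : ℤ) =
        ((r : ℤ) ^ 2 - 4) + 2 * (r : ℤ) * (2 * (p.1 : ℤ) - C + sg p.2) +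
          (2 * (p.1 : ℤ) - C + sg p.2) ^ 2 := by
      have h3 : ((r : ℤ) ^ 2 - 4) + 2 * (r : ℤ) * (2 * (p.1 : ℤ) - C + sg p.2) +
          (2 * (p.1 : ℤ) - C + sg p.2) ^ 2 = (2 * (p.1 : ℤ) - C + sg p.2 + r) ^ 2 - 4 := by ring
      rw [h3, h1]
      push_cast
      ring
    have h4 : (-1 : ℂ) ^ (2 * (p.1 : ℤ) - C + sg p.2) = (-1) ^ (C + 1) := by
      have h5 : (2 * (p.1 : ℤ) - C + sg p.2) = ((C + 1 : ℕ) : ℤ) +
          2 * ((p.1 : ℤ) - C + (if p.2 = 0 then 0 else -1)) := by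
        rw [sg]
        split_ifs <;> push_cast <;> ring
      rw [h5, zpow_add₀ (by norm_num), zpow_mul, zpow_natCast]
      norm_num
    rw [tw, mul_pow, h0, one_mul, ← pow_mul, ← zpow_natCast, h2, zpow_add₀ hA0, zpow_add₀ hA0,
      zpow_mul, h2r, h4]
  have h5 : (twT r c A) ^ 4 = Matrix.diagonal fun p : Col r c => tw A p.1.1 ^ 4 := by
    rw [twT, Matrix.diagonal_pow]
    rfl
  rw [h5]
  ext q p
  rw [Matrix.submatrix_apply, Matrix.smul_apply, DW]
  by_cases hqp : q = p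
  · subst hqp
    rw [Matrix.diagonal_apply_eq, Matrix.diagonal_apply_eq, smul_eq_mul, ← key q]
    rfl
  · rw [Matrix.diagonal_apply_ne _ hqp,
      Matrix.diagonal_apply_ne _ (fun he => hqp ((cmp_sig_bij hr hc).1 he)), smul_zero]

private theorem ct_comm (r C : ℕ) (A : ℂ) (n : ℕ) :
    DW C A ^ n * cmp_G r A C = cmp_G r A C * DW C A ^ n := by
  have h : Commute (DW C A) (cmp_G r A C) := by
    rw [commute_iff_eq, DW, cmp_G, Matrix.diagonal_mul_diagonal, Matrix.diagonal_mul_diagonal]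
    congr 1
    funext p
    exact mul_comm _ _
  exact h.pow_left n

private theorem ct_DWunit (C : ℕ) {A : ℂ} (hA : A ≠ 0) (n : ℕ) :
    ∃ E : Matrix (Win C) (Win C) ℂ, DW C A ^ n * E = 1 := by
  have h1 : DW C A * (Matrix.diagonal fun p : Win C =>
      (A ^ ((2 * (p.1 : ℤ) - C + sg p.2) ^ 2))⁻¹) = 1 := by
    rw [DW, Matrix.diagonal_mul_diagonal, ← Matrix.diagonal_one]
    congr 1
    funext p
    exact mul_inv_cancel₀ (zpow_ne_zero _ hA)
  exact ⟨_, pow_mul_pow_eq_one n h1⟩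

/-- [CmpT] Comparison of the quantum representation with the window for `t ^ (4 N) v`. -/
theorem cmpT {r c C : ℕ} (hr : r = c + 2 + C) (hc : Odd c) {A : ℂ} (hA : IsPrimitiveRoot A (4 * r))
    (N : ℤ) (v : List (Fin 2 × Bool)) :
    Nonempty (Col r c) ∧ ∀ (k : ℕ) (z : ℂ), (twT r c A ^ (4 * N) * wordMat r c A v) ^ k = z • 1 →
      (0 ≤ N → ∃ z' : ℂ, (DW C A ^ N.toNat * wordW C A v) ^ k = z' • 1) ∧
      (N ≤ 0 → ∃ z' : ℂ, (DW C A ^ (-N).toNat * wordW C A (iw v)) ^ k = z' • 1) := by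
  have hne := (cmp (C := C) hr hc hA v).1
  obtain ⟨h, hc⟩ := hc
  have hr0 : 0 < r := by omega
  have hA0 : A ≠ 0 := hA.ne_zero (by omega)
  have hgood : Good C A := good_of_prim (by omega) hA
  obtain ⟨hG1, hG2⟩ := cmp_GG (r := r) hA0 C
  obtain ⟨u, hu, hw⟩ := cmp_word (C := C) hr hc hA v
  obtain ⟨u0, hu0, ht⟩ := ct_tw (C := C) hr hc hA
  set e : Win C ≃ Col r c := Equiv.ofBijective _ (cmp_sig_bij (C := C) hr hc) with he
  change (wordMat r c A v).submatrix e e = _ at hw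
  change ((twT r c A) ^ 4).submatrix e e = _ at ht
  refine ⟨hne, fun k z hz => ?_⟩
  -- natural powers
  have hT : ∀ n : ℕ, ((twT r c A) ^ (4 * n)).submatrix e e = u0 ^ n • DW C A ^ n := by
    intro n
    rw [pow_mul, ct_sub_pow, ht, smul_pow]
  have hsub := congrArg (fun M : Matrix (Col r c) (Col r c) ℂ => M.submatrix e e) hz
  rw [ct_sub_pow, ct_sub_smul, ← Matrix.submatrix_mul_equiv _ _ e e e, hw] at hsub
  constructor
  · intro hN
    obtain ⟨n, rfl⟩ := Int.eq_ofNat_of_zero_le hN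
    have h1 : (4 * (n : ℤ)) = ((4 * n : ℕ) : ℤ) := by push_cast; rfl
    rw [h1, zpow_natCast, hT] at hsub
    rw [Int.toNat_natCast]
    refine ct_conj (cmp_G r A C) (cmp_G' r A C) _ hG1 (u0 ^ n * u)
      (mul_ne_zero (pow_ne_zero _ hu0) hu) k z ?_
    rw [← hsub]
    congr 1
    rw [Matrix.smul_mul, Matrix.mul_smul, smul_smul]
    congr 1
    calc _ = cmp_G r A C * DW C A ^ n * wordW C A v * cmp_G' r A C := by
          simp only [Matrix.mul_assoc]
      _ = _ := by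
          rw [← ct_comm]
          simp only [Matrix.mul_assoc]
  · intro hN
    obtain ⟨n, hn⟩ := Int.eq_ofNat_of_zero_le (show (0 : ℤ) ≤ -N by omega)
    have hN' : N = -(n : ℤ) := by omega
    subst hN'
    have h1 : (4 * -(n : ℤ)) = -((4 * n : ℕ) : ℤ) := by push_cast; ring
    rw [h1, Matrix.zpow_neg_natCast, ← Matrix.inv_submatrix_equiv, hT] at hsub
    rw [neg_neg, Int.toNat_natCast]
    obtain ⟨E, hE⟩ := ct_DWunit C hA0 n
    have ha : (u0 ^ n • DW C A ^ n) * ((u0 ^ n)⁻¹ • E) = 1 := by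
      rw [Matrix.smul_mul, Matrix.mul_smul, smul_smul, mul_inv_cancel₀ (pow_ne_zero _ hu0),
        one_smul, hE]
    have ha2 : (u0 ^ n • DW C A ^ n) * (u0 ^ n • DW C A ^ n)⁻¹ = 1 := by
      rw [Matrix.inv_eq_right_inv ha, ha]
    have hb : (u • (cmp_G r A C * wordW C A v * cmp_G' r A C)) *
        (u⁻¹ • (cmp_G r A C * wordW C A (iw v) * cmp_G' r A C)) = 1 := by
      rw [Matrix.smul_mul, Matrix.mul_smul, smul_smul, mul_inv_cancel₀ hu, one_smul]
      calc _ = cmp_G r A C * wordW C A v * (cmp_G' r A C * cmp_G r A C) * wordW C A (iw v) *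
            cmp_G' r A C := by simp only [Matrix.mul_assoc]
        _ = cmp_G r A C * (wordW C A v * wordW C A (iw v)) * cmp_G' r A C := by
            rw [hG2, Matrix.mul_one]
            simp only [Matrix.mul_assoc]
        _ = 1 := by rw [ct_iw hgood, Matrix.mul_one, hG1]
    obtain ⟨z', hz'⟩ := ct_scalar _ _ _ _ ha2 hb k z hsub
    refine ct_conj (cmp_G r A C) (cmp_G' r A C) _ hG1 (u0 ^ n * u⁻¹)
      (mul_ne_zero (pow_ne_zero _ hu0) (inv_ne_zero hu)) k z' ?_
    rw [← hz']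
    congr 1
    rw [Matrix.smul_mul, Matrix.mul_smul, smul_smul]
    congr 1
    calc _ = cmp_G r A C * DW C A ^ n * wordW C A (iw v) * cmp_G' r A C := by
          simp only [Matrix.mul_assoc]
      _ = _ := by
          rw [← ct_comm]
          simp only [Matrix.mul_assoc]

end Pool.Agent.AMH
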