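import Pool.Agent.AMH.DefsB

/-!
# AMH, module DPow: the twist and words on the window
-/

open scoped BigOperators LaurentPolynomial Matrix

namespace Pool.Agent.AMH

open Pool.Agent.AMG

section
variable {F : Type*} [Field F]

private theorem wordW_append (C : ℕ) (A : F) (v w : List (Fin 2 × Bool)) :
    wordW C A (v ++ w) = wordW C A v * wordW C A w := by
  simp [wordW]

private theorem wordW_cons (C : ℕ) (A : F) (l : Fin 2 × Bool) (w : List (Fin 2 × Bool)) :
    wordW C A (l :: w) = letW C A l * wordW C A w := by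
  simp [wordW]

private theorem DW_pow (C : ℕ) (A : F) (j : ℕ) : DW C A ^ j =
    Matrix.diagonal fun p => A ^ ((j : ℤ) * (2 * (p.1 : ℤ) - C + sg p.2) ^ 2) := by
  rw [DW, Matrix.diagonal_pow]
  congr 1
  funext p
  rw [Pi.pow_apply, ← zpow_natCast, ← zpow_mul, mul_comm]

private theorem letX (C : ℕ) (A : F) (b : Bool) : letW C A (0, b) =
    Matrix.diagonal fun p => if p.2 = 0 then (A ^ (2 * (p.1 : ℤ) - C)) ^ (if b then (-1 : ℤ) else 1)
      else (-A ^ (2 * (p.1 : ℤ) - C)) ^ (if b then (1 : ℤ) else -1) := by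
  ext q p
  by_cases h : q = p
  · subst h
    rw [Matrix.diagonal_apply_eq]
    simp only [letW, Matrix.of_apply, lsym, sub_self, if_true, and_self]
    cases b
    · simp only [Bool.false_eq_true, if_false, zpow_one, zpow_neg_one, inv_neg]
    · simp only [if_true, zpow_one, zpow_neg_one]
  · rw [Matrix.diagonal_apply_ne _ h]
    simp only [letW, Matrix.of_apply, lsym, if_true]
    rw [if_neg]
    rintro ⟨h2, h3⟩
    apply h
    refine Prod.ext (Fin.ext ?_) h2
    omega

private theorem wordX (C : ℕ) {A : F} (hA : A ≠ 0) (b : ℤ) : wordW C A (xw b) =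
    Matrix.diagonal fun p => if p.2 = 0 then (A ^ (2 * (p.1 : ℤ) - C)) ^ (-b)
      else (-A ^ (2 * (p.1 : ℤ) - C)) ^ b := by
  have h1 : ∀ (k : ℕ) (e : Bool), wordW C A (List.replicate k (0, e)) = letW C A (0, e) ^ k := by
    intro k e
    rw [wordW, List.map_replicate, List.prod_replicate]
  rw [xw, h1, letX, Matrix.diagonal_pow]
  congr 1
  funext p
  rw [Pi.pow_apply]
  have hx : A ^ (2 * (p.1 : ℤ) - C) ≠ 0 := zpow_ne_zero _ hA
  have hx' : -A ^ (2 * (p.1 : ℤ) - C) ≠ 0 := neg_ne_zero.2 hx
  rcases le_or_gt 0 b with hb | hb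
  · obtain ⟨m, rfl⟩ : ∃ m : ℕ, b = m := ⟨b.natAbs, by omega⟩
    rw [decide_eq_true hb]
    simp only [if_true, Int.natAbs_natCast]
    split_ifs
    · rw [← zpow_natCast, ← zpow_mul]
      congr 1
      ring
    · rw [← zpow_natCast, ← zpow_mul]
      congr 1
      ring
  · obtain ⟨m, rfl⟩ : ∃ m : ℕ, b = -(m : ℤ) := ⟨b.natAbs, by omega⟩
    rw [decide_eq_false (not_le.2 hb)]
    simp only [Bool.false_eq_true, if_false, Int.natAbs_neg, Int.natAbs_natCast]
    split_ifs
    · rw [← zpow_natCast, ← zpow_mul]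
      congr 1
      ring
    · rw [← zpow_natCast, ← zpow_mul]
      congr 1
      ring

private theorem even_zpow (a : F) (j : ℤ) : (-a) ^ (4 * j) = a ^ (4 * j) :=
  Even.neg_zpow (by exact ⟨2 * j, by ring⟩) a

/-- the exponents -/
private theorem exps (C : ℕ) (b : Bool) (q p : Win C)
    (h : (q.2 ≠ p.2 ∧ (q.1 : ℤ) - (p.1 : ℤ) = 0) ∨ (q.2 = p.2 ∧ (q.1 : ℤ) - (p.1 : ℤ) = dir b p.2)) :
    (2 * (q.1 : ℤ) - C + sg q.2) ^ 2 - (2 * (p.1 : ℤ) - C + sg p.2) ^ 2 =
      if b then -(4 * (2 * (p.1 : ℤ) - C) * sg p.2) else 4 * (2 * (q.1 : ℤ) - C) * sg q.2 := by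
  obtain ⟨q1, q2⟩ := q
  obtain ⟨p1, p2⟩ := p
  simp only at h ⊢
  rcases h with ⟨h1, h2⟩ | ⟨h1, h2⟩
  · have h3 : (q1 : ℤ) = p1 := by omega
    rw [h3]
    have s0 : sg 0 = 1 := rfl
    have s1 : sg 1 = -1 := rfl
    fin_cases p2 <;> fin_cases q2 <;> cases b <;>
      simp only [Fin.zero_eta, Fin.mk_one, s0, s1, Bool.false_eq_true, if_false, if_true,
        ne_eq, not_true_eq_false] at h1 ⊢ <;> ring
  · subst h1
    have h3 : (q1 : ℤ) = p1 + dir b q2 := by linarith
    rw [h3]
    have s0 : sg 0 = 1 := rfl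
    have s1 : sg 1 = -1 := rfl
    fin_cases q2 <;> cases b <;>
      simp only [Fin.zero_eta, Fin.mk_one, s0, s1, dir, Bool.false_eq_true, if_false, if_true,
        one_ne_zero, eq_self_iff_true, eq_iff_iff, false_iff, iff_false, iff_true, not_true,
        not_false_iff] <;> ring

theorem dtw_letter (C : ℕ) {A : F} (hA : A ≠ 0) (j : ℕ) (l : Fin 2 × Bool) :
    DW C A ^ j * wordW C A (tl (-(4 * j : ℕ)) l) = letW C A l * DW C A ^ j := by
  obtain ⟨i, b⟩ := l
  have hi : i = 0 ∨ i = 1 := by
    fin_cases i <;> simp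
  rcases hi with rfl | rfl
  · rw [tl, if_pos rfl]
    have h1 : wordW C A [((0 : Fin 2), b)] = letW C A (0, b) := by simp [wordW]
    rw [h1, letX, DW_pow, Matrix.diagonal_mul_diagonal, Matrix.diagonal_mul_diagonal]
    congr 1
    funext p
    rw [mul_comm]
  · have hne : ((1 : Fin 2), b).1 ≠ 0 := by simp
    rw [tl, if_neg hne]
    have hent : ∀ q p : Win C, letW C A (1, b) q p ≠ 0 →
        ((q.2 ≠ p.2 ∧ (q.1 : ℤ) - (p.1 : ℤ) = 0) ∨
          (q.2 = p.2 ∧ (q.1 : ℤ) - (p.1 : ℤ) = dir b p.2)) := by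
      intro q p h
      by_contra hcon
      rw [not_or] at hcon
      apply h
      simp only [letW, Matrix.of_apply, lsym, one_ne_zero, if_false]
      rw [if_neg hcon.1, if_neg hcon.2]
    cases b
    · simp only [Bool.false_eq_true, if_false]
      rw [wordW_append]
      have h1 : wordW C A [((1 : Fin 2), false)] = letW C A (1, false) := by simp [wordW]
      rw [h1, wordX C hA, DW_pow, ← Matrix.mul_assoc, Matrix.diagonal_mul_diagonal]
      ext q p
      rw [Matrix.diagonal_mul, Matrix.mul_diagonal]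
      by_cases h0 : letW C A (1, false) q p = 0
      · rw [h0, mul_zero, zero_mul]
      · have h2 := exps C false q p (hent q p h0)
        simp only [Bool.false_eq_true, if_false] at h2
        rw [mul_comm (letW C A (1, false) q p)]
        congr 1
        by_cases hq : q.2 = 0
        · rw [if_pos hq, ← zpow_mul, ← zpow_add₀ hA]
          congr 1
          have hs : sg q.2 = 1 := by rw [hq]; rfl
          rw [hs] at h2 ⊢
          push_cast
          linear_combination (j : ℤ) * h2
        · rw [if_neg hq]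
          have e1 : -(-((4 * j : ℕ) : ℤ)) = 4 * (j : ℤ) := by push_cast; ring
          rw [e1, even_zpow, ← zpow_mul, ← zpow_add₀ hA]
          congr 1
          have hs : sg q.2 = -1 := by rw [sg, if_neg hq]
          rw [hs] at h2 ⊢
          linear_combination (j : ℤ) * h2
    · simp only [if_true]
      rw [wordW_cons, wordX C hA, DW_pow]
      ext q p
      rw [Matrix.diagonal_mul, Matrix.mul_diagonal, Matrix.mul_diagonal]
      by_cases h0 : letW C A (1, true) q p = 0
      · rw [h0, zero_mul, mul_zero, zero_mul]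
      · have h2 := exps C true q p (hent q p h0)
        simp only [if_true] at h2
        rw [mul_left_comm]
        congr 1
        by_cases hq : p.2 = 0
        · rw [if_pos hq, ← zpow_mul, ← zpow_add₀ hA]
          congr 1
          have hs : sg p.2 = 1 := by rw [hq]; rfl
          rw [hs] at h2 ⊢
          push_cast
          linear_combination (j : ℤ) * h2
        · rw [if_neg hq]
          have e1 : -((4 * j : ℕ) : ℤ) = 4 * (-(j : ℤ)) := by push_cast; ring
          rw [e1, even_zpow, ← zpow_mul, ← zpow_add₀ hA]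
          congr 1
          have hs : sg p.2 = -1 := by rw [sg, if_neg hq]
          rw [hs] at h2 ⊢
          linear_combination (j : ℤ) * h2

theorem dtw (C : ℕ) {A : F} (hA : A ≠ 0) (j : ℕ) (v : List (Fin 2 × Bool)) :
    DW C A ^ j * wordW C A (tww (-(4 * j : ℕ)) v) = wordW C A v * DW C A ^ j := by
  induction v with
  | nil => simp [tww, wordW]
  | cons l v ih =>
    have h1 : tww (-(4 * j : ℕ)) (l :: v) = tl (-(4 * j : ℕ)) l ++ tww (-(4 * j : ℕ)) v := by
      simp [tww]
    rw [h1, wordW_append, ← Matrix.mul_assoc, dtw_letter C hA, Matrix.mul_assoc, ih, wordW_cons,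
      Matrix.mul_assoc]

theorem dpow (C n : ℕ) {A : F} (hA : A ≠ 0) (v : List (Fin 2 × Bool))
    (M : ℕ) : (DW C A ^ n * wordW C A v) ^ M = DW C A ^ (n * M) * wordW C A (vM n v M) := by
  induction M with
  | zero => simp [vM, wordW]
  | succ M ih =>
    rw [pow_succ', ih, vM, wordW_append]
    have h1 := dtw C hA (n * M) v
    have h2 : 4 * n * M = 4 * (n * M) := by ring
    rw [h2]
    calc DW C A ^ n * wordW C A v * (DW C A ^ (n * M) * wordW C A (vM n v M)) =
        DW C A ^ n * (wordW C A v * DW C A ^ (n * M)) * wordW C A (vM n v M) := by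
          simp only [Matrix.mul_assoc]
      _ = _ := by
          have h3 : n * (M + 1) = n + n * M := by ring
          rw [← h1, h3, pow_add]
          simp only [Matrix.mul_assoc]

end

end Pool.Agent.AMH
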