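import Pool.Agent.AMH.DefsB
import Pool.Agent.AMG.Cmp
import Pool.Agent.AMG.Inv

/-!
# AMH, module FailConj: the failure is invariant under twisted conjugation (helper71)
-/

set_option linter.unusedVariables false

namespace Pool.Agent.AMH

open Pool.Agent.AMG

private theorem fc_mk_cons (l : Fin 2 × Bool) (w : List (Fin 2 × Bool)) :
    (FreeGroup.mk (l :: w) : FreeGroup (Fin 2)) = FreeGroup.mk [l] * FreeGroup.mk w := by
  rw [FreeGroup.mul_mk]
  rfl

private theorem fc_mk_true (i : Fin 2) :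
    (FreeGroup.mk [(i, true)] : FreeGroup (Fin 2)) = FreeGroup.of i := rfl

private theorem fc_mk_false (i : Fin 2) :
    (FreeGroup.mk [(i, false)] : FreeGroup (Fin 2)) = (FreeGroup.of i)⁻¹ := by
  rw [FreeGroup.of, FreeGroup.inv_mk]
  rfl

/-- the letters as units -/
private noncomputable def fcU {C : ℕ} {A : ℂ} (hA : Good C A) (i : Fin 2) :
    (Matrix (Win C) (Win C) ℂ)ˣ :=
  ⟨letW C A (i, true), letW C A (i, false), letW_inv hA i true, letW_inv hA i false⟩

private theorem fc_lift {C : ℕ} {A : ℂ} (hA : Good C A) (w : List (Fin 2 × Bool)) :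
    ((FreeGroup.lift (fcU hA) (FreeGroup.mk w) : (Matrix (Win C) (Win C) ℂ)ˣ) :
      Matrix (Win C) (Win C) ℂ) = wordW C A w := by
  induction w with
  | nil =>
    have h1 : (FreeGroup.mk [] : FreeGroup (Fin 2)) = 1 := FreeGroup.one_eq_mk.symm
    rw [h1, map_one]
    rfl
  | cons l w ih =>
    rw [fc_mk_cons, map_mul, Units.val_mul, ih]
    have h1 : wordW C A (l :: w) = letW C A l * wordW C A w := by
      unfold wordW
      rw [List.map_cons, List.prod_cons]
    rw [h1]
    congr 1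
    obtain ⟨i, b⟩ := l
    cases b
    · rw [fc_mk_false, map_inv, FreeGroup.lift_apply_of]
      rfl
    · rw [fc_mk_true, FreeGroup.lift_apply_of]
      rfl

theorem wordW_mk {C : ℕ} {A : ℂ} (hA : Good C A) (w w' : List (Fin 2 × Bool))
    (h : FreeGroup.mk w = FreeGroup.mk w') : wordW C A w = wordW C A w' := by
  rw [← fc_lift hA, ← fc_lift hA, h]

private theorem fc_rep (b : Bool) (m : ℕ) :
    (FreeGroup.mk (List.replicate m ((0 : Fin 2), b)) : FreeGroup (Fin 2)) =
      (FreeGroup.mk [((0 : Fin 2), b)]) ^ m := by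
  induction m with
  | zero => exact FreeGroup.one_eq_mk.symm
  | succ m ih => rw [List.replicate_succ, fc_mk_cons, ih, pow_succ']

private theorem fc_xw (b : ℤ) :
    (FreeGroup.mk (xw b) : FreeGroup (Fin 2)) = FreeGroup.of 0 ^ b := by
  unfold xw
  rw [fc_rep]
  by_cases h : 0 ≤ b
  · rw [decide_eq_true h, fc_mk_true, ← zpow_natCast]
    congr 1
    omega
  · rw [decide_eq_false h, fc_mk_false, inv_pow, ← zpow_natCast, ← zpow_neg]
    congr 1
    omega

private theorem fc_tl (j : ℤ) (l : Fin 2 × Bool) :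
    (FreeGroup.mk (tl j l) : FreeGroup (Fin 2)) = tau j (FreeGroup.mk [l]) := by
  obtain ⟨i, b⟩ := l
  have h0 : tau j (FreeGroup.of 0) = FreeGroup.of 0 := by
    unfold tau
    rw [FreeGroup.lift_apply_of, if_pos rfl]
  have h1 : tau j (FreeGroup.of 1) = FreeGroup.of 1 * FreeGroup.of 0 ^ j := by
    unfold tau
    rw [FreeGroup.lift_apply_of, if_neg (by decide)]
  rcases (show i = 0 ∨ i = 1 by omega) with rfl | rfl
  · have h2 : tl j (0, b) = [(0, b)] := if_pos rfl
    rw [h2]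
    cases b
    · rw [fc_mk_false, map_inv, h0]
    · rw [fc_mk_true, h0]
  · cases b
    · have h2 : tl j (1, false) = xw (-j) ++ [(1, false)] := rfl
      rw [h2, ← FreeGroup.mul_mk, fc_xw, fc_mk_false, map_inv, h1, mul_inv_rev, zpow_neg]
    · have h2 : tl j (1, true) = (1, true) :: xw j := rfl
      rw [h2, fc_mk_cons, fc_xw, fc_mk_true, h1]

theorem mk_tww (j : ℤ) (w : List (Fin 2 × Bool)) :
    FreeGroup.mk (tww j w) = tau j (FreeGroup.mk w) := by
  induction w with
  | nil =>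
    have h1 : (FreeGroup.mk [] : FreeGroup (Fin 2)) = 1 := FreeGroup.one_eq_mk.symm
    have h2 : tww j [] = [] := rfl
    rw [h2, h1, map_one]
  | cons l w ih =>
    have h2 : tww j (l :: w) = tl j l ++ tww j w := rfl
    rw [h2, ← FreeGroup.mul_mk, ih, fc_tl, fc_mk_cons l w, map_mul]

theorem fail_conj
    (dtw : ∀ (C : ℕ) {A : ℂ} (_ : A ≠ 0) (j : ℕ) (v : List (Fin 2 × Bool)),
      DW C A ^ j * wordW C A (tww (-(4 * j : ℕ)) v) = wordW C A v * DW C A ^ j)
    {C n : ℕ} {v v' : List (Fin 2 × Bool)} (h : FreeGroup (Fin 2))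
    (hv : FreeGroup.mk v' = tau (-(4 * n : ℕ)) h * FreeGroup.mk v * h⁻¹) (hf : FailW C n v) :
    FailW C n v' := by
  intro r0
  obtain ⟨r, hr, A, hA, k, hk, z, hz⟩ := hf (max r0 (C + 2))
  have hg : Good C A := good_of_prim (le_of_max_le_right hr) hA
  refine ⟨r, le_of_max_le_left hr, A, hA, k, hk, z, ?_⟩
  have h1 : tau (-(4 * n : ℕ)) h = FreeGroup.mk (tww (-(4 * n : ℕ)) h.toWord) := by
    rw [mk_tww, FreeGroup.mk_toWord]
  have h2 : wordW C A v' = wordW C A (tww (-(4 * n : ℕ)) h.toWord) * wordW C A v *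
      ((FreeGroup.lift (fcU hg) h)⁻¹ : (Matrix (Win C) (Win C) ℂ)ˣ) := by
    rw [← fc_lift hg v', hv, map_mul, map_mul, map_inv, h1, Units.val_mul, Units.val_mul,
      fc_lift, fc_lift]
  have h3 : wordW C A h.toWord = ((FreeGroup.lift (fcU hg) h : (Matrix (Win C) (Win C) ℂ)ˣ) :
      Matrix (Win C) (Win C) ℂ) := by
    rw [← fc_lift hg, FreeGroup.mk_toWord]
  have h4 : DW C A ^ n * wordW C A v' =
      ((FreeGroup.lift (fcU hg) h : (Matrix (Win C) (Win C) ℂ)ˣ) : Matrix (Win C) (Win C) ℂ) *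
        (DW C A ^ n * wordW C A v) *
        ((FreeGroup.lift (fcU hg) h)⁻¹ : (Matrix (Win C) (Win C) ℂ)ˣ) := by
    rw [h2, ← mul_assoc, ← mul_assoc, dtw C hg.1 n h.toWord, h3]
    simp only [mul_assoc]
  rw [h4, Units.conj_pow, hz, mul_smul_comm, smul_mul_assoc, mul_one, Units.mul_inv]

end Pool.Agent.AMH
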