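import Pool.Agent.AMH.DefsB

/-!
# AMH: [GLim] the limit of weighted Gauss sums

helper75.  The interval of summation is cut at the midpoints between the stationary points `l L`.
On every piece the weight is replaced by its value at the stationary point: near that point the
weights differ by little, elsewhere the partial sums are bounded by `kl` and Abel's inequality is
used; one full period is the Gauss sum.
-/

open scoped BigOperators Topology
open Filter

set_option autoImplicit false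
set_option linter.unusedVariables false

namespace Pool.Agent.AMH

namespace GLim

/-- the terms of the sums -/
private noncomputable def fF (L c : ℝ) (i : ℕ) : ℂ :=
  Complex.exp ((Real.pi * (i + c) ^ 2 / L : ℝ) * Complex.I)

private theorem norm_fF (L c : ℝ) (i : ℕ) : ‖fF L c i‖ = 1 := Complex.norm_exp_ofReal_mul_I _

/-- summation by parts -/
private theorem parts (f h : ℕ → ℂ) (n : ℕ) :
    ∑ i ∈ Finset.range (n + 1), f i * h i = (∑ i ∈ Finset.range (n + 1), f i) * h n -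
      ∑ i ∈ Finset.range n, (∑ k ∈ Finset.range (i + 1), f k) * (h (i + 1) - h i) := by
  induction n with
  | zero => simp
  | succ n ih =>
    rw [Finset.sum_range_succ (fun i => f i * h i) (n + 1), ih, Finset.sum_range_succ f (n + 1),
      Finset.sum_range_succ (fun i => (∑ k ∈ Finset.range (i + 1), f k) * (h (i + 1) - h i)) n]
    ring

/-- Abel's inequality -/
private theorem abel (f h : ℕ → ℂ) (N : ℕ) (M H D : ℝ)
    (hM : ∀ n ≤ N, ‖∑ i ∈ Finset.range n, f i‖ ≤ M) (hH0 : 0 ≤ H) (hD0 : 0 ≤ D)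
    (hH : ∀ i < N, ‖h i‖ ≤ H) (hD : ∀ i, i + 1 < N → ‖h (i + 1) - h i‖ ≤ D) :
    ‖∑ i ∈ Finset.range N, f i * h i‖ ≤ M * (H + N * D) := by
  have hM0 : 0 ≤ M := (norm_nonneg _).trans (hM 0 (Nat.zero_le _))
  rcases N with _ | n
  · simp only [Finset.range_zero, Finset.sum_empty, norm_zero, Nat.cast_zero, zero_mul, add_zero]
    exact mul_nonneg hM0 hH0
  · rw [parts]
    have h1 : ‖(∑ i ∈ Finset.range (n + 1), f i) * h n‖ ≤ M * H := by
      rw [norm_mul]
      exact mul_le_mul (hM _ le_rfl) (hH n (Nat.lt_succ_self n)) (norm_nonneg _) hM0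
    have h2 : ‖∑ i ∈ Finset.range n, (∑ k ∈ Finset.range (i + 1), f k) * (h (i + 1) - h i)‖ ≤
        n * (M * D) := by
      refine (norm_sum_le _ _).trans ?_
      have h3 : ∀ i ∈ Finset.range n,
          ‖(∑ k ∈ Finset.range (i + 1), f k) * (h (i + 1) - h i)‖ ≤ M * D := by
        intro i hi
        have hi' := Finset.mem_range.1 hi
        rw [norm_mul]
        exact mul_le_mul (hM _ (by omega)) (hD i (by omega)) (norm_nonneg _) hM0
      refine (Finset.sum_le_sum h3).trans ?_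
      rw [Finset.sum_const, Finset.card_range, nsmul_eq_mul]
    have h4 : (n : ℝ) * (M * D) ≤ ((n + 1 : ℕ) : ℝ) * (M * D) := by
      refine mul_le_mul_of_nonneg_right ?_ (mul_nonneg hM0 hD0)
      push_cast
      linarith
    calc _ ≤ M * H + n * (M * D) := (norm_sub_le _ _).trans (add_le_add h1 h2)
      _ ≤ M * H + ((n + 1 : ℕ) : ℝ) * (M * D) := by linarith
      _ = M * (H + ((n + 1 : ℕ) : ℝ) * D) := by ring

section blk

variable
    (kl : ∀ (L c δ : ℝ) (_ : 0 < L) (_ : 0 < δ) (m : ℤ) (a b : ℕ)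
      (_ : ∀ i : ℕ, a ≤ i → i < b → m * Real.pi + δ ≤ Real.pi * (i + c + 1 / 2) / L ∧
        Real.pi * (i + c + 1 / 2) / L ≤ (m + 1) * Real.pi - δ),
      ‖∑ i ∈ Finset.Ico a b, Complex.exp ((Real.pi * (i + c) ^ 2 / L : ℝ) * Complex.I)‖ ≤
        Real.pi / δ)

include kl in
/-- the sums over intervals between two stationary points -/
private theorem kli (L c δ : ℝ) (hL : 0 < L) (hδ : 0 < δ) (m : ℤ) (a b : ℕ)
    (h1 : (m + δ) * L ≤ a + c) (h2 : b + c ≤ (m + 1 - δ) * L) :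
    ‖∑ i ∈ Finset.Ico a b, fF L c i‖ ≤ 1 / δ := by
  have hpi := Real.pi_pos
  have h3 := kl L c (Real.pi * δ) hL (mul_pos hpi hδ) m a b (by
    intro i hi1 hi2
    have e1 : (a : ℝ) ≤ i := by exact_mod_cast hi1
    have e2 : (i : ℝ) + 1 ≤ b := by exact_mod_cast hi2
    constructor
    · rw [le_div_iff₀ hL]
      have e3 : (m + δ) * L ≤ i + c + 1 / 2 := by linarith
      calc (m * Real.pi + Real.pi * δ) * L = Real.pi * ((m + δ) * L) := by ring
        _ ≤ _ := mul_le_mul_of_nonneg_left e3 hpi.le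
    · rw [div_le_iff₀ hL]
      have e3 : (i : ℝ) + c + 1 / 2 ≤ (m + 1 - δ) * L := by linarith
      calc Real.pi * (i + c + 1 / 2) ≤ Real.pi * ((m + 1 - δ) * L) :=
            mul_le_mul_of_nonneg_left e3 hpi.le
        _ = _ := by ring)
  have h4 : Real.pi / (Real.pi * δ) = 1 / δ := by
    rw [← div_div, div_self hpi.ne']
  rw [h4] at h3
  exact h3

include kl in
/-- the weighted sums over intervals between two stationary points -/
private theorem outp (L c δ : ℝ) (hL : 0 < L) (hδ : 0 < δ) (m : ℤ) (a b : ℕ) (hab : a ≤ b)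
    (h1 : (m + δ) * L ≤ a + c) (h2 : b + c ≤ (m + 1 - δ) * L) (h : ℕ → ℂ) (H Lip : ℝ)
    (hH0 : 0 ≤ H) (hLip : 0 ≤ Lip) (hH : ∀ i, a ≤ i → i < b → ‖h i‖ ≤ H)
    (hD : ∀ i, a ≤ i → i + 1 < b → ‖h (i + 1) - h i‖ ≤ Lip / L) :
    ‖∑ i ∈ Finset.Ico a b, fF L c i * h i‖ ≤ (H + Lip) / δ := by
  have h3 := abel (fun i => fF L c (a + i)) (fun i => h (a + i)) (b - a) (1 / δ) H (Lip / L)
    (by
      intro n hn
      have e1 : ∑ i ∈ Finset.range n, fF L c (a + i) = ∑ i ∈ Finset.Ico a (a + n), fF L c i := by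
        rw [Finset.sum_Ico_eq_sum_range, Nat.add_sub_cancel_left]
      rw [e1]
      refine kli kl L c δ hL hδ m a (a + n) h1 ?_
      have e2 : ((a + n : ℕ) : ℝ) ≤ b := by
        have : a + n ≤ b := by omega
        exact_mod_cast this
      linarith)
    hH0 (div_nonneg hLip hL.le)
    (fun i hi => hH _ (by omega) (by omega))
    (fun i hi => hD (a + i) (by omega) (by omega))
  rw [Finset.sum_Ico_eq_sum_range]
  refine h3.trans ?_
  have h4 : ((b - a : ℕ) : ℝ) ≤ L := by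
    rw [Nat.cast_sub hab]
    have : (b : ℝ) - a ≤ (1 - 2 * δ) * L := by linarith
    nlinarith [mul_pos hδ hL]
  have h5 : ((b - a : ℕ) : ℝ) * (Lip / L) ≤ Lip := by
    calc ((b - a : ℕ) : ℝ) * (Lip / L) ≤ L * (Lip / L) :=
          mul_le_mul_of_nonneg_right h4 (div_nonneg hLip hL.le)
      _ = Lip := by field_simp
  calc 1 / δ * (H + ((b - a : ℕ) : ℝ) * (Lip / L)) ≤ 1 / δ * (H + Lip) :=
        mul_le_mul_of_nonneg_left (by linarith) (one_div_nonneg.2 hδ.le)
    _ = (H + Lip) / δ := by ring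

include kl in
/-- a piece which contains one stationary point -/
private theorem piece (n : ℕ) (L c δ B Lip : ℝ) (hn : (n : ℝ) = L) (hL : 0 < L) (hδ : 0 < δ)
    (hδL : 1 ≤ δ * L) (g : ℝ → ℂ)
    (hg : ∀ x y : ℝ, |x| ≤ 2 → |y| ≤ 2 → ‖g x‖ ≤ B ∧ ‖g x - g y‖ ≤ Lip * |x - y|)
    (l : ℤ) (hl : |(l : ℝ)| ≤ 2) (a b : ℕ) (Γ : ℂ)
    (hΓ : ∑ i ∈ Finset.Ico a (a + n), fF L c i = Γ)
    (h1 : (l - 1 + 2 * δ) * L ≤ a + c) (h2 : a + c ≤ (l - 2 * δ) * L)
    (h3 : (l + 2 * δ) * L ≤ b + c) (h4 : b + c ≤ (l + 1 - 2 * δ) * L)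
    (hpos : ∀ i, a ≤ i → i < b → |((i : ℝ) + c) / L| ≤ 2) :
    ‖∑ i ∈ Finset.Ico a b, fF L c i * g ((i + c) / L) - Γ * g l‖ ≤
      (5 * B + 2 * Lip) / δ + 8 * Lip * δ ^ 2 * L := by
  have hB0 : 0 ≤ B := (norm_nonneg _).trans (hg 0 0 (by norm_num) (by norm_num)).1
  have hLip : 0 ≤ Lip := by
    have h := (norm_nonneg _).trans (hg 0 1 (by norm_num) (by norm_num)).2
    norm_num at h
    exact h
  have hδL0 : 0 < δ * L := mul_pos hδ hL
  have hab : a ≤ b := by
    have : (a : ℝ) ≤ b := by nlinarith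
    exact_mod_cast this
  -- the unweighted sum
  have hA : ‖∑ i ∈ Finset.Ico a b, fF L c i - Γ‖ ≤ 1 / δ := by
    have e0 : ((a + n : ℕ) : ℝ) = a + L := by
      push_cast
      rw [hn]
    rcases le_total (a + n) b with hle | hle
    · have e1 : ∑ i ∈ Finset.Ico a b, fF L c i - Γ = ∑ i ∈ Finset.Ico (a + n) b, fF L c i := by
        rw [← hΓ, ← Finset.sum_Ico_consecutive _ (Nat.le_add_right a n) hle, add_sub_cancel_left]
      rw [e1]
      refine kli kl L c δ hL hδ l (a + n) b ?_ ?_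
      · rw [e0]
        nlinarith
      · nlinarith
    · have e1 : ∑ i ∈ Finset.Ico a b, fF L c i - Γ = -∑ i ∈ Finset.Ico b (a + n), fF L c i := by
        rw [← hΓ, ← Finset.sum_Ico_consecutive _ hab hle]
        ring
      rw [e1, norm_neg]
      refine kli kl L c δ hL hδ l b (a + n) ?_ ?_
      · nlinarith
      · rw [e0]
        nlinarith
  -- the differences of the weights
  set h : ℕ → ℂ := fun i => g ((i + c) / L) - g l with hh
  have hH : ∀ i, a ≤ i → i < b → ‖h i‖ ≤ 2 * B := by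
    intro i hi1 hi2
    have e1 := (hg _ 0 (hpos i hi1 hi2) (by norm_num)).1
    have e2 := (hg _ 0 hl (by norm_num)).1
    calc ‖h i‖ ≤ ‖g ((i + c) / L)‖ + ‖g l‖ := norm_sub_le _ _
      _ ≤ 2 * B := by linarith
  have hD : ∀ i, a ≤ i → i + 1 < b → ‖h (i + 1) - h i‖ ≤ Lip / L := by
    intro i hi1 hi2
    have e1 := (hg _ _ (hpos (i + 1) (by omega) hi2) (hpos i hi1 (by omega))).2
    have e2 : h (i + 1) - h i = g ((((i + 1 : ℕ) : ℝ) + c) / L) - g ((i + c) / L) := by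
      rw [hh]
      ring
    have e3 : (((i + 1 : ℕ) : ℝ) + c) / L - (i + c) / L = 1 / L := by
      push_cast
      ring
    rw [e2]
    rw [e3, abs_of_pos (one_div_pos.2 hL)] at e1
    calc _ ≤ Lip * (1 / L) := e1
      _ = Lip / L := by ring
  -- the cut points
  have k1 : (0 : ℝ) ≤ (l - δ) * L - c := by
    have : (0 : ℝ) ≤ a := Nat.cast_nonneg a
    nlinarith
  have k2 : (0 : ℝ) ≤ (l + δ) * L - c := by nlinarith
  set a' : ℕ := ⌊(l - δ) * L - c⌋₊ with ha'
  set b' : ℕ := ⌈(l + δ) * L - c⌉₊ with hb'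
  have ka1 : (a' : ℝ) ≤ (l - δ) * L - c := Nat.floor_le k1
  have ka2 : (l - δ) * L - c < a' + 1 := Nat.lt_floor_add_one _
  have kb1 : (l + δ) * L - c ≤ b' := Nat.le_ceil _
  have kb2 : (b' : ℝ) < (l + δ) * L - c + 1 := Nat.ceil_lt_add_one k2
  have haa' : a ≤ a' := Nat.le_floor (by nlinarith)
  have hb'b : b' ≤ b := Nat.ceil_le.2 (by nlinarith)
  have ha'b' : a' ≤ b' := by
    have : (a' : ℝ) ≤ b' := by nlinarith
    exact_mod_cast this
  have hS : ∑ i ∈ Finset.Ico a b, fF L c i * h i = ∑ i ∈ Finset.Ico a a', fF L c i * h i +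
      (∑ i ∈ Finset.Ico a' b', fF L c i * h i + ∑ i ∈ Finset.Ico b' b, fF L c i * h i) := by
    rw [Finset.sum_Ico_consecutive _ ha'b' hb'b, Finset.sum_Ico_consecutive _ haa'
      (ha'b'.trans hb'b)]
  have hO1 : ‖∑ i ∈ Finset.Ico a a', fF L c i * h i‖ ≤ (2 * B + Lip) / δ := by
    refine outp kl L c δ hL hδ (l - 1) a a' haa' ?_ ?_ h (2 * B) Lip (by positivity) hLip
      (fun i hi1 hi2 => hH i hi1 (by omega)) (fun i hi1 hi2 => hD i hi1 (by omega))
    · push_cast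
      nlinarith
    · push_cast
      nlinarith
  have hO2 : ‖∑ i ∈ Finset.Ico b' b, fF L c i * h i‖ ≤ (2 * B + Lip) / δ := by
    refine outp kl L c δ hL hδ l b' b hb'b ?_ ?_ h (2 * B) Lip (by positivity) hLip
      (fun i hi1 hi2 => hH i (by omega) hi2) (fun i hi1 hi2 => hD i (by omega) hi2)
    · nlinarith
    · nlinarith
  have hM : ‖∑ i ∈ Finset.Ico a' b', fF L c i * h i‖ ≤ 8 * Lip * δ ^ 2 * L := by
    have e1 : ∀ i ∈ Finset.Ico a' b', ‖fF L c i * h i‖ ≤ Lip * (2 * δ) := by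
      intro i hi
      rw [Finset.mem_Ico] at hi
      have q1 : (a' : ℝ) ≤ i := by exact_mod_cast hi.1
      have q2 : (i : ℝ) + 1 ≤ b' := by exact_mod_cast hi.2
      rw [norm_mul, norm_fF, one_mul]
      have e2 := (hg _ _ (hpos i (by omega) (by omega)) hl).2
      refine e2.trans (mul_le_mul_of_nonneg_left ?_ hLip)
      have e3 : (i + c) / L - l = (i + c - l * L) / L := by field_simp
      rw [e3, abs_div, abs_of_pos hL, div_le_iff₀ hL, abs_le]
      constructor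
      · nlinarith
      · nlinarith
    refine (norm_sum_le _ _).trans ((Finset.sum_le_sum e1).trans ?_)
    rw [Finset.sum_const, Nat.card_Ico, nsmul_eq_mul, Nat.cast_sub ha'b']
    have e2 : (b' : ℝ) - a' ≤ 4 * (δ * L) := by nlinarith
    calc ((b' : ℝ) - a') * (Lip * (2 * δ)) ≤ 4 * (δ * L) * (Lip * (2 * δ)) :=
          mul_le_mul_of_nonneg_right e2 (by positivity)
      _ = 8 * Lip * δ ^ 2 * L := by ring
  have hfin : ∑ i ∈ Finset.Ico a b, fF L c i * g ((i + c) / L) - Γ * g l =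
      (∑ i ∈ Finset.Ico a b, fF L c i - Γ) * g l + ∑ i ∈ Finset.Ico a b, fF L c i * h i := by
    have e1 : ∑ i ∈ Finset.Ico a b, fF L c i * h i =
        ∑ i ∈ Finset.Ico a b, fF L c i * g ((i + c) / L) -
          (∑ i ∈ Finset.Ico a b, fF L c i) * g l := by
      rw [Finset.sum_mul, ← Finset.sum_sub_distrib]
      exact Finset.sum_congr rfl fun i _ => by
        rw [hh]
        ring
    rw [e1]
    ring
  rw [hfin, hS]
  have hgl : ‖g l‖ ≤ B := (hg _ 0 hl (by norm_num)).1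
  have t1 : ‖(∑ i ∈ Finset.Ico a b, fF L c i - Γ) * g l‖ ≤ 1 / δ * B := by
    rw [norm_mul]
    exact mul_le_mul hA hgl (norm_nonneg _) (one_div_nonneg.2 hδ.le)
  have t2 := norm_add_le ((∑ i ∈ Finset.Ico a b, fF L c i - Γ) * g l)
    (∑ i ∈ Finset.Ico a a', fF L c i * h i +
      (∑ i ∈ Finset.Ico a' b', fF L c i * h i + ∑ i ∈ Finset.Ico b' b, fF L c i * h i))
  have t3 := norm_add_le (∑ i ∈ Finset.Ico a a', fF L c i * h i)
    (∑ i ∈ Finset.Ico a' b', fF L c i * h i + ∑ i ∈ Finset.Ico b' b, fF L c i * h i)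
  have t4 := norm_add_le (∑ i ∈ Finset.Ico a' b', fF L c i * h i)
    (∑ i ∈ Finset.Ico b' b, fF L c i * h i)
  have t5 : (5 * B + 2 * Lip) / δ = 1 / δ * B + (2 * B + Lip) / δ + (2 * B + Lip) / δ := by ring
  rw [t5]
  linarith

end blk

/-- one period of the sum -/
private theorem period
    (gsum : ∀ (L : ℕ) (_ : 0 < L) (a : ℤ),
      ∑ i ∈ Finset.range L, Complex.exp ((Real.pi * (i + a + (L : ℝ) / 2) ^ 2 / L : ℝ) * Complex.I)
        = ∑ i ∈ Finset.range L, Complex.exp ((Real.pi * (i + (L : ℝ) / 2) ^ 2 / L : ℝ) * Complex.I)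
      ∧ ‖∑ i ∈ Finset.range L,
        Complex.exp ((Real.pi * (i + (L : ℝ) / 2) ^ 2 / L : ℝ) * Complex.I)‖ ^ 2 = L)
    (n : ℕ) (hn : 0 < n) (k : ℤ) (c : ℝ) (hc : c = k + (n : ℝ) / 2) (a : ℕ) :
    ∑ i ∈ Finset.Ico a (a + n), fF n c i =
      ∑ i ∈ Finset.range n, Complex.exp ((Real.pi * (i + (n : ℝ) / 2) ^ 2 / n : ℝ) *
        Complex.I) := by
  rw [← (gsum n hn (a + k)).1, Finset.sum_Ico_eq_sum_range, Nat.add_sub_cancel_left]
  refine Finset.sum_congr rfl fun i _ => ?_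
  unfold fF
  rw [hc]
  push_cast
  congr 3
  ring

end GLim

open GLim in
/-- [GLim] -/
theorem glim
    (kl : ∀ (L c δ : ℝ) (_ : 0 < L) (_ : 0 < δ) (m : ℤ) (a b : ℕ)
      (_ : ∀ i : ℕ, a ≤ i → i < b → m * Real.pi + δ ≤ Real.pi * (i + c + 1 / 2) / L ∧
        Real.pi * (i + c + 1 / 2) / L ≤ (m + 1) * Real.pi - δ),
      ‖∑ i ∈ Finset.Ico a b, Complex.exp ((Real.pi * (i + c) ^ 2 / L : ℝ) * Complex.I)‖ ≤
        Real.pi / δ)
    (gsum : ∀ (L : ℕ) (_ : 0 < L) (a : ℤ),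
      ∑ i ∈ Finset.range L, Complex.exp ((Real.pi * (i + a + (L : ℝ) / 2) ^ 2 / L : ℝ) * Complex.I)
        = ∑ i ∈ Finset.range L, Complex.exp ((Real.pi * (i + (L : ℝ) / 2) ^ 2 / L : ℝ) * Complex.I)
      ∧ ‖∑ i ∈ Finset.range L,
        Complex.exp ((Real.pi * (i + (L : ℝ) / 2) ^ 2 / L : ℝ) * Complex.I)‖ ^ 2 = L)
    (p : ℕ) (ρ : ℝ) (h0 : 0 < ρ) (h1 : ρ ≠ 1) (h2 : ρ < 2) (C : ℕ → ℕ)
    (hC : ∀ j, C j % 2 = p % 2)
    (hCl : Tendsto (fun j : ℕ => (C j : ℝ) / (2 * (2 * j + p))) atTop (𝓝 ρ))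
    (g : ℕ → ℝ → ℂ) (g0 : ℝ → ℂ) (B Lip : ℝ)
    (hg : ∀ᶠ j in atTop, ∀ x y : ℝ, |x| ≤ 2 → |y| ≤ 2 →
      ‖g j x‖ ≤ B ∧ ‖g j x - g j y‖ ≤ Lip * |x - y|)
    (hlim : ∀ x : ℝ, x = 0 ∨ x = 1 ∨ x = -1 → Tendsto (fun j => g j x) atTop (𝓝 (g0 x)))
    (hS : ∀ᶠ j in atTop, ∑ i ∈ Finset.range (C j + 1),
      Complex.exp ((Real.pi * (i - (C j : ℝ) / 2) ^ 2 / (2 * j + p) : ℝ) * Complex.I) *
        g j ((i - (C j : ℝ) / 2) / (2 * j + p)) = 0) :
    g0 0 + (if 1 < ρ then g0 1 + g0 (-1) else 0) = 0 := by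
  -- the scales
  set N : ℕ → ℕ := fun j => 2 * j + p with hN
  have hNr : ∀ j, ((N j : ℕ) : ℝ) = 2 * j + p := fun j => by
    rw [hN]
    push_cast
    ring
  have hNtop : Tendsto (fun j => ((N j : ℕ) : ℝ)) atTop atTop := by
    refine tendsto_natCast_atTop_atTop.comp ?_
    refine tendsto_atTop_mono (fun j => ?_) tendsto_id
    show j ≤ 2 * j + p
    omega
  set s : ℕ → ℝ := fun j => ((N j : ℕ) : ℝ) ^ ((1 : ℝ) / 8) with hs
  have hs8 : ∀ j, s j ^ 8 = ((N j : ℕ) : ℝ) := fun j => by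
    rw [hs]
    show (((N j : ℕ) : ℝ) ^ ((1 : ℝ) / 8)) ^ 8 = _
    rw [← Real.rpow_natCast, ← Real.rpow_mul (Nat.cast_nonneg _)]
    norm_num
  have hstop : Tendsto s atTop atTop :=
    (tendsto_rpow_atTop (by norm_num : (0 : ℝ) < 1 / 8)).comp hNtop
  have hsinv : Tendsto (fun j => (s j)⁻¹) atTop (𝓝 0) := tendsto_inv_atTop_zero.comp hstop
  -- the limits of the positions of the ends
  have hinv3 : Tendsto (fun j => 2 * ((s j)⁻¹) ^ 3) atTop (𝓝 0) := by
    have h := (hsinv.pow 3).const_mul 2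
    simpa using h
  have hinv8 : Tendsto (fun j => ((N j : ℕ) : ℝ)⁻¹) atTop (𝓝 0) :=
    tendsto_inv_atTop_zero.comp hNtop
  have hCl' : Tendsto (fun j : ℕ => (C j : ℝ) / 2 / (N j : ℕ)) atTop (𝓝 ρ) := by
    refine hCl.congr fun j => ?_
    rw [hNr, div_div]
  have hup : Tendsto (fun j : ℕ => (C j : ℝ) / 2 / (N j : ℕ) + ((N j : ℕ) : ℝ)⁻¹ +
      2 * ((s j)⁻¹) ^ 3) atTop (𝓝 ρ) := by
    have h := (hCl'.add hinv8).add hinv3
    simpa using h
  have hlo : Tendsto (fun j : ℕ => (C j : ℝ) / 2 / (N j : ℕ) - 2 * ((s j)⁻¹) ^ 3) atTop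
      (𝓝 ρ) := by
    have h := hCl'.sub hinv3
    simpa using h
  -- the main estimate
  set K : ℝ := 3 * (5 * |B| + 2 * |Lip| + 8 * |Lip|) with hK
  have key : ∀ᶠ j in atTop, ‖g j 0 + (if 1 < ρ then g j 1 + g j (-1) else 0)‖ ≤
      K * ((s j)⁻¹ + ((s j)⁻¹) ^ 2) := by
    have q1 : ∀ᶠ j in atTop, 2 ≤ s j := hstop.eventually_ge_atTop 2
    have q2 : ∀ᶠ j in atTop, (C j : ℝ) / 2 / (N j : ℕ) + ((N j : ℕ) : ℝ)⁻¹ +
      2 * ((s j)⁻¹) ^ 3 < 2 := hup.eventually_lt_const h2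
    have q3 : ∀ᶠ j in atTop, 0 < (C j : ℝ) / 2 / (N j : ℕ) - 2 * ((s j)⁻¹) ^ 3 :=
      hlo.eventually_const_lt h0
    have q4 : ∀ᶠ j in atTop, (ρ < 1 → (C j : ℝ) / 2 / (N j : ℕ) + ((N j : ℕ) : ℝ)⁻¹ +
      2 * ((s j)⁻¹) ^ 3 < 1) ∧ (1 < ρ → 1 < (C j : ℝ) / 2 / (N j : ℕ) -
        2 * ((s j)⁻¹) ^ 3) := by
      rcases lt_or_gt_of_ne h1 with h | h
      · filter_upwards [hup.eventually_lt_const h] with j hj
        exact ⟨fun _ => hj, fun h' => absurd h (not_lt.2 h'.le)⟩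
      · filter_upwards [hlo.eventually_const_lt h] with j hj
        exact ⟨fun h' => absurd h (not_lt.2 h'.le), fun _ => hj⟩
    filter_upwards [hg, hS, q1, q2, q3, q4] with j hgj hSj hs2 r2 r3 r4
    set L : ℝ := ((N j : ℕ) : ℝ) with hL
    set t : ℝ := s j with ht
    have ht0 : 0 < t := by linarith
    have hLt : L = t ^ 8 := (hs8 j).symm
    have hL0 : 0 < L := by
      rw [hLt]
      positivity
    have hn0 : 0 < N j := Nat.cast_pos.1 (show (0 : ℝ) < ((N j : ℕ) : ℝ) from hL0)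
    set δ : ℝ := (t⁻¹) ^ 3 with hδ
    have hδ0 : 0 < δ := by positivity
    have hδL : δ * L = t ^ 5 := by
      rw [hLt, hδ]
      field_simp
    have hδ8 : δ ≤ 1 / 8 := by
      have e1 : t⁻¹ ≤ 2⁻¹ := inv_anti₀ (by norm_num) hs2
      calc δ ≤ (2⁻¹ : ℝ) ^ 3 := pow_le_pow_left₀ (by positivity) e1 3
        _ = 1 / 8 := by norm_num
    have h1δL : 1 ≤ δ * L := by
      rw [hδL]
      exact one_le_pow₀ (by linarith)
    set c : ℝ := -((C j : ℝ) / 2) with hc
    -- the integer part of the shift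
    obtain ⟨k, hk⟩ : ∃ k : ℤ, c = k + ((N j : ℕ) : ℝ) / 2 := by
      have e1 : (C j + N j) % 2 = 0 := by
        have e2 : N j % 2 = p % 2 := by
          show (2 * j + p) % 2 = p % 2
          omega
        have e3 := hC j
        omega
      obtain ⟨q, hq⟩ := Nat.dvd_of_mod_eq_zero e1
      refine ⟨-(q : ℤ), ?_⟩
      have e4 : (C j : ℝ) + ((N j : ℕ) : ℝ) = 2 * q := by exact_mod_cast hq
      rw [hc]
      push_cast
      linarith
    obtain ⟨-, hΓn⟩ := gsum (N j) hn0 0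
    set Γ : ℂ := ∑ i ∈ Finset.range (N j),
      Complex.exp ((Real.pi * (i + ((N j : ℕ) : ℝ) / 2) ^ 2 / (N j : ℕ) : ℝ) * Complex.I) with hΓ
    have hper := fun a : ℕ => period gsum (N j) hn0 k c hk a
    have hΓt : ‖Γ‖ = t ^ 4 := by
      have e1 : ‖Γ‖ ^ 2 = (t ^ 4) ^ 2 := by
        rw [hΓn, ← pow_mul]
        exact hLt
      exact (sq_eq_sq₀ (norm_nonneg _) (by positivity)).1 e1
    have hSj' : ∑ i ∈ Finset.Ico 0 (C j + 1), fF L c i * g j ((i + c) / L) = 0 := by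
      rw [← hSj, Finset.range_eq_Ico]
      refine Finset.sum_congr rfl fun i _ => ?_
      unfold fF
      rw [hL, hNr, hc, ← sub_eq_add_neg]
    have hpos : ∀ i : ℕ, i < C j + 1 → |((i : ℝ) + c) / L| ≤ 2 := by
      intro i hi
      have e1 : (i : ℝ) ≤ C j := by exact_mod_cast Nat.lt_succ_iff.1 hi
      have e2 : (0 : ℝ) ≤ i := Nat.cast_nonneg i
      have e3 : (C j : ℝ) / 2 / L < 2 := by
        have : 0 < L⁻¹ := inv_pos.2 hL0
        linarith
      rw [div_lt_iff₀ hL0] at e3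
      rw [abs_div, abs_of_pos hL0, div_le_iff₀ hL0, abs_le, hc]
      constructor
      · linarith
      · linarith
    have hpiece := fun (l : ℤ) (hl : |(l : ℝ)| ≤ 2) (a b : ℕ) (hb : b ≤ C j + 1)
      (m1 : ((l : ℝ) - 1 + 2 * δ) * L ≤ a + c) (m2 : (a : ℝ) + c ≤ (l - 2 * δ) * L)
      (m3 : ((l : ℝ) + 2 * δ) * L ≤ b + c) (m4 : (b : ℝ) + c ≤ (l + 1 - 2 * δ) * L) =>
      piece kl (N j) L c δ B Lip hL.symm hL0 hδ0 h1δL (g j) hgj l hl a b Γ (hper a) m1 m2 m3 m4
        (fun i _ hi => hpos i (by omega))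
    set E : ℝ := (5 * B + 2 * Lip) / δ + 8 * Lip * δ ^ 2 * L with hE
    have hE1 : 3 * E ≤ K * (t ^ 3 + t ^ 2) := by
      have e1 : E = (5 * B + 2 * Lip) * t ^ 3 + 8 * Lip * t ^ 2 := by
        rw [hE, hLt, hδ]
        field_simp
      have e2 := le_abs_self B
      have e3 := le_abs_self Lip
      have e4 := abs_nonneg B
      have e5 := abs_nonneg Lip
      have e6 : (5 * B + 2 * Lip) * t ^ 3 ≤ (5 * |B| + 2 * |Lip| + 8 * |Lip|) * t ^ 3 :=
        mul_le_mul_of_nonneg_right (by linarith) (by positivity)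
      have e7 : 8 * Lip * t ^ 2 ≤ (5 * |B| + 2 * |Lip| + 8 * |Lip|) * t ^ 2 :=
        mul_le_mul_of_nonneg_right (by linarith) (by positivity)
      rw [e1, hK]
      linarith
    -- the positions of the ends
    have w1 : 2 * δ * L < C j / 2 := by
      have := r3
      rw [sub_pos, lt_div_iff₀ hL0] at this
      linarith
    have w2 : (C j : ℝ) / 2 + 1 + 2 * δ * L < 2 * L := by
      have e1 : (C j : ℝ) / 2 / L + L⁻¹ + 2 * (t⁻¹) ^ 3 = (C j / 2 + 1 + 2 * δ * L) / L := by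
        rw [hδ]
        field_simp
      rw [e1, div_lt_iff₀ hL0] at r2
      exact r2
    -- the sum of the values of the weight
    have hmain : ‖Γ * (g j 0 + (if 1 < ρ then g j 1 + g j (-1) else 0))‖ ≤ 3 * E := by
      rcases lt_or_gt_of_ne h1 with h | h
      · have w3 : (C j : ℝ) / 2 + 1 + 2 * δ * L < 1 * L := by
          have e1 : (C j : ℝ) / 2 / L + L⁻¹ + 2 * (t⁻¹) ^ 3 = (C j / 2 + 1 + 2 * δ * L) / L := by
            rw [hδ]
            field_simp
          have e2 := r4.1 h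
          rw [e1, div_lt_iff₀ hL0] at e2
          exact e2
        have m := hpiece 0 (by norm_num) 0 (C j + 1) le_rfl
          (by push_cast; rw [hc]; nlinarith) (by push_cast; rw [hc]; nlinarith)
          (by push_cast; rw [hc]; nlinarith) (by push_cast; rw [hc]; nlinarith)
        rw [hSj', zero_sub, norm_neg, Int.cast_zero] at m
        rw [if_neg (not_lt.2 h.le), add_zero]
        have hE0 : 0 ≤ E := (norm_nonneg _).trans m
        linarith
      · have w3 : 1 * L + 2 * δ * L < C j / 2 := by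
          have e2 := r4.2 h
          rw [lt_sub_iff_add_lt, lt_div_iff₀ hL0] at e2
          have e3 : (1 + 2 * (t⁻¹) ^ 3) * L = 1 * L + 2 * δ * L := by
            rw [hδ]
            ring
          rw [e3] at e2
          exact e2
        have hCN : N j ≤ C j := by
          have : L ≤ C j := by nlinarith
          exact Nat.cast_le.1 (show ((N j : ℕ) : ℝ) ≤ ((C j : ℕ) : ℝ) from this)
        have hpar : (C j + N j) % 2 = 0 := by
          have e2 : N j % 2 = p % 2 := by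
            show (2 * j + p) % 2 = p % 2
            omega
          have e3 := hC j
          omega
        obtain ⟨a1, ha1⟩ : ∃ a1 : ℕ, 2 * a1 + N j = C j := ⟨(C j - N j) / 2, by omega⟩
        have ha1r : (a1 : ℝ) = (C j - L) / 2 := by
          have : 2 * (a1 : ℝ) + ((N j : ℕ) : ℝ) = C j := by exact_mod_cast ha1
          rw [← hL] at this
          linarith
        have ha2r : ((a1 + N j : ℕ) : ℝ) = (C j + L) / 2 := by
          push_cast
          rw [ha1r, hL]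
          ring
        have b1 : a1 ≤ C j + 1 := by omega
        have b2 : a1 + N j ≤ C j + 1 := by omega
        have m1 := hpiece (-1) (by norm_num) 0 a1 b1
          (by push_cast; rw [hc]; nlinarith) (by push_cast; rw [hc]; nlinarith)
          (by push_cast; rw [ha1r, hc]; nlinarith) (by push_cast; rw [ha1r, hc]; nlinarith)
        have m2 := hpiece 0 (by norm_num) a1 (a1 + N j) b2
          (by rw [ha1r, hc]; push_cast; nlinarith) (by rw [ha1r, hc]; push_cast; nlinarith)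
          (by rw [ha2r, hc]; push_cast; nlinarith) (by rw [ha2r, hc]; push_cast; nlinarith)
        have m3 := hpiece 1 (by norm_num) (a1 + N j) (C j + 1) le_rfl
          (by rw [ha2r, hc]; push_cast; nlinarith) (by rw [ha2r, hc]; push_cast; nlinarith)
          (by rw [hc]; push_cast; nlinarith) (by rw [hc]; push_cast; nlinarith)
        have hsplit : ∑ i ∈ Finset.Ico 0 (C j + 1), fF L c i * g j ((i + c) / L) =
            ∑ i ∈ Finset.Ico 0 a1, fF L c i * g j ((i + c) / L) +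
              (∑ i ∈ Finset.Ico a1 (a1 + N j), fF L c i * g j ((i + c) / L) +
                ∑ i ∈ Finset.Ico (a1 + N j) (C j + 1), fF L c i * g j ((i + c) / L)) := by
          rw [Finset.sum_Ico_consecutive _ (Nat.le_add_right a1 _) b2,
            Finset.sum_Ico_consecutive _ (Nat.zero_le a1) b1]
        rw [hSj'] at hsplit
        rw [if_pos h]
        have e1 : Γ * (g j 0 + (g j 1 + g j (-1))) =
            -((∑ i ∈ Finset.Ico 0 a1, fF L c i * g j ((i + c) / L) - Γ * g j ((-1 : ℤ) : ℝ)) +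
              (∑ i ∈ Finset.Ico a1 (a1 + N j), fF L c i * g j ((i + c) / L) -
                Γ * g j ((0 : ℤ) : ℝ)) +
              (∑ i ∈ Finset.Ico (a1 + N j) (C j + 1), fF L c i * g j ((i + c) / L) -
                Γ * g j ((1 : ℤ) : ℝ))) := by
          push_cast
          linear_combination (-1 : ℂ) * hsplit
        rw [e1, norm_neg]
        refine (norm_add_le _ _).trans ?_
        have e2 := norm_add_le
          (∑ i ∈ Finset.Ico 0 a1, fF L c i * g j ((i + c) / L) - Γ * g j ((-1 : ℤ) : ℝ))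
          (∑ i ∈ Finset.Ico a1 (a1 + N j), fF L c i * g j ((i + c) / L) -
                Γ * g j ((0 : ℤ) : ℝ))
        linarith
    rw [norm_mul, hΓt] at hmain
    have e1 : t ^ 4 * ‖g j 0 + (if 1 < ρ then g j 1 + g j (-1) else 0)‖ ≤
        t ^ 4 * (K * (t⁻¹ + t⁻¹ ^ 2)) := by
      refine (hmain.trans hE1).trans (le_of_eq ?_)
      field_simp
    exact le_of_mul_le_mul_left e1 (by positivity)
  -- the limit
  have hz : Tendsto (fun j => K * ((s j)⁻¹ + ((s j)⁻¹) ^ 2)) atTop (𝓝 0) := by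
    have h := (hsinv.add (hsinv.pow 2)).const_mul K
    simpa using h
  have hG0 : Tendsto (fun j => g j 0 + (if 1 < ρ then g j 1 + g j (-1) else 0)) atTop (𝓝 0) :=
    squeeze_zero_norm' key hz
  have hG1 : Tendsto (fun j => g j 0 + (if 1 < ρ then g j 1 + g j (-1) else 0)) atTop
      (𝓝 (g0 0 + (if 1 < ρ then g0 1 + g0 (-1) else 0))) := by
    refine (hlim 0 (Or.inl rfl)).add ?_
    split_ifs with h
    · exact (hlim 1 (Or.inr (Or.inl rfl))).add (hlim (-1) (Or.inr (Or.inr rfl)))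
    · exact tendsto_const_nhds
  exact tendsto_nhds_unique hG1 hG0

end Pool.Agent.AMH
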