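import Pool.Agent.AMH.DefsB

/-!
# Gauss sums: periodicity and absolute value
-/

open scoped BigOperators

namespace Pool.Agent.AMH

/-- The summand. -/
private noncomputable def gF (L : ℕ) (x : ℤ) : ℂ :=
  Complex.exp ((Real.pi * (x + (L : ℝ) / 2) ^ 2 / L : ℝ) * Complex.I)

private theorem gF_per (L : ℕ) (hL : 0 < L) (x : ℤ) : gF L (x + L) = gF L x := by
  unfold gF
  rw [Complex.exp_eq_exp_iff_exists_int]
  refine ⟨x + L, ?_⟩
  have hL' : (L : ℂ) ≠ 0 := by exact_mod_cast hL.ne'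
  push_cast
  field_simp
  ring

private theorem gF_shift (L : ℕ) (hL : 0 < L) (a : ℤ) :
    ∑ i ∈ Finset.range L, gF L ((i : ℤ) + a) = ∑ i ∈ Finset.range L, gF L (i : ℤ) := by
  have step : ∀ b : ℤ, ∑ i ∈ Finset.range L, gF L ((i : ℤ) + (b + 1)) =
      ∑ i ∈ Finset.range L, gF L ((i : ℤ) + b) := by
    intro b
    have h1 := Finset.sum_range_succ (fun i : ℕ => gF L ((i : ℤ) + b)) L
    have h2 := Finset.sum_range_succ' (fun i : ℕ => gF L ((i : ℤ) + b)) L
    have h3 : gF L ((L : ℤ) + b) = gF L (((0 : ℕ) : ℤ) + b) := by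
      rw [add_comm (L : ℤ) b, gF_per L hL]
      simp
    have h4 : ∑ i ∈ Finset.range L, gF L ((i : ℤ) + (b + 1)) =
        ∑ i ∈ Finset.range L, gF L (((i + 1 : ℕ) : ℤ) + b) := by
      refine Finset.sum_congr rfl fun i _ => ?_
      congr 1
      push_cast
      ring
    rw [h4]
    have h5 := h1.symm.trans h2
    rw [h3] at h5
    exact (add_right_cancel h5).symm
  induction a using Int.induction_on with
  | zero => simp
  | succ n ih => rw [step, ih]
  | pred n ih =>
    rw [← step (-(n : ℤ) - 1)]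
    rw [sub_add_cancel]
    exact ih

private theorem gF_mul (L : ℕ) (hL : 0 < L) (i j : ℕ) :
    gF L ((i : ℤ) + (j : ℤ)) * (starRingEnd ℂ) (gF L (j : ℤ)) =
      Complex.exp ((Real.pi * ((i : ℝ) ^ 2 + i * L) / L : ℝ) * Complex.I) *
        (Complex.exp (2 * Real.pi * Complex.I / L) ^ i) ^ j := by
  have hL' : (L : ℂ) ≠ 0 := by exact_mod_cast hL.ne'
  unfold gF
  rw [← Complex.exp_conj, ← Complex.exp_nat_mul, ← Complex.exp_nat_mul, ← Complex.exp_add,
    ← Complex.exp_add]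
  congr 1
  rw [map_mul, Complex.conj_I, Complex.conj_ofReal]
  push_cast
  field_simp
  ring

theorem gsum (L : ℕ) (hL : 0 < L) (a : ℤ) :
    ∑ i ∈ Finset.range L, Complex.exp ((Real.pi * (i + a + (L : ℝ) / 2) ^ 2 / L : ℝ) * Complex.I) =
      ∑ i ∈ Finset.range L, Complex.exp ((Real.pi * (i + (L : ℝ) / 2) ^ 2 / L : ℝ) * Complex.I) ∧
    ‖∑ i ∈ Finset.range L, Complex.exp ((Real.pi * (i + (L : ℝ) / 2) ^ 2 / L : ℝ) * Complex.I)‖ ^ 2
      = L := by
  have e1 : ∀ b : ℤ, ∑ i ∈ Finset.range L,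
      Complex.exp ((Real.pi * (i + b + (L : ℝ) / 2) ^ 2 / L : ℝ) * Complex.I) =
      ∑ i ∈ Finset.range L, gF L ((i : ℤ) + b) := by
    intro b
    refine Finset.sum_congr rfl fun i _ => ?_
    unfold gF
    push_cast
    rfl
  have e2 : ∑ i ∈ Finset.range L,
      Complex.exp ((Real.pi * (i + (L : ℝ) / 2) ^ 2 / L : ℝ) * Complex.I) =
      ∑ i ∈ Finset.range L, gF L (i : ℤ) := by
    refine Finset.sum_congr rfl fun i _ => ?_
    unfold gF
    push_cast
    rfl
  refine ⟨?_, ?_⟩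
  · rw [e1, e2]
    exact gF_shift L hL a
  · rw [e2]
    have hc : ((‖∑ i ∈ Finset.range L, gF L (i : ℤ)‖ ^ 2 : ℝ) : ℂ) = (L : ℂ) := by
      rw [Complex.ofReal_pow, ← Complex.mul_conj']
      rw [map_sum, Finset.mul_sum]
      have h1 : ∀ j ∈ Finset.range L,
          (∑ i ∈ Finset.range L, gF L (i : ℤ)) * (starRingEnd ℂ) (gF L (j : ℤ)) =
          ∑ i ∈ Finset.range L,
            Complex.exp ((Real.pi * ((i : ℝ) ^ 2 + i * L) / L : ℝ) * Complex.I) *
              (Complex.exp (2 * Real.pi * Complex.I / L) ^ i) ^ j := by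
        intro j _
        rw [← gF_shift L hL (j : ℤ), Finset.sum_mul]
        exact Finset.sum_congr rfl fun i _ => gF_mul L hL i j
      rw [Finset.sum_congr rfl h1, Finset.sum_comm]
      have hz := Complex.isPrimitiveRoot_exp L hL.ne'
      have h2 : ∀ i ∈ Finset.range L, i ≠ 0 → ∑ j ∈ Finset.range L,
          Complex.exp ((Real.pi * ((i : ℝ) ^ 2 + i * L) / L : ℝ) * Complex.I) *
              (Complex.exp (2 * Real.pi * Complex.I / L) ^ i) ^ j = 0 := by
        intro i hi hi0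
        rw [← Finset.mul_sum]
        have h3 : Complex.exp (2 * Real.pi * Complex.I / L) ^ i ≠ 1 :=
          hz.pow_ne_one_of_pos_of_lt hi0 (Finset.mem_range.1 hi)
        have h4 : (Complex.exp (2 * Real.pi * Complex.I / L) ^ i) ^ L = 1 := by
          rw [← pow_mul, mul_comm i L, pow_mul, hz.pow_eq_one, one_pow]
        rw [geom_sum_eq h3, h4]
        simp
      rw [Finset.sum_eq_single_of_mem 0 (Finset.mem_range.2 hL) h2]
      simp
    exact_mod_cast hc

end Pool.Agent.AMH
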