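import Mathlib

/-!
# AMH, KL: the inequality of Kusmin and Landau for quadratic phases
-/

set_option autoImplicit false

namespace Pool.Agent.AMH

private theorem KL_sin {δ θ : ℝ} (h0 : 0 < δ) (h1 : δ ≤ θ) (h2 : θ ≤ Real.pi - δ) :
    Real.sin δ ≤ Real.sin θ := by
  rcases le_total θ (Real.pi / 2) with h | h
  · exact Real.sin_le_sin_of_le_of_le_pi_div_two (by linarith [Real.pi_pos]) h h1
  · rw [← Real.sin_pi_sub θ]
    exact Real.sin_le_sin_of_le_of_le_pi_div_two (by linarith [Real.pi_pos]) (by linarith)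
      (by linarith)

/-- the multiplier of the summation by parts -/
private noncomputable def KL_w (θ : ℝ) : ℂ :=
  -1 / 2 - Complex.I / 2 * ((Real.cos θ / Real.sin θ : ℝ) : ℂ)

private theorem KL_w_mul {θ : ℝ} (h : Real.sin θ ≠ 0) :
    KL_w θ * (2 * (Real.sin θ : ℂ) * Complex.I * Complex.exp (θ * Complex.I)) = 1 := by
  have hS : (Real.sin θ : ℂ) ≠ 0 := by exact_mod_cast h
  have h1 : (Real.cos θ : ℂ) ^ 2 + (Real.sin θ : ℂ) ^ 2 = 1 := by
    have := Real.cos_sq_add_sin_sq θ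
    exact_mod_cast this
  have hI : Complex.I ^ 2 = -1 := Complex.I_sq
  unfold KL_w
  rw [Complex.exp_mul_I, ← Complex.ofReal_cos, ← Complex.ofReal_sin, Complex.ofReal_div]
  generalize (Real.cos θ : ℂ) = C at *
  generalize (Real.sin θ : ℂ) = S at *
  field_simp
  linear_combination h1 + (-C ^ 2 - S ^ 2 - Complex.I * S * C) * hI

private theorem KL_w_norm {θ : ℝ} (h : 0 < Real.sin θ) : ‖KL_w θ‖ = 1 / (2 * Real.sin θ) := by
  have h1 := congrArg norm (KL_w_mul h.ne')
  rw [norm_mul, norm_mul, norm_mul, norm_mul, Complex.norm_exp_ofReal_mul_I, Complex.norm_I,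
    Complex.norm_real, Real.norm_of_nonneg h.le, norm_one, Complex.norm_ofNat, mul_one,
    mul_one] at h1
  rw [eq_div_iff (by positivity)]
  exact h1

private theorem KL_w_sub (θ θ' : ℝ) : ‖KL_w θ - KL_w θ'‖ =
    |Real.cos θ / Real.sin θ - Real.cos θ' / Real.sin θ'| / 2 := by
  have h1 : KL_w θ - KL_w θ' = -(Complex.I / 2) *
      ((Real.cos θ / Real.sin θ - Real.cos θ' / Real.sin θ' : ℝ) : ℂ) := by
    unfold KL_w
    push_cast
    ring
  rw [h1, norm_mul, norm_neg, norm_div, Complex.norm_I, Complex.norm_ofNat, Complex.norm_real,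
    Real.norm_eq_abs]
  ring

private theorem KL_cot {δ θ θ' : ℝ} (h0 : 0 < δ) (h1 : δ ≤ θ) (h2 : θ ≤ θ')
    (h3 : θ' ≤ Real.pi - δ) : Real.cos θ' / Real.sin θ' ≤ Real.cos θ / Real.sin θ := by
  have hs : 0 < Real.sin θ := Real.sin_pos_of_pos_of_lt_pi (by linarith) (by linarith)
  have hs' : 0 < Real.sin θ' := Real.sin_pos_of_pos_of_lt_pi (by linarith) (by linarith)
  have h4 : 0 ≤ Real.sin (θ' - θ) :=
    Real.sin_nonneg_of_nonneg_of_le_pi (by linarith) (by linarith)
  rw [Real.sin_sub] at h4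
  rw [div_le_div_iff₀ hs' hs]
  linarith

/-- [KL] Kusmin-Landau. Let `z i = exp (π i (i + c) ^ 2 / L)`, `ψ i = π (i + c + 1 / 2) / L`, so
`z (i+1) = z i * exp (2 i ψ i)`. With `w i = 1 / (exp (2 i ψ i) - 1) = -1/2 - (i/2) cot (ψ i)` one
has `z i = (z (i+1) - z i) w i`; Abel summation, `|w i| ≤ 1 / (2 sin δ)`, `cot` is monotone on
`(m π, (m+1) π)` so the variation of `w` is at most `cot δ ≤ 1 / sin δ`, and
`sin δ ≥ 2 δ / π` (`δ ≤ π / 2` if the interval is not empty). The bound is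
`2 / sin δ ≤ π / δ`. If `a ≥ b` the sum is `0`. -/
theorem kl (L c δ : ℝ) (hL : 0 < L) (hδ : 0 < δ) (m : ℤ) (a b : ℕ)
    (h : ∀ i : ℕ, a ≤ i → i < b → m * Real.pi + δ ≤ Real.pi * (i + c + 1 / 2) / L ∧
      Real.pi * (i + c + 1 / 2) / L ≤ (m + 1) * Real.pi - δ) :
    ‖∑ i ∈ Finset.Ico a b, Complex.exp ((Real.pi * (i + c) ^ 2 / L : ℝ) * Complex.I)‖ ≤
      Real.pi / δ := by
  have hpi := Real.pi_pos
  rcases Nat.lt_or_ge a b with hab | hab
  swap
  · rw [Finset.Ico_eq_empty (by omega), Finset.sum_empty, norm_zero]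
    positivity
  have hδ2 : δ ≤ Real.pi / 2 := by
    obtain ⟨h1, h2⟩ := h a le_rfl hab
    have h3 : ((m : ℝ) + 1) * Real.pi = m * Real.pi + Real.pi := by ring
    linarith
  obtain ⟨z, hz⟩ : ∃ z : ℕ → ℂ, ∀ i : ℕ, z i =
      Complex.exp ((Real.pi * (i + c) ^ 2 / L : ℝ) * Complex.I) := ⟨_, fun _ => rfl⟩
  obtain ⟨θ, hθ⟩ : ∃ θ : ℕ → ℝ, ∀ i : ℕ, θ i =
      Real.pi * (i + c + 1 / 2) / L - m * Real.pi := ⟨_, fun _ => rfl⟩
  have hlo : ∀ i, a ≤ i → i < b → δ ≤ θ i := fun i h1 h2 => by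
    rw [hθ]
    linarith [(h i h1 h2).1]
  have hhi : ∀ i, a ≤ i → i < b → θ i ≤ Real.pi - δ := fun i h1 h2 => by
    rw [hθ]
    have h3 : ((m : ℝ) + 1) * Real.pi = m * Real.pi + Real.pi := by ring
    linarith [(h i h1 h2).2]
  have hsd : 0 < Real.sin δ := Real.sin_pos_of_pos_of_lt_pi hδ (by linarith)
  have hsin : ∀ i, a ≤ i → i < b → Real.sin δ ≤ Real.sin (θ i) := fun i h1 h2 =>
    KL_sin hδ (hlo i h1 h2) (hhi i h1 h2)
  have hzn : ∀ i, ‖z i‖ = 1 := fun i => by rw [hz, Complex.norm_exp_ofReal_mul_I]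
  -- the recursion
  have hrec : ∀ i, z (i + 1) = z i * (Complex.exp (θ i * Complex.I)) ^ 2 := by
    intro i
    have h1 : (Complex.exp (θ i * Complex.I)) ^ 2 =
        Complex.exp ((2 * (Real.pi * (i + c + 1 / 2) / L) : ℝ) * Complex.I) := by
      have h2 : Complex.exp (((2 * (Real.pi * (i + c + 1 / 2) / L) : ℝ) : ℂ) * Complex.I) =
          Complex.exp (θ i * Complex.I + θ i * Complex.I) *
            Complex.exp ((m : ℂ) * (2 * Real.pi * Complex.I)) := by
        rw [← Complex.exp_add]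
        congr 1
        rw [hθ]
        push_cast
        ring
      rw [h2, Complex.exp_int_mul_two_pi_mul_I, mul_one, Complex.exp_add, sq]
    rw [h1, hz, hz, ← Complex.exp_add]
    congr 1
    push_cast
    have hLc : (L : ℂ) ≠ 0 := by exact_mod_cast hL.ne'
    field_simp
    ring
  have hstep : ∀ i, a ≤ i → i < b → z i = (z (i + 1) - z i) * KL_w (θ i) := by
    intro i h1 h2
    have hs : 0 < Real.sin (θ i) := hsd.trans_le (hsin i h1 h2)
    have h3 := KL_w_mul hs.ne'
    have h4 : (Complex.exp (θ i * Complex.I)) ^ 2 - 1 =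
        2 * (Real.sin (θ i) : ℂ) * Complex.I * Complex.exp (θ i * Complex.I) := by
      have h5 : (Real.cos (θ i) : ℂ) ^ 2 + (Real.sin (θ i) : ℂ) ^ 2 = 1 := by
        have := Real.cos_sq_add_sin_sq (θ i)
        exact_mod_cast this
      have hI : Complex.I ^ 2 = -1 := Complex.I_sq
      rw [Complex.exp_mul_I, ← Complex.ofReal_cos, ← Complex.ofReal_sin]
      linear_combination h5 - (Real.sin (θ i) : ℂ) ^ 2 * hI
    rw [hrec]
    have h6 : (z i * (Complex.exp (θ i * Complex.I)) ^ 2 - z i) * KL_w (θ i) =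
        z i * (KL_w (θ i) * ((Complex.exp (θ i * Complex.I)) ^ 2 - 1)) := by ring
    rw [h6, h4, h3, mul_one]
  -- summation by parts
  have key : ∀ n : ℕ, a + n < b → ‖∑ i ∈ Finset.Ico a (a + n + 1), z i -
      z (a + n + 1) * KL_w (θ (a + n))‖ ≤ ‖KL_w (θ a)‖ +
        (Real.cos (θ a) / Real.sin (θ a) - Real.cos (θ (a + n)) / Real.sin (θ (a + n))) / 2 := by
    intro n
    induction n with
    | zero =>
      intro hn
      have h1 := hstep a le_rfl hab
      have h2 : ∑ i ∈ Finset.Ico a (a + 0 + 1), z i - z (a + 0 + 1) * KL_w (θ (a + 0)) =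
          -(z a * KL_w (θ a)) := by
        rw [add_zero, Finset.sum_Ico_succ_top le_rfl, Finset.Ico_self, Finset.sum_empty, zero_add]
        linear_combination h1
      rw [h2, norm_neg, norm_mul, hzn, one_mul, add_zero, sub_self, zero_div, add_zero]
    | succ n ih =>
      intro hn
      have h1 := hstep (a + (n + 1)) (by omega) hn
      have h2 : ∑ i ∈ Finset.Ico a (a + (n + 1) + 1), z i -
          z (a + (n + 1) + 1) * KL_w (θ (a + (n + 1))) =
          (∑ i ∈ Finset.Ico a (a + n + 1), z i - z (a + n + 1) * KL_w (θ (a + n))) +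
            z (a + n + 1) * (KL_w (θ (a + n)) - KL_w (θ (a + (n + 1)))) := by
        rw [Finset.sum_Ico_succ_top (by omega : a ≤ a + (n + 1))]
        have e : a + n + 1 = a + (n + 1) := by ring
        rw [e]
        linear_combination h1
      rw [h2]
      refine (norm_add_le _ _).trans ?_
      rw [norm_mul, hzn, one_mul, KL_w_sub]
      have h3 : θ (a + n) ≤ θ (a + (n + 1)) := by
        rw [hθ, hθ]
        push_cast
        have h4 : Real.pi * ((a : ℝ) + n + c + 1 / 2) / L ≤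
            Real.pi * ((a : ℝ) + (n + 1) + c + 1 / 2) / L := by
          refine div_le_div_of_nonneg_right ?_ hL.le
          refine mul_le_mul_of_nonneg_left ?_ hpi.le
          linarith
        linarith
      have h5 := KL_cot hδ (hlo (a + n) (by omega) (by omega)) h3 (hhi (a + (n + 1)) (by omega) hn)
      rw [abs_of_nonneg (sub_nonneg.2 h5)]
      have h6 := ih (by omega)
      linarith
  obtain ⟨n, hn⟩ : ∃ n, b = a + n + 1 := ⟨b - a - 1, by omega⟩
  have h1 := key n (by omega)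
  have h2 : ∀ i, a ≤ i → i < b → ‖KL_w (θ i)‖ ≤ 1 / (2 * Real.sin δ) := by
    intro i h3 h4
    rw [KL_w_norm (hsd.trans_le (hsin i h3 h4))]
    exact one_div_le_one_div_of_le (by positivity) (by linarith [hsin i h3 h4])
  have h3 : ∀ i, a ≤ i → i < b → |Real.cos (θ i) / Real.sin (θ i)| ≤ 1 / Real.sin δ := by
    intro i h4 h5
    rw [abs_div, abs_of_pos (hsd.trans_le (hsin i h4 h5))]
    exact div_le_div₀ zero_le_one (Real.abs_cos_le_one _) hsd (hsin i h4 h5)
  have h4 : ‖∑ i ∈ Finset.Ico a b, z i‖ ≤ 2 / Real.sin δ := by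
    have e : ∑ i ∈ Finset.Ico a b, z i = (∑ i ∈ Finset.Ico a (a + n + 1), z i -
        z (a + n + 1) * KL_w (θ (a + n))) + z (a + n + 1) * KL_w (θ (a + n)) := by
      rw [hn]
      ring
    rw [e]
    refine (norm_add_le _ _).trans ?_
    rw [norm_mul, hzn, one_mul]
    have h5 := h2 a le_rfl hab
    have h6 := h2 (a + n) (by omega) (by omega)
    have h7 := (abs_le.1 (h3 a le_rfl hab)).2
    have h8 := (abs_le.1 (h3 (a + n) (by omega) (by omega))).1
    have h9 : 2 / Real.sin δ = 1 / (2 * Real.sin δ) + (1 / Real.sin δ + 1 / Real.sin δ) / 2 +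
        1 / (2 * Real.sin δ) := by
      field_simp
      ring
    rw [h9]
    linarith
  have h5 : 2 / Real.sin δ ≤ Real.pi / δ := by
    have h6 := Real.mul_le_sin hδ.le hδ2
    rw [div_le_div_iff₀ hsd hδ]
    have h7 : Real.pi * (2 / Real.pi * δ) = 2 * δ := by
      field_simp
    calc 2 * δ = Real.pi * (2 / Real.pi * δ) := h7.symm
      _ ≤ Real.pi * Real.sin δ := mul_le_mul_of_nonneg_left h6 hpi.le
  refine le_trans (le_of_eq ?_) (h4.trans h5)
  congr 1
  exact Finset.sum_congr rfl fun i _ => (hz i).symm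

end Pool.Agent.AMH
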