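import Pool.Agent.AMH.DefsB

/-!
# AMH, module KapA: the absolute value of the product of the opposite transitions
-/

namespace Pool.Agent.AMH

open Pool.Agent.AMG

namespace KapA

/-- the filter of the opposite transitions -/
private def fo (L : List (Bool × ℤ × Bool)) : List (Bool × ℤ × Bool) :=
  L.filter fun q => q.1 != q.2.2

private def gg (u : ℂ) (e : Bool) : ℂ := if e then u else 1

/-- the factors `u ^ (± 1)` of the opposite transitions telescope -/
private theorem tel (u : ℂ) (hu : u ≠ 0) (l : List (ℤ × Bool)) : ∀ e : Bool,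
    ((fo (trs e l)).map fun q => if q.1 then u else u⁻¹).prod * gg u (lst e l) = gg u e := by
  induction l with
  | nil =>
    intro e
    exact one_mul _
  | cons a l ih =>
    intro e
    obtain ⟨b, ε⟩ := a
    have h := ih ε
    have h1 : lst e ((b, ε) :: l) = lst ε l := rfl
    have h2 : fo (trs e ((b, ε) :: l)) = if (e != ε) then (e, b, ε) :: fo (trs ε l)
        else fo (trs ε l) := by
      show List.filter _ ((e, b, ε) :: trs ε l) = _
      rw [List.filter_cons]
      rfl
    rw [h1, h2]
    cases e with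
    | true =>
      cases ε with
      | true => exact h
      | false =>
        rw [if_pos (by decide), List.map_cons, List.prod_cons, mul_assoc, h]
        simp [gg]
    | false =>
      cases ε with
      | true =>
        rw [if_pos (by decide), List.map_cons, List.prod_cons, mul_assoc, h]
        simp [gg, hu]
      | false => exact h

private theorem tel' (u : ℂ) (hu : u ≠ 0) (l : List (ℤ × Bool)) :
    ((opp l).map fun q => if q.1 then u else u⁻¹).prod = 1 := by
  have h := tel u hu l (lst true l)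
  have h1 : lst (lst true l) l = lst true l := by
    cases l with
    | nil => rfl
    | cons q l => rfl
  rw [h1] at h
  have h2 : gg u (lst true l) ≠ 0 := by
    unfold gg
    split_ifs
    · exact hu
    · exact one_ne_zero
  have h3 : ((fo (trs (lst true l) l)).map fun q => if q.1 then u else u⁻¹).prod = 1 := by
    have h4 := mul_right_cancel₀ h2 (h.trans (one_mul _).symm)
    exact h4
  exact h3

/-- the rest of the factor -/
private noncomputable def cc (u : ℂ) (q : Bool × ℤ × Bool) : ℂ :=
  if q.1 then u ^ (-q.2.1) - (-u) ^ q.2.1 else -(u ^ (-q.2.1) - (-u) ^ q.2.1)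

private noncomputable def ph (θ : ℝ) (q : Bool × ℤ × Bool) : ℝ :=
  if Even q.2.1 then |2 * Real.sin (q.2.1 * θ)| else |2 * Real.cos (q.2.1 * θ)|

private theorem oc_eq (u : ℂ) (q : Bool × ℤ × Bool) :
    oc u q = (if q.1 then u else u⁻¹) * cc u q := by
  unfold oc cc
  cases q.1 with
  | true => rfl
  | false =>
    simp only [Bool.false_eq_true, if_false]
    ring

private theorem cc_four (θ : ℝ) (q : Bool × ℤ × Bool) :
    cc (Complex.exp (θ * Complex.I)) q ^ 4 = ((ph θ q : ℝ) : ℂ) ^ 4 := by
  obtain ⟨e, b, ε⟩ := q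
  have h1 : cc (Complex.exp (θ * Complex.I)) (e, b, ε) ^ 4 =
      (Complex.exp (θ * Complex.I) ^ (-b) - (-Complex.exp (θ * Complex.I)) ^ b) ^ 4 := by
    unfold cc
    cases e with
    | true => rfl
    | false =>
      simp only [Bool.false_eq_true, if_false]
      ring
  rw [h1]
  have h2 : Complex.exp (θ * Complex.I) ^ b = Complex.exp (((b * θ : ℝ) : ℂ) * Complex.I) := by
    rw [← Complex.exp_int_mul]
    congr 1
    push_cast
    ring
  have h3 : Complex.exp (θ * Complex.I) ^ (-b) =
      Complex.exp (-((b * θ : ℝ) : ℂ) * Complex.I) := by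
    rw [← Complex.exp_int_mul]
    congr 1
    push_cast
    ring
  have h4 : ((ph θ (e, b, ε) : ℝ) : ℂ) ^ 4 =
      if Even b then (2 * Complex.sin ((b * θ : ℝ) : ℂ)) ^ 4
      else (2 * Complex.cos ((b * θ : ℝ) : ℂ)) ^ 4 := by
    have h5 : ∀ x : ℝ, |x| ^ 4 = x ^ 4 := fun x => by
      have : |x| ^ 4 = (|x| ^ 2) ^ 2 := by ring
      rw [this, sq_abs]
      ring
    unfold ph
    rw [← Complex.ofReal_pow]
    show (((if Even b then |2 * Real.sin (b * θ)| else |2 * Real.cos (b * θ)|) ^ 4 : ℝ) : ℂ) = _
    split_ifs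
    · rw [h5]
      push_cast
      rfl
    · rw [h5]
      push_cast
      rfl
  rw [h4]
  by_cases hb : Even b
  · rw [if_pos hb, hb.neg_zpow, h2, h3]
    have h6 : Complex.exp (-((b * θ : ℝ) : ℂ) * Complex.I) -
        Complex.exp (((b * θ : ℝ) : ℂ) * Complex.I) =
        -Complex.I * (2 * Complex.sin ((b * θ : ℝ) : ℂ)) := by
      unfold Complex.sin
      linear_combination (Complex.exp (-((b * θ : ℝ) : ℂ) * Complex.I) -
        Complex.exp (((b * θ : ℝ) : ℂ) * Complex.I)) * Complex.I_sq
    rw [h6, mul_pow]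
    have h7 : (-Complex.I) ^ 4 = 1 := by
      have : (-Complex.I) ^ 4 = (Complex.I ^ 2) ^ 2 := by ring
      rw [this, Complex.I_sq]
      norm_num
    rw [h7, one_mul]
  · rw [if_neg hb, (Int.not_even_iff_odd.1 hb).neg_zpow, h2, h3]
    congr 1
    unfold Complex.cos
    ring

private theorem prod_pow (θ : ℝ) (k : ℕ) (L : List (Bool × ℤ × Bool)) :
    (L.map (cc (Complex.exp (θ * Complex.I)))).prod ^ (4 * k) =
      (((L.map (ph θ)).prod ^ (4 * k) : ℝ) : ℂ) := by
  induction L with
  | nil => simp
  | cons q L ih =>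
    rw [List.map_cons, List.prod_cons, List.map_cons, List.prod_cons, mul_pow, mul_pow, ih,
      Complex.ofReal_mul]
    congr 1
    rw [pow_mul, cc_four, Complex.ofReal_pow, pow_mul]

private theorem main (l : List (ℤ × Bool)) (θ : ℝ) (M : ℕ) (hM : 4 ∣ M) :
    kap l (Complex.exp (θ * Complex.I)) ^ M = (phi l θ ^ M : ℝ) := by
  obtain ⟨k, rfl⟩ := hM
  have hu : Complex.exp (θ * Complex.I) ≠ 0 := Complex.exp_ne_zero _
  have h1 : ((opp l).map (oc (Complex.exp (θ * Complex.I)))).prod =
      ((opp l).map (cc (Complex.exp (θ * Complex.I)))).prod := by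
    have h2 : (opp l).map (oc (Complex.exp (θ * Complex.I))) = (opp l).map fun q =>
        (if q.1 then Complex.exp (θ * Complex.I) else (Complex.exp (θ * Complex.I))⁻¹) *
          cc (Complex.exp (θ * Complex.I)) q := by
      congr 1
      funext q
      exact oc_eq _ q
    rw [h2, List.prod_map_mul, tel' _ hu, one_mul]
  have h3 : Complex.exp (θ * Complex.I) + (Complex.exp (θ * Complex.I))⁻¹ =
      ((2 * Real.cos θ : ℝ) : ℂ) := by
    rw [← Complex.exp_neg]
    push_cast
    unfold Complex.cos
    rw [neg_mul]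
    ring
  have h4 : phi l θ = ((opp l).map (ph θ)).prod / (2 * Real.cos θ) ^ l.length := rfl
  unfold kap
  rw [h1, h3, div_pow, prod_pow, h4, div_pow, Complex.ofReal_div]
  congr 1
  push_cast
  rfl

private theorem phi_neg (l : List (ℤ × Bool)) (θ : ℝ) : phi l (-θ) = phi l θ := by
  unfold phi
  rw [Real.cos_neg]
  congr 3
  funext q
  rw [mul_neg, Real.sin_neg, Real.cos_neg, mul_neg, abs_neg]

end KapA

set_option linter.unusedVariables false in
open KapA in
theorem kap_abs (l : List (ℤ × Bool)) (θ : ℝ) (h0 : 0 < θ) (h1 : θ < Real.pi / 2) (M : ℕ)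
    (hM : 4 ∣ M) (u : ℂ) (hu : u = Complex.exp (θ * Complex.I)) :
    kap l u ^ M = (phi l θ ^ M : ℝ) ∧ kap l u⁻¹ ^ M = (phi l θ ^ M : ℝ) := by
  subst hu
  refine ⟨main l θ M hM, ?_⟩
  have h := main l (-θ) M hM
  rw [phi_neg] at h
  rw [← h, ← Complex.exp_neg]
  congr 3
  push_cast
  ring

end Pool.Agent.AMH
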