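import Pool.Agent.AMH.DefsB

/-!
# AMH, module KcA: the constant does not change under `E ↦ E ^ m`
-/

open scoped LaurentPolynomial

namespace Pool.Agent.AMH

open Pool.Agent.AMG

namespace KcA

/-- the map `k ↦ m k` -/
private def sc (m : ℕ) : ℤ →+ ℤ := AddMonoidHom.mulLeft (m : ℤ)

/-- the ring homomorphism `E ↦ E ^ m` -/
private noncomputable def f (m : ℕ) : ℂ[T;T⁻¹] →+* ℂ[T;T⁻¹] :=
  AddMonoidAlgebra.mapDomainRingHom ℂ (sc m)

private theorem f_single (m : ℕ) (k : ℤ) (r : ℂ) :
    f m (AddMonoidAlgebra.single k r) = AddMonoidAlgebra.single (m * k) r := by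
  unfold f
  exact AddMonoidAlgebra.mapDomain_single

private theorem f_C (m : ℕ) (r : ℂ) : f m (LaurentPolynomial.C r) = LaurentPolynomial.C r := by
  have h := f_single m 0 r
  rw [mul_zero] at h
  exact h

private theorem f_T (m : ℕ) (k : ℤ) :
    f m (LaurentPolynomial.T k) = LaurentPolynomial.T (m * k) := f_single m k 1

private theorem f_coeff (m : ℕ) (hm : 0 < m) (p : ℂ[T;T⁻¹]) : (f m p).coeff 0 = p.coeff 0 := by
  have hi : Function.Injective (sc m) := by
    intro a b h
    have h1 : (m : ℤ) * a = (m : ℤ) * b := h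
    exact mul_left_cancel₀ (by exact_mod_cast hm.ne') h1
  have h := Finsupp.mapDomain_apply hi p.coeff 0
  rw [map_zero] at h
  exact h

end KcA

open KcA in
theorem Kc_exp (L : List (ℂ × ℂ)) (m : ℕ) (hm : 0 < m) : Kc L m = Kc L 1 := by
  unfold Kc
  have h1 : (L.map fun q => (LaurentPolynomial.C q.1 * LaurentPolynomial.T (-(m : ℤ)) -
      LaurentPolynomial.C q.2 * LaurentPolynomial.T (m : ℤ)) ^ 2).prod =
      f m (L.map fun q => (LaurentPolynomial.C q.1 * LaurentPolynomial.T (-((1 : ℕ) : ℤ)) -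
        LaurentPolynomial.C q.2 * LaurentPolynomial.T ((1 : ℕ) : ℤ)) ^ 2).prod := by
    rw [map_list_prod, List.map_map]
    congr 2
    funext q
    show _ = f m ((_ - _) ^ 2)
    rw [map_pow, map_sub, map_mul, map_mul, f_C, f_C, f_T, f_T, Nat.cast_one, mul_neg, mul_one]
  rw [h1, f_coeff m hm]

end Pool.Agent.AMH
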