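import Pool.Agent.AMH.DefsB

/-!
# AMH, module KcB: positivity of a constant coefficient (helper71)
-/

open scoped BigOperators LaurentPolynomial Matrix Topology
open Polynomial Filter

set_option linter.unusedVariables false

namespace Pool.Agent.AMH

open Pool.Agent.AMG

/-- conjugation of the coefficients -/
private noncomputable def kcJ : ℂ[T;T⁻¹] →+* ℂ[T;T⁻¹] :=
  AddMonoidAlgebra.mapRingHom ℤ (starRingEnd ℂ)

private theorem kcJ_coeff (f : ℂ[T;T⁻¹]) (j : ℤ) :
    (kcJ f).coeff j = (starRingEnd ℂ) (f.coeff j) := by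
  unfold kcJ
  rw [AddMonoidAlgebra.coeff_mapRingHom]

private theorem kcJ_C (a : ℂ) :
    kcJ (LaurentPolynomial.C a) = LaurentPolynomial.C ((starRingEnd ℂ) a) := by
  refine LaurentPolynomial.ext fun j => ?_
  rw [kcJ_coeff, LaurentPolynomial.C_apply, LaurentPolynomial.C_apply]
  split_ifs
  · rfl
  · exact map_zero _

private theorem kcJ_T (n : ℤ) :
    kcJ (LaurentPolynomial.T n) = (LaurentPolynomial.T n : ℂ[T;T⁻¹]) := by
  refine LaurentPolynomial.ext fun j => ?_
  rw [kcJ_coeff, LaurentPolynomial.T_apply]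
  split_ifs
  · exact map_one _
  · exact map_zero _

/-- the factor -/
private noncomputable def kcF (q : ℂ × ℂ) : ℂ[T;T⁻¹] :=
  LaurentPolynomial.C q.1 * LaurentPolynomial.T (-1) - LaurentPolynomial.C q.2 *
    LaurentPolynomial.T 1

/-- the factor, symmetric -/
private noncomputable def kcQ (q : ℂ × ℂ) : ℂ[T;T⁻¹] := LaurentPolynomial.C Complex.I * kcF q

private theorem kc_eq (L : List (ℂ × ℂ)) : Kc L 1 = ((L.map fun q => kcF q ^ 2).prod).coeff 0 := by
  unfold Kc kcF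
  simp only [Nat.cast_one]

private theorem kc_sq (L : List (ℂ × ℂ)) :
    ((L.map kcQ).prod) ^ 2 = ((-1 : ℂ) ^ L.length) • (L.map fun q => kcF q ^ 2).prod := by
  induction L with
  | nil => simp
  | cons q L ih =>
    have h1 : kcQ q ^ 2 = -(kcF q ^ 2) := by
      unfold kcQ
      rw [mul_pow, ← map_pow, Complex.I_sq, map_neg, map_one, neg_one_mul]
    rw [List.map_cons, List.prod_cons, mul_pow, ih, List.map_cons, List.prod_cons,
      List.length_cons, pow_succ (-1 : ℂ), mul_smul_comm, mul_smul, h1, neg_mul, neg_one_smul]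

private theorem kc_conj {q : ℂ × ℂ} (h : q.1 * q.2 = 1 ∧ ‖q.1‖ = 1) :
    (starRingEnd ℂ) q.1 = q.2 ∧ (starRingEnd ℂ) q.2 = q.1 ∧ q.1⁻¹ = q.2 ∧ q.2⁻¹ = q.1 := by
  obtain ⟨h1, h2⟩ := h
  have h3 : q.1 * (starRingEnd ℂ) q.1 = 1 := by
    rw [Complex.mul_conj, Complex.normSq_eq_norm_sq, h2]
    norm_num
  have h4 : q.1 ≠ 0 := left_ne_zero_of_mul_eq_one h1
  have h5 : (starRingEnd ℂ) q.1 = q.2 := mul_left_cancel₀ h4 (h3.trans h1.symm)
  refine ⟨h5, ?_, inv_eq_of_mul_eq_one_right h1, inv_eq_of_mul_eq_one_left h1⟩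
  rw [← h5, Complex.conj_conj]

private theorem kc_sym (L : List (ℂ × ℂ)) (h : ∀ q ∈ L, q.1 * q.2 = 1 ∧ ‖q.1‖ = 1) :
    kcJ (LaurentPolynomial.invert ((L.map kcQ).prod)) = (L.map kcQ).prod := by
  induction L with
  | nil => simp
  | cons q L ih =>
    rw [List.map_cons, List.prod_cons, map_mul, map_mul,
      ih fun q' hq' => h q' (List.mem_cons_of_mem _ hq')]
    congr 1
    obtain ⟨h1, h2, -, -⟩ := kc_conj (h q (List.mem_cons_self ..))
    unfold kcQ kcF
    simp only [map_mul, map_sub, LaurentPolynomial.invert_C, LaurentPolynomial.invert_T, kcJ_C,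
      kcJ_T, h1, h2, Complex.conj_I, neg_neg, map_neg]
    ring

private theorem kc_ne (L : List (ℂ × ℂ)) (h : ∀ q ∈ L, q.1 * q.2 = 1 ∧ ‖q.1‖ = 1) :
    (L.map kcQ).prod ≠ 0 := by
  refine List.prod_ne_zero ?_
  rw [List.mem_map]
  rintro ⟨q, hq, h0⟩
  have h1 := congrArg (fun f : ℂ[T;T⁻¹] => f.coeff 1) h0
  have h2 : q.2 ≠ 0 := right_ne_zero_of_mul_eq_one (h q hq).1
  have h3 : (kcQ q).coeff 1 = -(Complex.I * q.2) := by
    unfold kcQ kcF
    rw [mul_sub, ← mul_assoc, ← mul_assoc, ← map_mul, ← map_mul,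
      ← LaurentPolynomial.single_eq_C_mul_T, ← LaurentPolynomial.single_eq_C_mul_T]
    show Finsupp.single (-1 : ℤ) (Complex.I * q.1) 1 - Finsupp.single (1 : ℤ) (Complex.I * q.2) 1 =
      _
    rw [Finsupp.single_eq_of_ne (by norm_num), Finsupp.single_eq_same, zero_sub]
  have h4 : (kcQ q).coeff 1 = 0 := h1
  rw [h3, neg_eq_zero] at h4
  exact (mul_ne_zero Complex.I_ne_zero h2) h4

theorem Kc_pos (L : List (ℂ × ℂ)) (h : ∀ q ∈ L, q.1 * q.2 = 1 ∧ ‖q.1‖ = 1) :
    ∃ K : ℝ, 0 < K ∧ (-1) ^ L.length * Kc L 1 = K ∧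
      (-1) ^ L.length * Kc (L.map fun q => (q.1⁻¹, q.2⁻¹)) 1 = K := by
  obtain ⟨P, hP⟩ : ∃ P, P = (L.map kcQ).prod := ⟨_, rfl⟩
  have hsym : ∀ j, (starRingEnd ℂ) (P.coeff (-j)) = P.coeff j := by
    intro j
    have h1 := kc_sym L h
    rw [← hP] at h1
    have h2 := congrArg (fun f : ℂ[T;T⁻¹] => f.coeff j) h1
    simp only [kcJ_coeff, LaurentPolynomial.invert_apply] at h2
    exact h2
  have hne : P ≠ 0 := hP ▸ kc_ne L h
  have hK : (P * P).coeff 0 = ((∑ m ∈ P.coeff.support, Complex.normSq (P.coeff m) : ℝ) : ℂ) := by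
    rw [AddMonoidAlgebra.coeff_mul, Finsupp.sum, Complex.ofReal_sum]
    refine Finset.sum_congr rfl fun m hm => ?_
    rw [Finsupp.sum, Finset.sum_eq_single (-m)]
    · rw [if_pos (add_neg_cancel m), Complex.normSq_eq_conj_mul_self, ← hsym m, Complex.conj_conj,
        mul_comm]
    · intro b _ hb
      rw [if_neg]
      intro h0
      exact hb (eq_neg_of_add_eq_zero_right h0)
    · intro h0
      rw [Finsupp.notMem_support_iff] at h0
      rw [h0]
      simp
  have hpos : 0 < ∑ m ∈ P.coeff.support, Complex.normSq (P.coeff m) := by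
    refine Finset.sum_pos (fun m hm => ?_) ?_
    · rw [Complex.normSq_pos]
      exact Finsupp.mem_support_iff.1 hm
    · rw [Finsupp.support_nonempty_iff]
      intro h0
      exact hne (AddMonoidAlgebra.coeff_eq_zero.1 h0)
  have hKc : (-1) ^ L.length * Kc L 1 =
      ((∑ m ∈ P.coeff.support, Complex.normSq (P.coeff m) : ℝ) : ℂ) := by
    rw [← hK, ← sq, hP, kc_sq, kc_eq, AddMonoidAlgebra.coeff_smul_apply, smul_eq_mul]
  have hcj : ((L.map fun q => (q.1⁻¹, q.2⁻¹)).map fun q => kcF q ^ 2).prod =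
      kcJ ((L.map fun q => kcF q ^ 2).prod) := by
    clear hP hsym hne hK hpos hKc
    induction L with
    | nil => simp
    | cons q L ih =>
      rw [List.map_cons, List.map_cons, List.prod_cons, List.map_cons, List.prod_cons, map_mul,
        ih fun q' hq' => h q' (List.mem_cons_of_mem _ hq')]
      congr 1
      obtain ⟨h1, h2, h3, h4⟩ := kc_conj (h q (List.mem_cons_self ..))
      unfold kcF
      simp only [map_mul, map_sub, map_pow, kcJ_C, kcJ_T, h1, h2, h3, h4]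
  refine ⟨_, hpos, hKc, ?_⟩
  have h1 := congrArg (starRingEnd ℂ) hKc
  rw [Complex.conj_ofReal, map_mul, map_pow, map_neg, map_one] at h1
  rw [← h1, kc_eq, kc_eq, hcj, kcJ_coeff]

end Pool.Agent.AMH
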