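import Pool.Agent.AMH.DefsB

/-!
# AMH, module NFEx: the normal form in a twisted conjugacy class of the free group
-/

namespace Pool.Agent.AMH

open Pool.Agent.AMG

namespace NFEx

/-- the letter `y` or its inverse -/
private def sy (e : Bool) : FreeGroup (Fin 2) := if e then FreeGroup.of 1 else (FreeGroup.of 1)⁻¹

private theorem mk_rep (m : ℕ) (e : Bool) :
    FreeGroup.mk (List.replicate m ((0 : Fin 2), e)) =
      (if e then FreeGroup.of 0 else (FreeGroup.of 0)⁻¹) ^ m := by
  induction m with
  | zero => rfl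
  | succ m ih =>
    rw [List.replicate_succ, pow_succ', ← ih]
    have h1 : ((0 : Fin 2), e) :: List.replicate m ((0 : Fin 2), e) =
        [((0 : Fin 2), e)] ++ List.replicate m ((0 : Fin 2), e) := rfl
    rw [h1, ← FreeGroup.mul_mk]
    congr 1
    cases e with
    | true => rfl
    | false => rfl

private theorem mk_xw (b : ℤ) : FreeGroup.mk (xw b) = FreeGroup.of 0 ^ b := by
  unfold xw
  rw [mk_rep]
  by_cases h : 0 ≤ b
  · rw [decide_eq_true h, if_pos rfl]
    obtain ⟨m, rfl⟩ := Int.eq_ofNat_of_zero_le h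
    rw [Int.natAbs_natCast, zpow_natCast]
  · rw [decide_eq_false h, if_neg Bool.false_ne_true]
    obtain ⟨m, hm⟩ := Int.eq_ofNat_of_zero_le (show 0 ≤ -b by omega)
    have h2 : b = -(m : ℤ) := by omega
    rw [h2, Int.natAbs_neg, Int.natAbs_natCast, zpow_neg, zpow_natCast, inv_pow]

private theorem nfv_nil : nfv [] = 1 := rfl

private theorem nfv_app (l l' : List (ℤ × Bool)) : nfv (l ++ l') = nfv l * nfv l' := by
  unfold nfv wd
  rw [List.flatMap_append, ← FreeGroup.mul_mk]

private theorem nfv_one (b : ℤ) (e : Bool) : nfv [(b, e)] = FreeGroup.of 0 ^ b * sy e := by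
  unfold nfv wd
  rw [List.flatMap_cons, List.flatMap_nil, List.append_nil, ← FreeGroup.mul_mk, mk_xw]
  congr 1
  cases e with
  | true => rfl
  | false => rfl

private theorem nfv_cons (b : ℤ) (e : Bool) (l : List (ℤ × Bool)) :
    nfv ((b, e) :: l) = FreeGroup.of 0 ^ b * sy e * nfv l := by
  have h1 : (b, e) :: l = [(b, e)] ++ l := rfl
  rw [h1, nfv_app, nfv_one]

private theorem sy_mul {e e' : Bool} (h : e ≠ e') : sy e * sy e' = 1 := by
  cases e <;> cases e' <;> simp_all [sy]

private theorem tau_x (j b : ℤ) : tau j (FreeGroup.of 0 ^ b) = FreeGroup.of 0 ^ b := by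
  unfold tau
  rw [map_zpow, FreeGroup.lift_apply_of, if_pos rfl]

private theorem tau_y (j : ℤ) : tau j (FreeGroup.of 1) = FreeGroup.of 1 * FreeGroup.of 0 ^ j := by
  unfold tau
  rw [FreeGroup.lift_apply_of, if_neg (by decide)]

private theorem lst_app (e : Bool) (l : List (ℤ × Bool)) (a : ℤ × Bool) :
    lst e (l ++ [a]) = a.2 := by
  induction l generalizing e with
  | nil => rfl
  | cons q l ih => exact ih q.2

/-- a cancellation -/
private theorem bad (l : List (ℤ × Bool)) : ∀ (e : Bool) (b : ℤ),
    (∃ q ∈ trs e l, q.1 ≠ q.2.2 ∧ q.2.1 = 0) →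
    ∃ (l' : List (ℤ × Bool)) (b' : ℤ), l'.length < l.length ∧
      FreeGroup.of 0 ^ b * sy e * nfv l = nfv l' * FreeGroup.of 0 ^ b' := by
  induction l with
  | nil =>
    rintro e b ⟨q, hq, -⟩
    exact absurd hq List.not_mem_nil
  | cons a l ih =>
    obtain ⟨c, ε⟩ := a
    rintro e b ⟨q, hq, h1, h2⟩
    rcases List.mem_cons.1 hq with h | h
    · subst h
      change e ≠ ε at h1
      change c = 0 at h2
      have h3 : FreeGroup.of 0 ^ b * sy e * nfv ((c, ε) :: l) = FreeGroup.of 0 ^ b * nfv l := by
        rw [nfv_cons, h2, zpow_zero, one_mul, mul_assoc, ← mul_assoc (sy e), sy_mul h1, one_mul]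
      rw [h3]
      rcases l with _ | ⟨⟨c', ε'⟩, l⟩
      · exact ⟨[], b, by simp, by rw [nfv_nil, mul_one, one_mul]⟩
      · refine ⟨(b + c', ε') :: l, 0, by simp, ?_⟩
        rw [nfv_cons, nfv_cons, zpow_zero, mul_one, zpow_add]
        simp only [mul_assoc]
    · obtain ⟨l', b', h3, h4⟩ := ih ε c ⟨q, h, h1, h2⟩
      refine ⟨(b, e) :: l', b', by simpa using h3, ?_⟩
      rw [nfv_cons, nfv_cons, h4]
      simp only [mul_assoc]

/-- the conclusion -/
private def P (n : ℕ) (g : FreeGroup (Fin 2)) : Prop :=
  ∃ h : FreeGroup (Fin 2),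
    (∃ b : ℤ, tau (-(4 * n : ℕ)) h * g * h⁻¹ = FreeGroup.of 0 ^ b) ∨
    ∃ l : List (ℤ × Bool), NF l ∧ tau (-(4 * n : ℕ)) h * g * h⁻¹ = nfv l

private theorem P_conj {n : ℕ} {g : FreeGroup (Fin 2)} (k : FreeGroup (Fin 2))
    (h : P n (tau (-(4 * n : ℕ)) k * g * k⁻¹)) : P n g := by
  obtain ⟨h, h1⟩ := h
  refine ⟨h * k, ?_⟩
  have h2 : tau (-(4 * n : ℕ)) (h * k) * g * (h * k)⁻¹ =
      tau (-(4 * n : ℕ)) h * (tau (-(4 * n : ℕ)) k * g * k⁻¹) * h⁻¹ := by
    rw [map_mul, mul_inv_rev]
    simp only [mul_assoc]
  rw [h2]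
  exact h1

private theorem P_x {n : ℕ} (l : List (ℤ × Bool)) (b c : ℤ)
    (h : P n (nfv l * FreeGroup.of 0 ^ (b + c))) :
    P n (FreeGroup.of 0 ^ c * (nfv l * FreeGroup.of 0 ^ b)) := by
  refine P_conj (FreeGroup.of 0 ^ (-c)) ?_
  rw [tau_x]
  have h1 : FreeGroup.of (0 : Fin 2) ^ (-c) * (FreeGroup.of 0 ^ c *
      (nfv l * FreeGroup.of 0 ^ b)) * (FreeGroup.of 0 ^ (-c))⁻¹ =
      nfv l * FreeGroup.of 0 ^ (b + c) := by
    rw [zpow_neg, inv_inv, inv_mul_cancel_left, mul_assoc, zpow_add]
  rw [h1]
  exact h

private theorem P_nf {n : ℕ} {l : List (ℤ × Bool)} (h : NF l) : P n (nfv l) := by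
  refine ⟨1, Or.inr ⟨l, h, ?_⟩⟩
  rw [map_one, one_mul, inv_one, mul_one]

private theorem opp_ok {e : Bool} {b : ℤ} {ε : Bool} {l : List (ℤ × Bool)}
    (h1 : ¬ ∃ q ∈ trs ε l, q.1 ≠ q.2.2 ∧ q.2.1 = 0) (h2 : e ≠ ε → b ≠ 0) :
    ∀ q ∈ (trs e ((b, ε) :: l)).filter (fun q => q.1 != q.2.2), q.2.1 ≠ 0 := by
  intro q hq h0
  obtain ⟨h3, h4⟩ := List.mem_filter.1 hq
  have h5 : q.1 ≠ q.2.2 := by simpa using h4
  rcases List.mem_cons.1 h3 with h | h
  · subst h
    exact h2 h5 h0
  · exact h1 ⟨q, h, h5, h0⟩

private theorem main (n N : ℕ) : ∀ (l : List (ℤ × Bool)) (b : ℤ), l.length < N →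
    P n (nfv l * FreeGroup.of 0 ^ b) := by
  induction N with
  | zero =>
    intro l b h
    exact absurd h (Nat.not_lt_zero _)
  | succ N ih =>
    -- lists which begin with the sign `+`
    have S1 : ∀ (b : ℤ) (l : List (ℤ × Bool)), ((b, true) :: l).length < N + 1 →
        P n (nfv ((b, true) :: l)) := by
      intro b l hl
      rw [List.length_cons] at hl
      by_cases h1 : ∃ q ∈ trs true l, q.1 ≠ q.2.2 ∧ q.2.1 = 0
      · obtain ⟨l', b', h2, h3⟩ := bad l true b h1
        rw [nfv_cons, h3]
        exact ih l' b' (by omega)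
      · by_cases h2 : lst true ((b, true) :: l) = false ∧ b = 0
        · obtain ⟨h3, rfl⟩ := h2
          rcases List.eq_nil_or_concat l with rfl | ⟨l0, ⟨c, ε⟩, hl0⟩
          · exact absurd h3 (by decide)
          · rw [List.concat_eq_append] at hl0
            subst hl0
            have h4 : lst true ((0, true) :: (l0 ++ [(c, ε)])) = ε := lst_app _ _ _
            have h5 : ε = false := h4.symm.trans h3
            subst h5
            refine P_conj (FreeGroup.of 1)⁻¹ ?_
            have h6 : tau (-(4 * n : ℕ)) (FreeGroup.of 1)⁻¹ * nfv ((0, true) ::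
                (l0 ++ [(c, false)])) * (FreeGroup.of 1)⁻¹⁻¹ =
                FreeGroup.of 0 ^ ((4 * n : ℕ) : ℤ) * (nfv l0 * FreeGroup.of 0 ^ c) := by
              rw [map_inv, tau_y, nfv_cons, nfv_app, nfv_one, mul_inv_rev, ← zpow_neg, neg_neg,
                zpow_zero, one_mul, inv_inv]
              show _ * (FreeGroup.of 1 * (nfv l0 * (FreeGroup.of 0 ^ c * (FreeGroup.of 1)⁻¹))) *
                FreeGroup.of 1 = _
              simp only [mul_assoc, inv_mul_cancel_left, inv_mul_cancel, mul_one]
            rw [h6]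
            refine P_x l0 c _ (ih l0 _ ?_)
            rw [List.length_append] at hl
            simp only [List.length_cons, List.length_nil] at hl
            omega
        · refine P_nf ⟨by simp, ?_, ?_⟩
          · refine opp_ok h1 fun h3 h4 => h2 ⟨?_, h4⟩
            cases h5 : lst true ((b, true) :: l) with
            | true => exact absurd h5 h3
            | false => rfl
          · rintro ⟨-, h3⟩
            have h4 : true = false := h3 (b, true) rfl
            exact absurd h4 (by decide)
    intro l b hl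
    rcases l with _ | ⟨⟨b1, ε⟩, l⟩
    · refine ⟨1, Or.inl ⟨b, ?_⟩⟩
      rw [nfv_nil, map_one, one_mul, one_mul, inv_one, mul_one]
    · -- the exponent at the end
      have key : ∀ b1 : ℤ, P n (nfv ((b1, ε) :: l)) := by
        intro b1
        rw [List.length_cons] at hl
        cases ε with
        | true => exact S1 b1 l (by rw [List.length_cons]; omega)
        | false =>
          by_cases h1 : ∃ q ∈ trs false l, q.1 ≠ q.2.2 ∧ q.2.1 = 0
          · obtain ⟨l', b', h2, h3⟩ := bad l false b1 h1
            rw [nfv_cons, h3]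
            exact ih l' b' (by omega)
          · by_cases h2 : lst true ((b1, false) :: l) = false
            · refine P_nf ⟨by simp, ?_, ?_⟩
              · exact opp_ok h1 fun h3 _ => h3 h2
              · rintro ⟨h3, -⟩
                rw [h2] at h3
                exact absurd h3 (by decide)
            · have h3 : lst true ((b1, false) :: l) = true := by
                cases h5 : lst true ((b1, false) :: l) with
                | true => rfl
                | false => exact absurd h5 h2
              rcases List.eq_nil_or_concat l with rfl | ⟨l0, ⟨c, ε⟩, hl0⟩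
              · have h4 : false = true := h3
                exact absurd h4 (by decide)
              · rw [List.concat_eq_append] at hl0
                subst hl0
                have h4 : lst true ((b1, false) :: (l0 ++ [(c, ε)])) = ε := lst_app _ _ _
                have h5 : ε = true := h4.symm.trans h3
                subst h5
                refine P_conj (FreeGroup.of 0 ^ c * FreeGroup.of 1) ?_
                have h6 : tau (-(4 * n : ℕ)) (FreeGroup.of 0 ^ c * FreeGroup.of 1) *
                    nfv ((b1, false) :: (l0 ++ [(c, true)])) *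
                      (FreeGroup.of 0 ^ c * FreeGroup.of 1)⁻¹ =
                    nfv ((c, true) :: (-(4 * n : ℕ) + b1, false) :: l0) := by
                  rw [map_mul, tau_x, tau_y, nfv_cons, nfv_app, nfv_one, nfv_cons, nfv_cons,
                    mul_inv_rev, zpow_add]
                  show FreeGroup.of 0 ^ c * (FreeGroup.of 1 * _) * (_ * _ * (nfv l0 *
                    (FreeGroup.of 0 ^ c * FreeGroup.of 1))) * _ =
                      FreeGroup.of 0 ^ c * FreeGroup.of 1 * _
                  simp only [mul_assoc, mul_inv_cancel_left, mul_inv_cancel, mul_one]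
                rw [h6]
                refine S1 _ _ ?_
                rw [List.length_append] at hl
                simp only [List.length_cons, List.length_nil] at hl ⊢
                omega
      refine P_conj (FreeGroup.of 0 ^ b) ?_
      rw [tau_x]
      have h1 : FreeGroup.of (0 : Fin 2) ^ b * (nfv ((b1, ε) :: l) * FreeGroup.of 0 ^ b) *
          (FreeGroup.of 0 ^ b)⁻¹ = nfv ((b + b1, ε) :: l) := by
        rw [nfv_cons, nfv_cons, zpow_add]
        simp only [mul_assoc, mul_inv_cancel, mul_one]
      rw [h1]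
      exact key _

/-- every element is the value of a list times a power of `x` -/
private theorem exi (g : FreeGroup (Fin 2)) : ∃ (l : List (ℤ × Bool)) (b : ℤ),
    g = nfv l * FreeGroup.of 0 ^ b := by
  have key : ∀ w : List (Fin 2 × Bool), ∃ (l : List (ℤ × Bool)) (b : ℤ),
      FreeGroup.mk w = nfv l * FreeGroup.of 0 ^ b := by
    intro w
    induction w using List.reverseRecOn with
    | nil => exact ⟨[], 0, by rw [nfv_nil, zpow_zero, mul_one]; rfl⟩
    | append_singleton w a ih =>
      obtain ⟨l, b, h⟩ := ih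
      obtain ⟨i, e⟩ := a
      rw [← FreeGroup.mul_mk, h]
      by_cases hi : i = 0
      · subst hi
        refine ⟨l, b + (if e then 1 else -1), ?_⟩
        rw [mul_assoc, zpow_add]
        congr 2
        cases e with
        | true => exact (zpow_one (FreeGroup.of (0 : Fin 2))).symm
        | false => exact (zpow_neg_one (FreeGroup.of (0 : Fin 2))).symm
      · have h1 : i = 1 := by omega
        subst h1
        refine ⟨l ++ [(b, e)], 0, ?_⟩
        rw [nfv_app, nfv_one, zpow_zero, mul_one, mul_assoc]
        congr 2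
        cases e with
        | true => rfl
        | false => rfl
  obtain ⟨l, b, h⟩ := key g.toWord
  exact ⟨l, b, by rw [← h, FreeGroup.mk_toWord]⟩

end NFEx

set_option linter.unusedVariables false in
/-- the normal form in a twisted conjugacy class -/
theorem nf_exists (n : ℕ) (hn : 0 < n) (g : FreeGroup (Fin 2)) : ∃ h : FreeGroup (Fin 2),
    (∃ b : ℤ, tau (-(4 * n : ℕ)) h * g * h⁻¹ = FreeGroup.of 0 ^ b) ∨
    ∃ l : List (ℤ × Bool), NF l ∧ tau (-(4 * n : ℕ)) h * g * h⁻¹ = nfv l := by
  obtain ⟨l, b, rfl⟩ := NFEx.exi g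
  exact NFEx.main n (l.length + 1) l b (Nat.lt_succ_self _)

end Pool.Agent.AMH
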