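import Pool.Agent.AMH.DefsB

/-!
# AMH: the limit of the Gauss sums (PhLim)

helper65.
-/

open scoped BigOperators LaurentPolynomial Matrix Topology
open Polynomial Filter

namespace Pool.Agent.AMH

open Pool.Agent.AMG

private theorem ex_zpow (a : ℝ) (k : ℤ) : Complex.exp (a * Complex.I) ^ k =
    Complex.exp (((a * k : ℝ) : ℂ) * Complex.I) := by
  rw [← Complex.exp_int_mul]
  congr 1
  push_cast
  ring

private theorem ex_pow (a : ℝ) (k : ℕ) : Complex.exp (a * Complex.I) ^ k =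
    Complex.exp (((a * k : ℝ) : ℂ) * Complex.I) := by
  rw [← Complex.exp_nat_mul]
  congr 1
  push_cast
  ring

private theorem good_exp (C : ℕ) (a : ℝ) (ha : 0 ≤ a) (h : (C + 1) * a < Real.pi / 2) :
    Good C (Complex.exp (a * Complex.I)) := by
  refine ⟨Complex.exp_ne_zero _, fun n hn => ?_⟩
  have h1 : Complex.exp (a * Complex.I) ^ n + Complex.exp (a * Complex.I) ^ (-n) =
      ((2 * Real.cos (a * n) : ℝ) : ℂ) := by
    rw [ex_zpow, ex_zpow]
    push_cast
    rw [Complex.cos]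
    ring_nf
  rw [h1]
  have hn' : |(n : ℝ)| ≤ C + 1 := by
    have : ((|n| : ℤ) : ℝ) ≤ ((C + 1 : ℤ) : ℝ) := by exact_mod_cast hn
    simpa using this
  have h2 : |a * n| < Real.pi / 2 := by
    rw [abs_mul, abs_of_nonneg ha]
    refine lt_of_le_of_lt ?_ h
    rw [mul_comm]
    exact mul_le_mul_of_nonneg_right hn' ha
  have h3 : 0 < Real.cos (a * n) := Real.cos_pos_of_mem_Ioo ⟨(abs_lt.1 h2).1, (abs_lt.1 h2).2⟩
  exact_mod_cast (mul_pos two_pos h3).ne'

private theorem ex_lip (a b : ℝ) : ‖Complex.exp (a * Complex.I) - Complex.exp (b * Complex.I)‖ ≤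
    |a - b| := by
  have h1 : Complex.exp (a * Complex.I) - Complex.exp (b * Complex.I) =
      Complex.exp (b * Complex.I) * (Complex.exp (((a - b : ℝ) : ℂ) * Complex.I) - 1) := by
    rw [mul_sub, ← Complex.exp_add, mul_one]
    congr 2
    push_cast
    ring
  rw [h1, norm_mul, Complex.norm_exp_ofReal_mul_I, one_mul, mul_comm]
  exact Real.norm_exp_I_mul_ofReal_sub_one_le

/-- bounded Lipschitz functions -/
private theorem lip_mul {E F : ℝ → ℂ} {BE LE BF LF x y : ℝ} (h1 : ‖E x‖ ≤ BE) (h1' : ‖E y‖ ≤ BE)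
    (h2 : ‖F x‖ ≤ BF) (h3 : ‖E x - E y‖ ≤ LE * |x - y|) (h4 : ‖F x - F y‖ ≤ LF * |x - y|) :
    ‖E x * F x‖ ≤ BE * BF ∧ ‖E x * F x - E y * F y‖ ≤ (LE * BF + BE * LF) * |x - y| := by
  have hBE : 0 ≤ BE := (norm_nonneg _).trans h1
  have hBF : 0 ≤ BF := (norm_nonneg _).trans h2
  refine ⟨?_, ?_⟩
  · rw [norm_mul]
    exact mul_le_mul h1 h2 (norm_nonneg _) hBE
  · have h5 : E x * F x - E y * F y = (E x - E y) * F x + E y * (F x - F y) := by ring
    rw [h5]
    refine (norm_add_le _ _).trans ?_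
    rw [norm_mul, norm_mul, add_mul]
    refine add_le_add ?_ ?_
    · refine (mul_le_mul h3 h2 (norm_nonneg _) ((norm_nonneg _).trans h3)).trans (le_of_eq ?_)
      ring
    · refine (mul_le_mul h1' h4 (norm_nonneg _) hBE).trans (le_of_eq ?_)
      ring

theorem ph_lim
    (sum0 : ∀ {C n : ℕ} {v : List (Fin 2 × Bool)} (_ : FailW C n v) (m : ℕ) (A : ℂ)
      (_ : Good C A) (_ : Good C (A ^ 3)),
      ∑ j ∈ Finset.range (C + 1), A ^ (3 * (n * (4 * m) : ℕ) * (2 * (j : ℤ) - C) ^ 2) *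
        ∑ s : Fin 2, A ^ (6 * (n * (4 * m) : ℕ) * (2 * (j : ℤ) - C) * sg s) *
          (sym (vM n v (3 * (4 * m))) s s 0 (A ^ (2 * (j : ℤ) - C)) A (A ^ C) -
            sym (vM n v (4 * m)) s s 0 ((A ^ 3) ^ (2 * (j : ℤ) - C)) (A ^ 3) ((A ^ 3) ^ C)) = 0)
    (glim : ∀ (p : ℕ) (ρ : ℝ) (_ : 0 < ρ) (_ : ρ ≠ 1) (_ : ρ < 2) (C : ℕ → ℕ)
      (_ : ∀ j, C j % 2 = p % 2)
      (_ : Tendsto (fun j : ℕ => (C j : ℝ) / (2 * (2 * j + p))) atTop (𝓝 ρ))
      (g : ℕ → ℝ → ℂ) (g0 : ℝ → ℂ) (B Lip : ℝ)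
      (_ : ∀ᶠ j in atTop, ∀ x y : ℝ, |x| ≤ 2 → |y| ≤ 2 →
        ‖g j x‖ ≤ B ∧ ‖g j x - g j y‖ ≤ Lip * |x - y|)
      (_ : ∀ x : ℝ, x = 0 ∨ x = 1 ∨ x = -1 → Tendsto (fun j => g j x) atTop (𝓝 (g0 x)))
      (_ : ∀ᶠ j in atTop, ∑ i ∈ Finset.range (C j + 1),
        Complex.exp ((Real.pi * (i - (C j : ℝ) / 2) ^ 2 / (2 * j + p) : ℝ) * Complex.I) *
          g j ((i - (C j : ℝ) / 2) / (2 * j + p)) = 0),
      g0 0 + (if 1 < ρ then g0 1 + g0 (-1) else 0) = 0)
    (sym_reg : ∀ (u : List (Fin 2 × Bool)) (s s' : Fin 2) (j : ℤ) (ξ : ℝ) (_ : 0 ≤ ξ)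
      (_ : 2 * ξ < Real.pi / 2),
      ∃ α0 > 0, ∃ B Lip : ℝ, (∀ α β x y : ℝ, |α| ≤ α0 → |x| ≤ 2 → |y| ≤ 2 →
        ‖sym u s s' j (Complex.exp (ξ * x * Complex.I)) (Complex.exp (α * Complex.I))
          (Complex.exp (β * Complex.I))‖ ≤ B ∧
        ‖sym u s s' j (Complex.exp (ξ * x * Complex.I)) (Complex.exp (α * Complex.I))
            (Complex.exp (β * Complex.I)) -
          sym u s s' j (Complex.exp (ξ * y * Complex.I)) (Complex.exp (α * Complex.I))
            (Complex.exp (β * Complex.I))‖ ≤ Lip * |x - y|) ∧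
      ∀ x β : ℝ, |x| ≤ 2 → ContinuousAt (fun q : ℝ × ℝ =>
        sym u s s' j (Complex.exp (ξ * x * Complex.I)) (Complex.exp (q.1 * Complex.I))
          (Complex.exp (q.2 * Complex.I))) (0, β))
    {n : ℕ} (hn : 0 < n) {v : List (Fin 2 × Bool)} {p : ℕ}
    (h : ∀ C : ℕ, C % 2 = p % 2 → FailW C n v) (m : ℕ) (hm : 0 < m) (ρ : ℝ) (h0 : 0 < ρ)
    (h1 : ρ ≠ 1) (h2 : ρ < 2) :
    Ph n v (4 * m) 0 0 (Real.pi * ρ / (6 * (n * (4 * m)))) +
      (if 1 < ρ then Ph n v (4 * m) 1 0 (Real.pi * ρ / (6 * (n * (4 * m)))) +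
        Ph n v (4 * m) (-1) 0 (Real.pi * ρ / (6 * (n * (4 * m)))) else 0) = 0 := by
  have hn1 : (1 : ℝ) ≤ n := by exact_mod_cast hn
  have hm1 : (1 : ℝ) ≤ m := by exact_mod_cast hm
  have hnm : (1 : ℝ) ≤ n * m := one_le_mul_of_one_le_of_one_le hn1 hm1
  obtain ⟨N, hN⟩ : ∃ N : ℝ, N = n * (4 * m) := ⟨_, rfl⟩
  have hN4 : 4 ≤ N := by
    rw [hN]
    nlinarith
  have hN0 : 0 < N := by linarith
  have hpi := Real.pi_pos
  -- the sequence of windows
  obtain ⟨C, hC⟩ : ∃ C : ℕ → ℕ, ∀ j, C j = 2 * ⌊ρ * (2 * j + p)⌋₊ + p % 2 :=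
    ⟨fun j => 2 * ⌊ρ * (2 * j + p)⌋₊ + p % 2, fun _ => rfl⟩
  have hCp : ∀ j, C j % 2 = p % 2 := by
    intro j
    rw [hC]
    omega
  have hL : Tendsto (fun j : ℕ => (2 * j + p : ℝ)) atTop atTop :=
    tendsto_atTop_add_const_right _ _
      (tendsto_natCast_atTop_atTop.const_mul_atTop two_pos)
  have hCl : Tendsto (fun j : ℕ => (C j : ℝ) / (2 * (2 * j + p))) atTop (𝓝 ρ) := by
    have e1 := (tendsto_nat_floor_mul_div_atTop h0.le).comp hL
    have e2 : Tendsto (fun j : ℕ => ((p % 2 : ℕ) : ℝ) / (2 * (2 * j + p))) atTop (𝓝 0) :=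
      tendsto_const_nhds.div_atTop (hL.const_mul_atTop two_pos)
    have e3 := e1.add e2
    rw [add_zero] at e3
    refine e3.congr' ?_
    filter_upwards [eventually_gt_atTop 0] with j hj
    have hj' : (0 : ℝ) < 2 * j + p := by positivity
    rw [hC]
    simp only [Function.comp_apply]
    push_cast
    field_simp
  -- the bounds for the windows
  have hCb : ∀ j : ℕ, 0 < j → (C j + 1 : ℝ) < 2 * N * (2 * j + p) := by
    intro j hj
    have hj1 : (1 : ℝ) ≤ j := by exact_mod_cast hj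
    have hp0 : (0 : ℝ) ≤ p := Nat.cast_nonneg p
    have e1 : (⌊ρ * (2 * j + p)⌋₊ : ℝ) ≤ ρ * (2 * j + p) := Nat.floor_le (by positivity)
    have e2 : ((p % 2 : ℕ) : ℝ) ≤ 1 := by
      have : p % 2 ≤ 1 := by omega
      exact_mod_cast this
    have e3 : (C j : ℝ) = 2 * (⌊ρ * (2 * j + p)⌋₊ : ℝ) + ((p % 2 : ℕ) : ℝ) := by
      rw [hC]
      push_cast
      ring
    have e4 : ρ * (2 * j + p) < 2 * (2 * j + p) := by
      apply mul_lt_mul_of_pos_right h2
      linarith
    have e5 : 4 * (2 * j + p) ≤ N * (2 * j + p) := mul_le_mul_of_nonneg_right hN4 (by linarith)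
    rw [e3]
    nlinarith
  -- the functions
  obtain ⟨al, hal⟩ : ∃ al : ℕ → ℝ, ∀ j, al j = Real.pi / (12 * (N * (2 * j + p))) :=
    ⟨_, fun _ => rfl⟩
  obtain ⟨bl, hbl⟩ : ∃ bl : ℕ → ℝ, ∀ j, bl j = al j * C j := ⟨_, fun _ => rfl⟩
  have hal0 : Tendsto al atTop (𝓝 0) := by
    have e1 : al = fun j : ℕ => Real.pi / (12 * (N * (2 * j + p))) := funext hal
    rw [e1]
    exact tendsto_const_nhds.div_atTop
      ((hL.const_mul_atTop hN0).const_mul_atTop (by norm_num))
  have hbl0 : Tendsto bl atTop (𝓝 (Real.pi * ρ / (6 * N))) := by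
    have e1 := hCl.const_mul (Real.pi / (6 * N))
    have e2 : Real.pi / (6 * N) * ρ = Real.pi * ρ / (6 * N) := by ring
    rw [e2] at e1
    refine e1.congr fun j => ?_
    rw [hbl, hal]
    rcases eq_or_ne (2 * j + p : ℝ) 0 with e | e
    · rw [e]
      simp
    · field_simp
      ring
  obtain ⟨g, hg⟩ : ∃ g : ℕ → ℝ → ℂ, ∀ j x, g j x = Ph n v (4 * m) x (al j) (bl j) :=
    ⟨_, fun _ _ => rfl⟩
  obtain ⟨g0, hg0⟩ : ∃ g0 : ℝ → ℂ, ∀ x, g0 x = Ph n v (4 * m) x 0 (Real.pi * ρ / (6 * N)) :=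
    ⟨_, fun _ => rfl⟩
  -- the regularity of the symbols
  obtain ⟨x1, hx1⟩ : ∃ ξ : ℝ, ξ = Real.pi / (6 * N) := ⟨_, rfl⟩
  obtain ⟨x2, hx2⟩ : ∃ ξ : ℝ, ξ = Real.pi / (2 * N) := ⟨_, rfl⟩
  have hx10 : 0 ≤ x1 := by
    rw [hx1]
    positivity
  have hx20 : 0 ≤ x2 := by
    rw [hx2]
    positivity
  have hx22 : 2 * x2 < Real.pi / 2 := by
    rw [hx2]
    have e1 : 2 * (Real.pi / (2 * N)) = Real.pi / N := by
      field_simp
    rw [e1, div_lt_div_iff_of_pos_left hpi hN0 two_pos]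
    linarith
  have hx12 : 2 * x1 < Real.pi / 2 := by
    refine lt_of_le_of_lt ?_ hx22
    rw [hx1, hx2]
    have e1 : Real.pi / (6 * N) ≤ Real.pi / (2 * N) :=
      div_le_div_of_nonneg_left hpi.le (by linarith) (by linarith)
    linarith
  choose a1 ha1 B1 L1 hR1 hc1 using fun s : Fin 2 =>
    sym_reg (vM n v (3 * (4 * m))) s s 0 x1 hx10 hx12
  choose a2 ha2 B2 L2 hR2 hc2 using fun s : Fin 2 =>
    sym_reg (vM n v (4 * m)) s s 0 x2 hx20 hx22
  have hPh : ∀ x α β : ℝ, Ph n v (4 * m) x α β = ∑ s : Fin 2,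
      Complex.exp (((Real.pi * x * sg s : ℝ) : ℂ) * Complex.I) *
      (sym (vM n v (3 * (4 * m))) s s 0 (Complex.exp (x1 * x * Complex.I))
        (Complex.exp (α * Complex.I)) (Complex.exp (β * Complex.I)) -
      sym (vM n v (4 * m)) s s 0 (Complex.exp (x2 * x * Complex.I))
        (Complex.exp (((3 * α : ℝ) : ℂ) * Complex.I))
        (Complex.exp (((3 * β : ℝ) : ℂ) * Complex.I))) := by
    intro x α β
    unfold Ph
    refine Finset.sum_congr rfl fun s _ => ?_
    have e1 : ((Real.pi * x * sg s * Complex.I : ℂ)) =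
        ((Real.pi * x * sg s : ℝ) : ℂ) * Complex.I := by
      push_cast
      ring
    have e2 : (Real.pi * x / (6 * (n * (4 * m : ℕ))) * Complex.I : ℂ) = x1 * x * Complex.I := by
      rw [hx1, hN]
      push_cast
      ring
    have e3 : (Real.pi * x / (2 * (n * (4 * m : ℕ))) * Complex.I : ℂ) = x2 * x * Complex.I := by
      rw [hx2, hN]
      push_cast
      ring
    have e4 : (3 * α * Complex.I : ℂ) = ((3 * α : ℝ) : ℂ) * Complex.I := by
      push_cast
      ring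
    have e5 : (3 * β * Complex.I : ℂ) = ((3 * β : ℝ) : ℂ) * Complex.I := by
      push_cast
      ring
    rw [e1, e2, e3, e4, e5]
  have hfin := glim p ρ h0 h1 h2 C hCp hCl g g0 (∑ s : Fin 2, 1 * (B1 s + B2 s))
    (∑ s : Fin 2, (Real.pi * (B1 s + B2 s) + 1 * (L1 s + L2 s))) ?_ ?_ ?_
  · have e1 : ∀ x : ℝ, Ph n v (4 * m) x 0 (Real.pi * ρ / (6 * (n * (4 * m)))) = g0 x := by
      intro x
      rw [hg0, hN]
    rw [e1, e1, e1]
    exact hfin
  · -- the bounds
    have e1 : ∀ᶠ j in atTop, ∀ s : Fin 2, |al j| ≤ a1 s ∧ |3 * al j| ≤ a2 s := by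
      rw [eventually_all]
      intro s
      have e2 : Tendsto (fun j => |al j|) atTop (𝓝 0) := by
        have := hal0.abs
        rwa [abs_zero] at this
      have e3 : Tendsto (fun j => |3 * al j|) atTop (𝓝 0) := by
        have := (hal0.const_mul 3).abs
        rwa [mul_zero, abs_zero] at this
      exact (e2.eventually_le_const (ha1 s)).and (e3.eventually_le_const (ha2 s))
    filter_upwards [e1] with j hj x y hx hy
    have key : ∀ s : Fin 2,
        ‖Complex.exp (((Real.pi * x * sg s : ℝ) : ℂ) * Complex.I) *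
      (sym (vM n v (3 * (4 * m))) s s 0 (Complex.exp (x1 * x * Complex.I))
        (Complex.exp (al j * Complex.I)) (Complex.exp (bl j * Complex.I)) -
      sym (vM n v (4 * m)) s s 0 (Complex.exp (x2 * x * Complex.I))
        (Complex.exp (((3 * al j : ℝ) : ℂ) * Complex.I))
        (Complex.exp (((3 * bl j : ℝ) : ℂ) * Complex.I)))‖ ≤ 1 * (B1 s + B2 s) ∧
        ‖Complex.exp (((Real.pi * x * sg s : ℝ) : ℂ) * Complex.I) *
      (sym (vM n v (3 * (4 * m))) s s 0 (Complex.exp (x1 * x * Complex.I))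
        (Complex.exp (al j * Complex.I)) (Complex.exp (bl j * Complex.I)) -
      sym (vM n v (4 * m)) s s 0 (Complex.exp (x2 * x * Complex.I))
        (Complex.exp (((3 * al j : ℝ) : ℂ) * Complex.I))
        (Complex.exp (((3 * bl j : ℝ) : ℂ) * Complex.I))) -
        Complex.exp (((Real.pi * y * sg s : ℝ) : ℂ) * Complex.I) *
      (sym (vM n v (3 * (4 * m))) s s 0 (Complex.exp (x1 * y * Complex.I))
        (Complex.exp (al j * Complex.I)) (Complex.exp (bl j * Complex.I)) -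
      sym (vM n v (4 * m)) s s 0 (Complex.exp (x2 * y * Complex.I))
        (Complex.exp (((3 * al j : ℝ) : ℂ) * Complex.I))
        (Complex.exp (((3 * bl j : ℝ) : ℂ) * Complex.I)))‖ ≤
        (Real.pi * (B1 s + B2 s) + 1 * (L1 s + L2 s)) * |x - y| := by
      intro s
      obtain ⟨k1, k2⟩ := hR1 s (al j) (bl j) x y (hj s).1 hx hy
      obtain ⟨k3, k4⟩ := hR2 s (3 * al j) (3 * bl j) x y (hj s).2 hx hy
      refine lip_mul (E := fun x => Complex.exp (((Real.pi * x * sg s : ℝ) : ℂ) * Complex.I))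
        (F := fun x => sym (vM n v (3 * (4 * m))) s s 0 (Complex.exp (x1 * x * Complex.I))
        (Complex.exp (al j * Complex.I)) (Complex.exp (bl j * Complex.I)) -
      sym (vM n v (4 * m)) s s 0 (Complex.exp (x2 * x * Complex.I))
        (Complex.exp (((3 * al j : ℝ) : ℂ) * Complex.I))
        (Complex.exp (((3 * bl j : ℝ) : ℂ) * Complex.I))) (BE := 1) (LE := Real.pi)
        (BF := B1 s + B2 s) (LF := L1 s + L2 s) ?_ ?_ ?_ ?_ ?_
      · rw [Complex.norm_exp_ofReal_mul_I]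
      · rw [Complex.norm_exp_ofReal_mul_I]
      · exact (norm_sub_le _ _).trans (add_le_add k1 k3)
      · refine (ex_lip _ _).trans (le_of_eq ?_)
        have e3 : Real.pi * x * (sg s : ℝ) - Real.pi * y * (sg s : ℝ) =
            Real.pi * (x - y) * (sg s : ℝ) := by ring
        have e4 : |(sg s : ℝ)| = 1 := by
          unfold sg
          split_ifs <;> simp
        rw [e3, abs_mul, abs_mul, e4, abs_of_pos hpi, mul_one]
      · have e3 : ∀ a b c d : ℂ, a - b - (c - d) = (a - c) - (b - d) := fun a b c d => by ring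
        rw [e3, add_mul]
        exact (norm_sub_le _ _).trans (add_le_add k2 k4)
    rw [hg, hg, hPh, hPh]
    refine ⟨(norm_sum_le _ _).trans (Finset.sum_le_sum fun s _ => (key s).1), ?_⟩
    rw [← Finset.sum_sub_distrib, Finset.sum_mul]
    exact (norm_sum_le _ _).trans (Finset.sum_le_sum fun s _ => (key s).2)
  · -- the limits
    intro x hx
    have hx' : |x| ≤ 2 := by
      rcases hx with rfl | rfl | rfl <;> norm_num
    rw [hg0]
    simp only [hg, hPh]
    refine tendsto_finsetSum _ fun s _ => Tendsto.const_mul _ (Tendsto.sub ?_ ?_)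
    · have e1 : Tendsto (fun j => (al j, bl j)) atTop (𝓝 ((0 : ℝ), Real.pi * ρ / (6 * N))) :=
        hal0.prodMk_nhds hbl0
      have e2 := (hc1 s x (Real.pi * ρ / (6 * N)) hx').tendsto.comp e1
      exact e2
    · have e1 : Tendsto (fun j => (3 * al j, 3 * bl j)) atTop
          (𝓝 ((0 : ℝ), 3 * (Real.pi * ρ / (6 * N)))) := by
        have := (hal0.const_mul 3)
        rw [mul_zero] at this
        exact this.prodMk_nhds (hbl0.const_mul 3)
      have e2 := (hc2 s x (3 * (Real.pi * ρ / (6 * N))) hx').tendsto.comp e1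
      rw [mul_zero]
      exact e2
  · -- the sums vanish
    filter_upwards [eventually_gt_atTop 0] with j hj
    have hj1 : (1 : ℝ) ≤ j := by exact_mod_cast hj
    have hp0 : (0 : ℝ) ≤ p := Nat.cast_nonneg p
    have hL0 : (0 : ℝ) < 2 * j + p := by linarith
    have ha0 : 0 < al j := by
      rw [hal]
      positivity
    have hGG : (C j + 1) * (3 * al j) < Real.pi / 2 := by
      rw [hal]
      have e1 : (C j + 1) * (3 * (Real.pi / (12 * (N * (2 * j + p))))) =
          (Real.pi / 2) * ((C j + 1) / (2 * N * (2 * j + p))) := by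
        field_simp
        ring
      rw [e1]
      have e2 : (C j + 1 : ℝ) / (2 * N * (2 * j + p)) < 1 := by
        rw [div_lt_one (by positivity)]
        exact hCb j hj
      nlinarith
    have hG3 : Complex.exp (al j * Complex.I) ^ 3 =
        Complex.exp (((3 * al j : ℝ) : ℂ) * Complex.I) := by
      rw [ex_pow]
      congr 3
      push_cast
      ring
    have hGood1 : Good (C j) (Complex.exp (al j * Complex.I)) := by
      refine good_exp _ _ ha0.le (lt_of_le_of_lt ?_ hGG)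
      refine mul_le_mul_of_nonneg_left (by linarith) (by positivity)
    have hGood3 : Good (C j) (Complex.exp (al j * Complex.I) ^ 3) := by
      rw [hG3]
      exact good_exp _ _ (by linarith) hGG
    have hs := sum0 (h (C j) (hCp j)) m (Complex.exp (al j * Complex.I)) hGood1 hGood3
    refine Eq.trans (Finset.sum_congr rfl fun i _ => ?_) hs
    rw [hG3]
    have hk : Complex.exp ((Real.pi * (i - (C j : ℝ) / 2) ^ 2 / (2 * j + p) : ℝ) * Complex.I) =
        Complex.exp (al j * Complex.I) ^ (3 * (n * (4 * m) : ℕ) * (2 * (i : ℤ) - C j) ^ 2) := by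
      rw [ex_zpow, hal]
      congr 3
      push_cast
      rw [← hN]
      field_simp
      ring
    rw [hk, hg, hPh]
    congr 1
    refine Finset.sum_congr rfl fun s _ => ?_
    have hk1 : Complex.exp (((Real.pi * ((i - (C j : ℝ) / 2) / (2 * j + p)) * sg s : ℝ) : ℂ) *
        Complex.I) = Complex.exp (al j * Complex.I) ^
          (6 * (n * (4 * m) : ℕ) * (2 * (i : ℤ) - C j) * sg s) := by
      rw [ex_zpow, hal]
      congr 3
      push_cast
      rw [← hN]
      field_simp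
      ring
    have hk2 : Complex.exp (x1 * (((i - (C j : ℝ) / 2) / (2 * j + p) : ℝ) : ℂ) * Complex.I) =
        Complex.exp (al j * Complex.I) ^ (2 * (i : ℤ) - C j) := by
      rw [ex_zpow, hal, ← Complex.ofReal_mul, hx1]
      congr 3
      push_cast
      field_simp
      ring
    have hk3 : Complex.exp (x2 * (((i - (C j : ℝ) / 2) / (2 * j + p) : ℝ) : ℂ) * Complex.I) =
        Complex.exp (((3 * al j : ℝ) : ℂ) * Complex.I) ^ (2 * (i : ℤ) - C j) := by
      rw [ex_zpow, hal, ← Complex.ofReal_mul, hx2]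
      congr 3
      push_cast
      field_simp
      ring
    have hk4 : Complex.exp (bl j * Complex.I) = Complex.exp (al j * Complex.I) ^ C j := by
      rw [ex_pow, hbl]
    have hk5 : Complex.exp (((3 * bl j : ℝ) : ℂ) * Complex.I) =
        Complex.exp (((3 * al j : ℝ) : ℂ) * Complex.I) ^ C j := by
      rw [ex_pow, hbl]
      congr 3
      ring
    rw [hk1, hk2, hk3, hk4, hk5]

end Pool.Agent.AMH
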