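import Pool.Agent.AMH.DefsB
import Mathlib

/-!
# AMH, module PhiRigid: real analysis of the products of cosines
-/

open scoped BigOperators LaurentPolynomial Matrix Topology
open Polynomial Filter

set_option linter.unusedVariables false

namespace Pool.Agent.AMH

open Pool.Agent.AMG

private theorem PhiRigid_trs_length (e : Bool) (l : List (ℤ × Bool)) :
    (trs e l).length = l.length := by
  induction l generalizing e with
  | nil => rfl
  | cons q l ih => simp [trs, ih]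

private theorem PhiRigid_lower (L : List (Bool × ℤ × Bool)) : ∃ C : ℝ, 0 ≤ C ∧ ∀ θ : ℝ,
    1 - C * θ ^ 2 ≤ (L.map fun q => |Real.cos (q.2.1 * θ)|).prod ∧
      (L.map fun q => |Real.cos (q.2.1 * θ)|).prod ≤ 1 := by
  induction L with
  | nil => exact ⟨0, le_refl _, fun θ => by simp⟩
  | cons q L ih =>
    obtain ⟨C, hC, h⟩ := ih
    refine ⟨C + (q.2.1 : ℝ) ^ 2 / 2, by positivity, fun θ => ?_⟩
    obtain ⟨h1, h2⟩ := h θ
    have h3 : 1 - ((q.2.1 : ℝ) * θ) ^ 2 / 2 ≤ |Real.cos (q.2.1 * θ)| :=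
      le_trans (Real.one_sub_sq_div_two_le_cos) (le_abs_self _)
    have h4 : |Real.cos (q.2.1 * θ)| ≤ 1 := Real.abs_cos_le_one _
    have h5 : 0 ≤ |Real.cos (q.2.1 * θ)| := abs_nonneg _
    rw [List.map_cons, List.prod_cons]
    constructor
    · nlinarith [mul_nonneg (sub_nonneg.2 h2) (sub_nonneg.2 h4)]
    · nlinarith [mul_nonneg h5 (sub_nonneg.2 h2)]

private theorem PhiRigid_upper (L : List (Bool × ℤ × Bool)) (hL : ∀ q ∈ L, q.2.1 ≠ 0) :
    ∃ T : ℝ, 0 < T ∧ ∀ θ : ℝ, 0 < θ → θ < T →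
      0 < (L.map fun q => |Real.cos (q.2.1 * θ)|).prod ∧
      (L.map fun q => |Real.cos (q.2.1 * θ)|).prod ≤ Real.cos θ ^ L.length ∧
      ((∃ q ∈ L, |q.2.1| ≠ 1) →
        (L.map fun q => |Real.cos (q.2.1 * θ)|).prod < Real.cos θ ^ L.length) := by
  induction L with
  | nil => exact ⟨1, one_pos, fun θ _ _ => by simp⟩
  | cons q L ih =>
    obtain ⟨T, hT, h⟩ := ih (fun q hq => hL q (List.mem_cons_of_mem _ hq))
    have hq : q.2.1 ≠ 0 := hL q List.mem_cons_self
    have hb1 : (1 : ℤ) ≤ |q.2.1| := Int.one_le_abs hq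
    have hb : (1 : ℝ) ≤ |(q.2.1 : ℝ)| := by
      have : ((1 : ℤ) : ℝ) ≤ ((|q.2.1| : ℤ) : ℝ) := by exact_mod_cast hb1
      simpa using this
    have hb0 : 0 < |(q.2.1 : ℝ)| := lt_of_lt_of_le one_pos hb
    refine ⟨min T (Real.pi / 2 / |(q.2.1 : ℝ)|), lt_min hT (by positivity), fun θ h0 h1 => ?_⟩
    obtain ⟨h2, h3, h4⟩ := h θ h0 (lt_of_lt_of_le h1 (min_le_left _ _))
    have h5 : |(q.2.1 : ℝ)| * θ < Real.pi / 2 := by
      have := lt_of_lt_of_le h1 (min_le_right _ _)
      rw [lt_div_iff₀ hb0] at this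
      linarith
    have e1 : Real.cos (q.2.1 * θ) = Real.cos (|(q.2.1 : ℝ)| * θ) := by
      rcases abs_cases (q.2.1 : ℝ) with ⟨h6, -⟩ | ⟨h6, -⟩
      · rw [h6]
      · rw [h6, neg_mul, Real.cos_neg]
    have h6 : 0 < |(q.2.1 : ℝ)| * θ := by positivity
    have h7 : θ ≤ |(q.2.1 : ℝ)| * θ := by nlinarith
    have hc : 0 < Real.cos (|(q.2.1 : ℝ)| * θ) :=
      Real.cos_pos_of_mem_Ioo ⟨by linarith [Real.pi_pos], h5⟩
    have hθ : 0 < Real.cos θ := Real.cos_pos_of_mem_Ioo ⟨by linarith [Real.pi_pos], by linarith⟩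
    have hle : Real.cos (|(q.2.1 : ℝ)| * θ) ≤ Real.cos θ :=
      Real.cos_le_cos_of_nonneg_of_le_pi h0.le (by linarith [Real.pi_pos]) h7
    have hlt : |q.2.1| ≠ 1 → Real.cos (|(q.2.1 : ℝ)| * θ) < Real.cos θ := by
      intro hne
      have h8 : (1 : ℤ) < |q.2.1| := lt_of_le_of_ne hb1 (Ne.symm hne)
      have h9 : (1 : ℝ) < |(q.2.1 : ℝ)| := by
        have : ((1 : ℤ) : ℝ) < ((|q.2.1| : ℤ) : ℝ) := by exact_mod_cast h8
        simpa using this
      refine Real.cos_lt_cos_of_nonneg_of_le_pi h0.le (by linarith [Real.pi_pos]) ?_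
      nlinarith
    rw [List.map_cons, List.prod_cons, List.length_cons, pow_succ, e1, abs_of_pos hc]
    have hpow : 0 < Real.cos θ ^ L.length := pow_pos hθ _
    refine ⟨mul_pos hc h2, ?_, ?_⟩
    · rw [mul_comm (Real.cos θ ^ L.length)]
      exact mul_le_mul hle h3 h2.le hθ.le
    · rintro ⟨q', hq', hne⟩
      rw [mul_comm (Real.cos θ ^ L.length)]
      rcases List.mem_cons.1 hq' with rfl | hq'
      · exact mul_lt_mul (hlt hne) h3 h2 hθ.le
      · exact mul_lt_mul' hle (h4 ⟨q', hq', hne⟩) h2.le hθ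

private theorem PhiRigid_pos (L : List (Bool × ℤ × Bool)) (hL : ∀ q ∈ L, q.2.1 ≠ 0) :
    ∃ T : ℝ, 0 < T ∧ ∀ θ : ℝ, 0 < θ → θ < T →
      0 < (L.map fun q => if Even q.2.1 then |2 * Real.sin (q.2.1 * θ)|
        else |2 * Real.cos (q.2.1 * θ)|).prod := by
  induction L with
  | nil => exact ⟨1, one_pos, fun θ _ _ => by simp⟩
  | cons q L ih =>
    obtain ⟨T, hT, h⟩ := ih (fun q hq => hL q (List.mem_cons_of_mem _ hq))
    have hq : q.2.1 ≠ 0 := hL q List.mem_cons_self
    have hb1 : (1 : ℤ) ≤ |q.2.1| := Int.one_le_abs hq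
    have hb : (1 : ℝ) ≤ |(q.2.1 : ℝ)| := by
      have : ((1 : ℤ) : ℝ) ≤ ((|q.2.1| : ℤ) : ℝ) := by exact_mod_cast hb1
      simpa using this
    have hb0 : 0 < |(q.2.1 : ℝ)| := lt_of_lt_of_le one_pos hb
    refine ⟨min T (Real.pi / 2 / |(q.2.1 : ℝ)|), lt_min hT (by positivity), fun θ h0 h1 => ?_⟩
    have h2 := h θ h0 (lt_of_lt_of_le h1 (min_le_left _ _))
    have h5 : |(q.2.1 : ℝ)| * θ < Real.pi / 2 := by
      have := lt_of_lt_of_le h1 (min_le_right _ _)
      rw [lt_div_iff₀ hb0] at this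
      linarith
    have h6 : 0 < |(q.2.1 : ℝ)| * θ := by positivity
    rw [List.map_cons, List.prod_cons]
    refine mul_pos ?_ h2
    split_ifs with hev
    · rw [abs_pos]
      refine mul_ne_zero two_ne_zero ?_
      have h7 : 0 < Real.sin (|(q.2.1 : ℝ)| * θ) :=
        Real.sin_pos_of_pos_of_lt_pi h6 (by linarith [Real.pi_pos])
      rcases abs_cases (q.2.1 : ℝ) with ⟨h8, -⟩ | ⟨h8, -⟩
      · rw [h8] at h7
        exact h7.ne'
      · rw [h8, neg_mul, Real.sin_neg] at h7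
        intro h9
        rw [h9] at h7
        simp at h7
    · rw [abs_pos]
      refine mul_ne_zero two_ne_zero ?_
      have h7 : 0 < Real.cos (|(q.2.1 : ℝ)| * θ) :=
        Real.cos_pos_of_mem_Ioo ⟨by linarith [Real.pi_pos], h5⟩
      rcases abs_cases (q.2.1 : ℝ) with ⟨h8, -⟩ | ⟨h8, -⟩
      · rw [h8] at h7
        exact h7.ne'
      · rw [h8, neg_mul, Real.cos_neg] at h7
        exact h7.ne'

private theorem PhiRigid_cont (l : List (ℤ × Bool)) : ContinuousAt (phi l) 0 := by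
  unfold phi
  refine ContinuousAt.div ?_ ?_ ?_
  · refine Continuous.continuousAt ?_
    refine continuous_list_prod (opp l) (f := fun q θ => if Even q.2.1 then
      |2 * Real.sin (q.2.1 * θ)| else |2 * Real.cos (q.2.1 * θ)|) (fun q _ => ?_)
    by_cases hev : Even q.2.1
    · simp only [if_pos hev]
      fun_prop
    · simp only [if_neg hev]
      fun_prop
  · fun_prop
  · simp

private theorem PhiRigid_zero (L : List (Bool × ℤ × Bool)) :
    (L.map fun q => if Even q.2.1 then |2 * Real.sin (q.2.1 * 0)|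
        else |2 * Real.cos (q.2.1 * 0)|).prod ≠ 0 →
    (∀ q ∈ L, ¬ Even q.2.1) ∧ (L.map fun q => if Even q.2.1 then |2 * Real.sin (q.2.1 * 0)|
        else |2 * Real.cos (q.2.1 * 0)|).prod = 2 ^ L.length := by
  induction L with
  | nil => intro _; simp
  | cons q L ih =>
    intro h
    rw [List.map_cons, List.prod_cons] at h
    obtain ⟨h1, h2⟩ := mul_ne_zero_iff.1 h
    obtain ⟨h3, h4⟩ := ih h2
    have h5 : ¬ Even q.2.1 := by
      intro hev
      rw [if_pos hev] at h1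
      simp at h1
    refine ⟨?_, ?_⟩
    · intro q' hq'
      rcases List.mem_cons.1 hq' with rfl | hq'
      · exact h5
      · exact h3 q' hq'
    · rw [List.map_cons, List.prod_cons, h4, if_neg h5, List.length_cons, pow_succ]
      simp [mul_comm]

private theorem PhiRigid_odd (L : List (Bool × ℤ × Bool)) (hL : ∀ q ∈ L, ¬ Even q.2.1) (θ : ℝ) :
    (L.map fun q => if Even q.2.1 then |2 * Real.sin (q.2.1 * θ)|
        else |2 * Real.cos (q.2.1 * θ)|).prod =
      2 ^ L.length * (L.map fun q => |Real.cos (q.2.1 * θ)|).prod := by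
  induction L with
  | nil => simp
  | cons q L ih =>
    rw [List.map_cons, List.prod_cons, ih (fun q hq => hL q (List.mem_cons_of_mem _ hq)),
      if_neg (hL q List.mem_cons_self), List.map_cons, List.prod_cons, List.length_cons, pow_succ,
      abs_mul, abs_of_pos (by norm_num : (0 : ℝ) < 2)]
    ring

theorem phi_rigid (n : ℕ) (hn : 0 < n) (l : List (ℤ × Bool)) (hl : l ≠ [])
    (hb : ∀ q ∈ opp l, q.2.1 ≠ 0) (c : ℝ)
    (h : ∀ i : ℕ, phi l (Real.pi / (2 * (n * (4 * 3 ^ i : ℕ)))) ^ (4 * 3 ^ i) = c) :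
    ∀ q ∈ cyc l, q.1 ≠ q.2.2 ∧ |q.2.1| = 1 := by
  have hn' : (0 : ℝ) < n := by exact_mod_cast hn
  set M : ℕ → ℕ := fun i => 4 * 3 ^ i with hM
  set θ : ℕ → ℝ := fun i => Real.pi / (2 * (n * (4 * 3 ^ i : ℕ))) with hθ
  have hM0 : ∀ i, 0 < M i := fun i => by positivity
  have hMt : Tendsto (fun i => ((M i : ℕ) : ℝ)) atTop atTop := by
    refine tendsto_natCast_atTop_atTop.comp ?_
    refine tendsto_atTop_mono (fun i => ?_) tendsto_id
    have h1 : i < 3 ^ i := Nat.lt_pow_self (by norm_num)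
    simp only [hM, id]
    omega
  have hMi : Tendsto (fun i => ((M i : ℕ) : ℝ)⁻¹) atTop (𝓝 0) := tendsto_inv_atTop_zero.comp hMt
  have hθM : ∀ i, θ i = Real.pi / (2 * n) * ((M i : ℕ) : ℝ)⁻¹ := by
    intro i
    have h1 : ((M i : ℕ) : ℝ) ≠ 0 := by exact_mod_cast (hM0 i).ne'
    have h2 : θ i = Real.pi / (2 * (n * ((M i : ℕ) : ℝ))) := rfl
    rw [h2]
    field_simp
  have hθ0 : ∀ i, 0 < θ i := by
    intro i
    rw [hθM]
    have h1 : (0 : ℝ) < ((M i : ℕ) : ℝ) := by exact_mod_cast hM0 i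
    have := Real.pi_pos
    positivity
  have hθt : Tendsto θ atTop (𝓝 0) := by
    have h1 : θ = fun i => Real.pi / (2 * n) * ((M i : ℕ) : ℝ)⁻¹ := funext hθM
    rw [h1]
    simpa using hMi.const_mul (Real.pi / (2 * n))
  have hh : ∀ i, phi l (θ i) ^ M i = c := h
  have small : ∀ T : ℝ, 0 < T → ∀ᶠ i in atTop, θ i < T := fun T hT =>
    hθt.eventually (gt_mem_nhds hT)
  -- positivity
  have hcos : ∀ᶠ i in atTop, 0 < Real.cos (θ i) := by
    filter_upwards [small (Real.pi / 2) (by positivity)] with i hi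
    exact Real.cos_pos_of_mem_Ioo ⟨by linarith [Real.pi_pos, hθ0 i], hi⟩
  have hpos : ∀ᶠ i in atTop, 0 < phi l (θ i) := by
    obtain ⟨T, hT, h1⟩ := PhiRigid_pos (opp l) hb
    filter_upwards [small T hT, hcos] with i hi hi'
    unfold phi
    exact div_pos (h1 (θ i) (hθ0 i) hi) (by positivity)
  have hc : 0 < c := by
    obtain ⟨i, hi⟩ := hpos.exists
    rw [← hh i]
    exact pow_pos hi _
  -- the limit
  have hlim1 : Tendsto (fun i => phi l (θ i)) atTop (𝓝 (phi l 0)) :=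
    (PhiRigid_cont l).tendsto.comp hθt
  have hlim2 : Tendsto (fun i => phi l (θ i)) atTop (𝓝 1) := by
    have h1 : Tendsto (fun i => c ^ (((M i : ℕ) : ℝ)⁻¹)) atTop (𝓝 (c ^ (0 : ℝ))) :=
      ((Real.continuousAt_const_rpow hc.ne').tendsto).comp hMi
    rw [Real.rpow_zero] at h1
    refine h1.congr' ?_
    filter_upwards [hpos] with i hi
    rw [← hh i, Real.pow_rpow_inv_natCast hi.le (hM0 i).ne']
  have hphi0 : phi l 0 = 1 := tendsto_nhds_unique hlim1 hlim2
  have hprod : ((opp l).map fun q => if Even q.2.1 then |2 * Real.sin (q.2.1 * 0)|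
      else |2 * Real.cos (q.2.1 * 0)|).prod = 2 ^ l.length := by
    unfold phi at hphi0
    rw [Real.cos_zero, mul_one, div_eq_one_iff_eq (by positivity)] at hphi0
    exact hphi0
  obtain ⟨hodd, hprod2⟩ := PhiRigid_zero (opp l) (by rw [hprod]; positivity)
  have hlen : (opp l).length = l.length := by
    rw [hprod2] at hprod
    exact Nat.pow_right_injective (le_refl 2) (by exact_mod_cast hprod)
  have hcyc : ∀ q ∈ cyc l, (q.1 != q.2.2) = true := by
    have h1 : (cyc l).length = l.length := PhiRigid_trs_length _ _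
    have h2 : ((cyc l).filter fun q => q.1 != q.2.2).length = (cyc l).length := by
      rw [h1]
      exact hlen
    exact List.length_filter_eq_length_iff.1 h2
  have hne : ∀ q ∈ cyc l, q.1 ≠ q.2.2 := by
    intro q hq
    simpa using hcyc q hq
  have hmem : ∀ q ∈ cyc l, q ∈ opp l := by
    intro q hq
    exact List.mem_filter.2 ⟨hq, hcyc q hq⟩
  -- the values
  have hval : ∀ t : ℝ, 0 < Real.cos t → phi l t =
      ((opp l).map fun q => |Real.cos (q.2.1 * t)|).prod / Real.cos t ^ l.length := by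
    intro t ht
    unfold phi
    rw [PhiRigid_odd (opp l) hodd t, hlen, mul_pow]
    rw [mul_div_mul_left _ _ (by positivity)]
  -- `c ≥ 1`
  have hc1 : 1 ≤ c := by
    obtain ⟨C, hC, h1⟩ := PhiRigid_lower (opp l)
    have h2 : ∀ᶠ i in atTop, 1 - C * (Real.pi / (2 * n)) * θ i ≤ c := by
      filter_upwards [hcos, small 1 one_pos, hpos] with i hi h1i hpi
      have h3 : 1 - C * θ i ^ 2 ≤ phi l (θ i) := by
        rw [hval _ hi]
        refine le_trans (h1 (θ i)).1 ?_
        have h4 : 0 ≤ ((opp l).map fun q => |Real.cos (q.2.1 * θ i)|).prod := by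
          refine List.prod_nonneg ?_
          intro a ha
          obtain ⟨q, -, rfl⟩ := List.mem_map.1 ha
          exact abs_nonneg _
        rw [le_div_iff₀ (pow_pos hi _)]
        exact mul_le_of_le_one_right h4 (pow_le_one₀ hi.le (Real.cos_le_one _))
      have h4 : (1 : ℝ) + (M i : ℕ) * (phi l (θ i) - 1) ≤ (1 + (phi l (θ i) - 1)) ^ (M i) :=
        one_add_mul_le_pow (by linarith) _
      rw [add_sub_cancel, hh i] at h4
      have h5 : ((M i : ℕ) : ℝ) * θ i = Real.pi / (2 * n) := by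
        rw [hθM i]
        have : ((M i : ℕ) : ℝ) ≠ 0 := by exact_mod_cast (hM0 i).ne'
        field_simp
      have h6 : (0 : ℝ) ≤ (M i : ℕ) := by positivity
      have h7 : ((M i : ℕ) : ℝ) * (-(C * θ i ^ 2)) ≤ ((M i : ℕ) : ℝ) * (phi l (θ i) - 1) :=
        mul_le_mul_of_nonneg_left (by linarith) h6
      have h8 : ((M i : ℕ) : ℝ) * (-(C * θ i ^ 2)) = - (C * (Real.pi / (2 * n)) * θ i) := by
        rw [← h5]
        ring
      linarith
    have h3 : Tendsto (fun i => 1 - C * (Real.pi / (2 * n)) * θ i) atTop (𝓝 1) := by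
      have h4 := (hθt.const_mul (C * (Real.pi / (2 * n)))).const_sub 1
      simpa using h4
    exact le_of_tendsto h3 h2
  intro q hq
  refine ⟨hne q hq, ?_⟩
  by_contra hb1
  obtain ⟨T, hT, h1⟩ := PhiRigid_upper (opp l) hb
  obtain ⟨i, hi, hi1, hi2⟩ := ((small T hT).and (hcos.and hpos)).exists
  have h2 := (h1 (θ i) (hθ0 i) hi).2.2 ⟨q, hmem q hq, hb1⟩
  have h3 : phi l (θ i) < 1 := by
    rw [hval _ hi1, div_lt_one (pow_pos hi1 _), ← hlen]
    exact h2
  have h4 : c < 1 := by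
    rw [← hh i]
    exact pow_lt_one₀ hi2.le h3 (hM0 i).ne'
  linarith

end Pool.Agent.AMH
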