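import Pool.Agent.AMH.DefsB
import Pool.Agent.AMG.T2g
import Pool.Agent.AMG.PolyW
import Pool.Agent.AMG.Inv
import Pool.Agent.AMG.Cmp

/-!
# AMH, module StarC: the relation between the traces
-/

open scoped BigOperators LaurentPolynomial Matrix Topology
open Polynomial Filter

set_option linter.unusedVariables false

namespace Pool.Agent.AMH

open Pool.Agent.AMG

/-- [StarC] -/
theorem starC
    (dpow : ∀ (C n : ℕ) {A : ℂ} (_ : A ≠ 0) (v : List (Fin 2 × Bool)) (M : ℕ),
      (DW C A ^ n * wordW C A v) ^ M = DW C A ^ (n * M) * wordW C A (vM n v M))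
    {C n : ℕ} {v : List (Fin 2 × Bool)} (h : FailW C n v) (m : ℕ) (A : ℂ)
    (h1 : Good C A) (h3 : Good C (A ^ 3)) :
    ((DW C A ^ n * wordW C A v) ^ (4 * (3 * m))).trace =
      ((DW C (A ^ 3) ^ n * wordW C (A ^ 3) v) ^ (4 * m)).trace := by
  classical
  obtain ⟨δ, k0, P, hδ, hP⟩ := polyW C (vM n v 4)
  -- the exponents of the twist
  set E : Win C → ℕ := fun p => ((2 * (p.1 : ℤ) - C + sg p.2) ^ 2).toNat with hE
  have hE' : ∀ (A : ℂ) (k : ℕ), DW C A ^ k = Matrix.diagonal fun p => A ^ (E p * k) := by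
    intro A k
    rw [DW, Matrix.diagonal_pow]
    congr 1
    funext p
    rw [Pi.pow_apply, pow_mul]
    congr 1
    have h5 : ((E p : ℕ) : ℤ) = (2 * (p.1 : ℤ) - C + sg p.2) ^ 2 := Int.toNat_of_nonneg (sq_nonneg _)
    rw [← h5, zpow_natCast]
  set U : ℂ → Matrix (Win C) (Win C) ℂ := fun A => DW C A ^ (n * 4) * wordW C A (vM n v 4) with hU
  have hgood0 : ∀ A : ℂ, Good C A → A ≠ 0 := fun A hA => hA.1
  have hU4 : ∀ A : ℂ, A ≠ 0 → U A = (DW C A ^ n * wordW C A v) ^ 4 := fun A hA =>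
    (dpow C n hA v 4).symm
  have hone : Good C (1 : ℂ) := ⟨one_ne_zero, fun k _ => by norm_num⟩
  obtain ⟨F, hF, K, c, hT⟩ := T2g U δ k0
    (Matrix.of fun q p => (X : ℤ[X]) ^ (E q * (n * 4)) * P q p)
    (fun A hA => by
      have h5 := hP A ((hδ A).1 hA)
      ext q p
      have h6 := congrFun (congrFun h5 q) p
      rw [Matrix.smul_apply, Matrix.map_apply, smul_eq_mul] at h6
      rw [Matrix.smul_apply, Matrix.map_apply, Matrix.of_apply, hU]
      simp only
      rw [hE', Matrix.diagonal_mul, map_mul, map_pow, aeval_X, ← h6, smul_eq_mul]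
      ring)
    ((hδ 1).2 hone)
    (by
      rw [hU4 1 one_ne_zero]
      have h5 : DW C (1 : ℂ) = 1 := by
        rw [DW, ← Matrix.diagonal_one]
        congr 1
        funext p
        rw [one_zpow]
      rw [h5, one_pow, one_mul, ← wordW_pw, wordW_one])
    (fun A hA hk => by
      obtain ⟨k, hk, hAk⟩ := hk
      have hg := (hδ A).1 hA
      refine ⟨k * 2, by positivity, ?_⟩
      rw [hU]
      simp only
      rw [Matrix.det_mul, hE', Matrix.det_diagonal, mul_pow]
      have e1 : (∏ p : Win C, A ^ (E p * (n * 4))) ^ (k * 2) = 1 := by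
        rw [pow_mul, ← Finset.prod_pow]
        have : ∀ p : Win C, (A ^ (E p * (n * 4))) ^ k = 1 := by
          intro p
          rw [← pow_mul, mul_comm, pow_mul, hAk, one_pow]
        rw [Finset.prod_congr rfl fun p _ => this p, Finset.prod_const_one, one_pow]
      have e2 : (wordW C A (vM n v 4)).det ^ (k * 2) = 1 := by
        rw [mul_comm, pow_mul, det_wordW hg, one_pow]
      rw [e1, e2, one_mul])
    (by
      intro N0
      obtain ⟨r, hr, A, hA, k, hk, z, hz⟩ := h (max N0 (C + 2))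
      have h5 : N0 ≤ r := le_trans (le_max_left _ _) hr
      have h6 : C + 2 ≤ r := le_trans (le_max_right _ _) hr
      have hg := good_of_prim h6 hA
      refine ⟨4 * r, by omega, A, hA, (hδ A).2 hg, k, hk, z ^ 4, ?_⟩
      rw [hU4 A hg.1, ← pow_mul, mul_comm, pow_mul, hz, _root_.smul_pow, one_pow])
  obtain ⟨B, hB⟩ : ∃ B : ℂ, B ^ F = A :=
    IsAlgClosed.exists_pow_nat_eq A hF
  have hA0 : A ≠ 0 := h1.1
  have hB0 : B ≠ 0 := by
    rintro rfl
    rw [zero_pow hF.ne'] at hB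
    exact hA0 hB.symm
  have e1 := hT (3 * m) B hB0 (by rw [hB]; exact (hδ _).2 h1)
  have e2 := hT m (B ^ 3) (pow_ne_zero 3 hB0) (by
    rw [← pow_mul, mul_comm, pow_mul, hB]
    exact (hδ _).2 h3)
  have hB3 : (B ^ 3) ^ F = A ^ 3 := by rw [← pow_mul, mul_comm, pow_mul, hB]
  rw [hB, hU4 A hA0, ← pow_mul] at e1
  rw [hB3, hU4 (A ^ 3) h3.1, ← pow_mul] at e2
  rw [e1, e2]
  refine Finset.sum_congr rfl fun k _ => ?_
  congr 1
  rw [← zpow_natCast B 3, ← zpow_mul]
  congr 1
  push_cast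
  ring

end Pool.Agent.AMH
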