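import Pool.Agent.AMH.DefsB
import Pool.Agent.AMG.Sym

/-!
# AMH, module Sum0: the relation between the traces in terms of the symbols
-/

open scoped BigOperators LaurentPolynomial Matrix Topology
open Polynomial Filter

set_option linter.unusedVariables false

namespace Pool.Agent.AMH

open Pool.Agent.AMG

private theorem trD (C N : ℕ) {A : ℂ} (hA : A ≠ 0) (u : List (Fin 2 × Bool)) :
    (DW C A ^ N * wordW C A u).trace = ∑ j ∈ Finset.range (C + 1), ∑ s : Fin 2,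
      A ^ ((N : ℤ) * (2 * (j : ℤ) - C + sg s) ^ 2) * sym u s s 0 (A ^ (2 * (j : ℤ) - C)) A (A ^ C) := by
  have h1 : DW C A ^ N = Matrix.diagonal fun p : Win C =>
      A ^ ((N : ℤ) * (2 * (p.1 : ℤ) - C + sg p.2) ^ 2) := by
    rw [DW, Matrix.diagonal_pow]
    congr 1
    funext p
    rw [Pi.pow_apply, ← zpow_natCast, ← zpow_mul, mul_comm]
  rw [h1, Matrix.trace, Finset.sum_range fun j : ℕ => ∑ s : Fin 2,
      A ^ ((N : ℤ) * (2 * (j : ℤ) - C + sg s) ^ 2) * sym u s s 0 (A ^ (2 * (j : ℤ) - C)) A (A ^ C),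
    Fintype.sum_prod_type]
  refine Finset.sum_congr rfl fun j _ => Finset.sum_congr rfl fun s _ => ?_
  rw [Matrix.diag_apply, Matrix.diagonal_mul, Sym.wordW_eq C hA]
  simp only [sub_self]

/-- [Sum0] -/
theorem sum0
    (dpow : ∀ (C n : ℕ) {A : ℂ} (_ : A ≠ 0) (v : List (Fin 2 × Bool)) (M : ℕ),
      (DW C A ^ n * wordW C A v) ^ M = DW C A ^ (n * M) * wordW C A (vM n v M))
    (starC : ∀ {C n : ℕ} {v : List (Fin 2 × Bool)} (_ : FailW C n v) (m : ℕ) (A : ℂ)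
      (_ : Good C A) (_ : Good C (A ^ 3)),
      ((DW C A ^ n * wordW C A v) ^ (4 * (3 * m))).trace =
        ((DW C (A ^ 3) ^ n * wordW C (A ^ 3) v) ^ (4 * m)).trace)
    {C n : ℕ} {v : List (Fin 2 × Bool)} (h : FailW C n v) (m : ℕ) (A : ℂ)
    (h1 : Good C A) (h3 : Good C (A ^ 3)) :
    ∑ j ∈ Finset.range (C + 1), A ^ (3 * (n * (4 * m) : ℕ) * (2 * (j : ℤ) - C) ^ 2) *
      ∑ s : Fin 2, A ^ (6 * (n * (4 * m) : ℕ) * (2 * (j : ℤ) - C) * sg s) *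
        (sym (vM n v (3 * (4 * m))) s s 0 (A ^ (2 * (j : ℤ) - C)) A (A ^ C) -
          sym (vM n v (4 * m)) s s 0 ((A ^ 3) ^ (2 * (j : ℤ) - C)) (A ^ 3) ((A ^ 3) ^ C)) = 0 := by
  have hA := h1.1
  have e0 := starC h m A h1 h3
  rw [dpow C n hA, dpow C n h3.1, trD C _ hA, trD C _ h3.1] at e0
  have e1 : 4 * (3 * m) = 3 * (4 * m) := by ring
  rw [e1] at e0
  set N : ℕ := n * (4 * m) with hN
  have e2 : n * (3 * (4 * m)) = 3 * N := by rw [hN]; ring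
  rw [e2] at e0
  have hsq : ∀ s : Fin 2, sg s ^ 2 = 1 := by
    intro s
    fin_cases s <;> rfl
  have key : ∀ (j : ℕ) (s : Fin 2) (a b : ℂ),
      A ^ (((3 * N : ℕ) : ℤ) * (2 * (j : ℤ) - C + sg s) ^ 2) * a -
        (A ^ 3) ^ ((N : ℤ) * (2 * (j : ℤ) - C + sg s) ^ 2) * b =
      A ^ (3 * (N : ℤ)) * (A ^ (3 * (N : ℤ) * (2 * (j : ℤ) - C) ^ 2) *
        (A ^ (6 * (N : ℤ) * (2 * (j : ℤ) - C) * sg s) * (a - b))) := by
    intro j s a b
    have e3 : ((3 * N : ℕ) : ℤ) * (2 * (j : ℤ) - C + sg s) ^ 2 =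
        3 * (N : ℤ) + (3 * (N : ℤ) * (2 * (j : ℤ) - C) ^ 2 + 6 * (N : ℤ) * (2 * (j : ℤ) - C) * sg s) := by
      push_cast
      linear_combination (3 * (N : ℤ)) * hsq s
    have e4 : (A ^ 3) ^ ((N : ℤ) * (2 * (j : ℤ) - C + sg s) ^ 2) =
        A ^ (((3 * N : ℕ) : ℤ) * (2 * (j : ℤ) - C + sg s) ^ 2) := by
      rw [← zpow_natCast A 3, ← zpow_mul]
      congr 1
      push_cast
      ring
    rw [e4, e3, zpow_add₀ hA, zpow_add₀ hA]
    ring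
  have e5 : A ^ (3 * (N : ℤ)) * ∑ j ∈ Finset.range (C + 1), A ^ (3 * (N : ℤ) * (2 * (j : ℤ) - C) ^ 2) *
      ∑ s : Fin 2, A ^ (6 * (N : ℤ) * (2 * (j : ℤ) - C) * sg s) *
        (sym (vM n v (3 * (4 * m))) s s 0 (A ^ (2 * (j : ℤ) - C)) A (A ^ C) -
          sym (vM n v (4 * m)) s s 0 ((A ^ 3) ^ (2 * (j : ℤ) - C)) (A ^ 3) ((A ^ 3) ^ C)) = 0 := by
    rw [← sub_eq_zero, ← Finset.sum_sub_distrib] at e0
    rw [← e0, Finset.mul_sum]
    refine Finset.sum_congr rfl fun j _ => ?_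
    rw [← Finset.sum_sub_distrib, Finset.mul_sum, Finset.mul_sum]
    refine Finset.sum_congr rfl fun s _ => ?_
    rw [key]
  exact (mul_eq_zero.1 e5).resolve_left (zpow_ne_zero _ hA)

end Pool.Agent.AMH
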