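import Pool.Agent.AMH.DefsB

/-!
# AMH, module TId: the identity of the top coefficients
-/

open scoped BigOperators LaurentPolynomial Matrix Topology
open Polynomial Filter

set_option linter.unusedVariables false

namespace Pool.Agent.AMH

open Pool.Agent.AMG

theorem tid_ny_append (w w' : List (Fin 2 × Bool)) : ny (w ++ w') = ny w + ny w' := by
  unfold ny
  exact List.countP_append

theorem tid_ny_xw (b : ℤ) : ny (xw b) = 0 := by
  unfold ny xw
  rw [List.countP_replicate]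
  simp

theorem tid_ny_tl (j : ℤ) (l : Fin 2 × Bool) : ny (tl j l) = ny [l] := by
  unfold tl
  by_cases h : l.1 = 0
  · rw [if_pos h]
  · rw [if_neg h]
    by_cases h' : l.2 = true
    · rw [if_pos h']
      have e : l :: xw j = [l] ++ xw j := rfl
      rw [e, tid_ny_append, tid_ny_xw, add_zero]
    · rw [if_neg h', tid_ny_append, tid_ny_xw, zero_add]

theorem tid_ny_tww (j : ℤ) (w : List (Fin 2 × Bool)) : ny (tww j w) = ny w := by
  induction w with
  | nil => rfl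
  | cons l w ih =>
    have e1 : tww j (l :: w) = tl j l ++ tww j w := by
      unfold tww
      rw [List.flatMap_cons]
    have e2 : ny (l :: w) = ny [l] + ny w := tid_ny_append [l] w
    rw [e1, e2, tid_ny_append, tid_ny_tl, ih]

theorem tid_ny_vM (n : ℕ) (v : List (Fin 2 × Bool)) (M : ℕ) : ny (vM n v M) = M * ny v := by
  induction M with
  | zero =>
    rw [zero_mul]
    rfl
  | succ M ih =>
    show ny (tww (-(4 * n * M : ℕ)) v ++ vM n v M) = _
    rw [tid_ny_append, tid_ny_tww, ih]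
    ring

theorem tid_Ph (n : ℕ) (v : List (Fin 2 × Bool)) (M : ℕ) (x β : ℝ) (c y z : ℂ)
    (hc : ∀ s : Fin 2, Complex.exp (Real.pi * x * sg s * Complex.I) = c)
    (hy : y = Complex.exp (Real.pi * x / (6 * (n * M)) * Complex.I))
    (hz : z = Complex.exp (β * Complex.I)) :
    Ph n v M x 0 β = c * (clC (vM n v (3 * M)) y z - clC (vM n v M) (y ^ 3) (z ^ 3)) := by
  have e1 : Complex.exp (Real.pi * x / (2 * (n * M)) * Complex.I) = y ^ 3 := by
    rw [hy, ← Complex.exp_nat_mul]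
    congr 1
    push_cast
    ring
  have e2 : Complex.exp (3 * β * Complex.I) = z ^ 3 := by
    rw [hz, ← Complex.exp_nat_mul]
    congr 1
    push_cast
    ring
  have e3 : Complex.exp (((0 : ℝ) : ℂ) * Complex.I) = 1 := by simp
  have e4 : Complex.exp (3 * ((0 : ℝ) : ℂ) * Complex.I) = 1 := by simp
  unfold Ph clC
  rw [e1, e2, e3, e4, ← hy, ← hz]
  simp only [hc]
  rw [← Finset.mul_sum, Finset.sum_sub_distrib]

theorem tid_pol (cl_top : ∀ (w : List (Fin 2 × Bool)) (x : ℂ) (_ : x ≠ 0) (_ : x ^ 2 + 1 ≠ 0),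
      ∃ P : ℂ[X], (∀ v : ℂ, v ≠ 0 → v ^ ny w * clC w x v = P.eval v) ∧ P.eval 0 = topT w x)
    (W3 W1 : List (Fin 2 × Bool)) (hny : ny W3 = 3 * ny W1) (y : ℂ) (hy : y ≠ 0)
    (h2 : y ^ 2 + 1 ≠ 0) (h6 : (y ^ 3) ^ 2 + 1 ≠ 0) :
    ∃ p : ℂ[X], (∀ z : ℂ, z ≠ 0 →
      z ^ ny W3 * (clC W3 y z - clC W1 (y ^ 3) (z ^ 3)) = p.eval z) ∧
      p.eval 0 = topT W3 y - topT W1 (y ^ 3) := by
  obtain ⟨P3, hP3, hP3'⟩ := cl_top W3 y hy h2
  obtain ⟨P1, hP1, hP1'⟩ := cl_top W1 (y ^ 3) (pow_ne_zero 3 hy) h6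
  refine ⟨P3 - P1.comp (X ^ 3), fun z hz => ?_, ?_⟩
  · rw [eval_sub, eval_comp, eval_pow, eval_X, ← hP3 z hz, ← hP1 (z ^ 3) (pow_ne_zero 3 hz),
      hny, ← pow_mul]
    ring
  · rw [eval_sub, eval_comp, eval_pow, eval_X, hP3', zero_pow three_ne_zero, hP1']

theorem tid_inf (a b N : ℝ) (ha : 0 ≤ a) (hab : a < b) (hb : b ≤ 2) (hN : 1 ≤ N) (p : ℂ[X])
    (h : ∀ ρ : ℝ, a < ρ → ρ < b →
      p.eval (Complex.exp ((Real.pi * ρ / (6 * N) : ℝ) * Complex.I)) = 0) : p = 0 := by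
  refine Polynomial.eq_zero_of_infinite_isRoot p ?_
  have hinj : Set.InjOn (fun ρ : ℝ => Complex.exp ((Real.pi * ρ / (6 * N) : ℝ) * Complex.I))
      (Set.Ioo a b) := by
    have hbd : ∀ ρ ∈ Set.Ioo a b, 0 ≤ Real.pi * ρ / (6 * N) ∧ Real.pi * ρ / (6 * N) ≤ Real.pi := by
      intro ρ hρ
      have hpi := Real.pi_pos
      have h0 : 0 ≤ ρ := ha.trans hρ.1.le
      refine ⟨by positivity, ?_⟩
      rw [div_le_iff₀ (by positivity)]
      have h2 : ρ ≤ 6 * N := by linarith [hρ.2]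
      exact mul_le_mul_of_nonneg_left h2 hpi.le
    intro ρ hρ ρ' hρ' heq
    have hpi := Real.pi_pos
    obtain ⟨b1, b2⟩ := hbd ρ hρ
    obtain ⟨b3, b4⟩ := hbd ρ' hρ'
    have im1 : ∀ t : ℝ, ((t : ℂ) * Complex.I).im = t := by
      intro t
      simp
    have h3 := Complex.exp_inj_of_neg_pi_lt_of_le_pi (x := (Real.pi * ρ / (6 * N) : ℝ) * Complex.I)
      (y := (Real.pi * ρ' / (6 * N) : ℝ) * Complex.I) (by rw [im1]; linarith) (by rw [im1]; exact b2)
      (by rw [im1]; linarith) (by rw [im1]; exact b4) heq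
    have h4 := congrArg Complex.im h3
    rw [im1, im1] at h4
    have h5 : 6 * N ≠ 0 := by positivity
    rw [div_left_inj' h5] at h4
    exact mul_left_cancel₀ hpi.ne' h4
  refine ((Set.Ioo_infinite hab).image hinj).mono ?_
  rintro _ ⟨ρ, hρ, rfl⟩
  exact h ρ hρ.1 hρ.2

theorem tid_ne (t : ℝ) (h0 : -Real.pi < t) (h1 : t < Real.pi) :
    Complex.exp (t * Complex.I) + 1 ≠ 0 := by
  intro h
  have h2 : Complex.exp (t * Complex.I) = Complex.exp ((Real.pi : ℝ) * Complex.I) := by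
    rw [Complex.exp_pi_mul_I]
    exact eq_neg_of_add_eq_zero_left h
  have im1 : ∀ t : ℝ, ((t : ℂ) * Complex.I).im = t := by
    intro t
    simp
  have hpi := Real.pi_pos
  have h3 := Complex.exp_inj_of_neg_pi_lt_of_le_pi (by rw [im1]; exact h0) (by rw [im1]; exact h1.le)
    (by rw [im1]; linarith) (by rw [im1]) h2
  have h4 := congrArg Complex.im h3
  rw [im1, im1] at h4
  linarith

theorem tid
    (ph_lim : ∀ {n : ℕ} (_ : 0 < n) {v : List (Fin 2 × Bool)} {p : ℕ}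
      (_ : ∀ C : ℕ, C % 2 = p % 2 → FailW C n v) (m : ℕ) (_ : 0 < m) (ρ : ℝ) (_ : 0 < ρ)
      (_ : ρ ≠ 1) (_ : ρ < 2),
      Ph n v (4 * m) 0 0 (Real.pi * ρ / (6 * (n * (4 * m)))) +
        (if 1 < ρ then Ph n v (4 * m) 1 0 (Real.pi * ρ / (6 * (n * (4 * m)))) +
          Ph n v (4 * m) (-1) 0 (Real.pi * ρ / (6 * (n * (4 * m)))) else 0) = 0)
    (cl_top : ∀ (w : List (Fin 2 × Bool)) (x : ℂ) (_ : x ≠ 0) (_ : x ^ 2 + 1 ≠ 0),
      ∃ P : ℂ[X], (∀ v : ℂ, v ≠ 0 → v ^ ny w * clC w x v = P.eval v) ∧ P.eval 0 = topT w x)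
    {n : ℕ} (hn : 0 < n) {v : List (Fin 2 × Bool)} {p : ℕ}
    (h : ∀ C : ℕ, C % 2 = p % 2 → FailW C n v) (m : ℕ) (hm : 0 < m) (u : ℂ)
    (hu : u = Complex.exp ((Real.pi / (6 * (n * (4 * m))) : ℝ) * Complex.I)) :
    topT (vM n v (3 * (4 * m))) u + topT (vM n v (3 * (4 * m))) u⁻¹ =
      topT (vM n v (4 * m)) (u ^ 3) + topT (vM n v (4 * m)) (u ^ 3)⁻¹ := by
  have hny : ny (vM n v (3 * (4 * m))) = 3 * ny (vM n v (4 * m)) := by
    rw [tid_ny_vM, tid_ny_vM]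
    ring
  obtain ⟨N, hN⟩ : ∃ N : ℝ, N = n * (4 * m) := ⟨_, rfl⟩
  have hN4 : 4 ≤ N := by
    rw [hN]
    have h1 : 1 ≤ n * m := Nat.mul_pos hn hm
    have h2 : ((1 : ℕ) : ℝ) ≤ ((n * m : ℕ) : ℝ) := Nat.cast_le.2 h1
    push_cast at h2
    linarith
  have hpi := Real.pi_pos
  obtain ⟨θ, hθ⟩ : ∃ θ : ℝ, θ = Real.pi / (6 * N) := ⟨_, rfl⟩
  have hθ0 : 0 < θ := by
    rw [hθ]
    positivity
  have hθ1 : 6 * θ < Real.pi := by
    have h1 : 6 * θ = Real.pi / N := by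
      rw [hθ]
      field_simp
    rw [h1, div_lt_iff₀ (by linarith)]
    nlinarith
  have hue : u = Complex.exp (θ * Complex.I) := by rw [hu, hθ, hN]
  have hu0 : u ≠ 0 := by
    rw [hu]
    exact Complex.exp_ne_zero _
  have hup : ∀ (k : ℕ) (e : ℝ), e = k * θ → u ^ k = Complex.exp (e * Complex.I) := by
    intro k e he
    rw [hue, ← Complex.exp_nat_mul, he]
    congr 1
    push_cast
    ring
  have hui : ∀ (k : ℕ) (e : ℝ), e = -(k * θ) → u⁻¹ ^ k = Complex.exp (e * Complex.I) := by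
    intro k e he
    rw [hue, ← Complex.exp_neg, ← Complex.exp_nat_mul, he]
    congr 1
    push_cast
    ring
  have a1 : u ^ 2 + 1 ≠ 0 := by
    rw [hup 2 (2 * θ) (by push_cast; ring)]
    exact tid_ne _ (by linarith) (by linarith)
  have a2 : (u ^ 3) ^ 2 + 1 ≠ 0 := by
    rw [← pow_mul, hup (3 * 2) (6 * θ) (by push_cast; ring)]
    exact tid_ne _ (by linarith) (by linarith)
  have a3 : u⁻¹ ^ 2 + 1 ≠ 0 := by
    rw [hui 2 (-(2 * θ)) (by push_cast; ring)]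
    exact tid_ne _ (by linarith) (by linarith)
  have a4 : (u⁻¹ ^ 3) ^ 2 + 1 ≠ 0 := by
    rw [← pow_mul, hui (3 * 2) (-(6 * θ)) (by push_cast; ring)]
    exact tid_ne _ (by linarith) (by linarith)
  obtain ⟨p1, hp1, -⟩ := tid_pol cl_top _ _ hny 1 one_ne_zero (by norm_num) (by norm_num)
  obtain ⟨pu, hpu, hpu'⟩ := tid_pol cl_top _ _ hny u hu0 a1 a2
  obtain ⟨pi, hpi1, hpi'⟩ := tid_pol cl_top _ _ hny u⁻¹ (inv_ne_zero hu0) a3 a4
  -- the values of `Ph`
  have P0 : ∀ (β : ℝ) (z : ℂ), z = Complex.exp (β * Complex.I) → Ph n v (4 * m) 0 0 β =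
      1 * (clC (vM n v (3 * (4 * m))) 1 z - clC (vM n v (4 * m)) (1 ^ 3) (z ^ 3)) := by
    intro β z hz
    refine tid_Ph n v (4 * m) 0 β 1 1 z (fun s => by simp) (by simp) hz
  have P1 : ∀ (β : ℝ) (z : ℂ), z = Complex.exp (β * Complex.I) → Ph n v (4 * m) 1 0 β =
      -1 * (clC (vM n v (3 * (4 * m))) u z - clC (vM n v (4 * m)) (u ^ 3) (z ^ 3)) := by
    intro β z hz
    refine tid_Ph n v (4 * m) 1 β (-1) u z (fun s => ?_) ?_ hz
    · fin_cases s
      · simp [sg, Complex.exp_pi_mul_I]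
      · simp [sg, Complex.exp_neg, Complex.exp_pi_mul_I]
    · rw [hu]
      congr 1
      push_cast
      ring
  have P2 : ∀ (β : ℝ) (z : ℂ), z = Complex.exp (β * Complex.I) → Ph n v (4 * m) (-1) 0 β =
      -1 * (clC (vM n v (3 * (4 * m))) u⁻¹ z - clC (vM n v (4 * m)) (u⁻¹ ^ 3) (z ^ 3)) := by
    intro β z hz
    refine tid_Ph n v (4 * m) (-1) β (-1) u⁻¹ z (fun s => ?_) ?_ hz
    · fin_cases s
      · simp [sg, Complex.exp_neg, Complex.exp_pi_mul_I]
      · simp [sg, Complex.exp_pi_mul_I]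
    · rw [hu, ← Complex.exp_neg]
      congr 1
      push_cast
      ring
  have hzero : p1 = 0 := by
    refine tid_inf 0 1 N le_rfl one_pos (by norm_num) (by linarith) p1 fun ρ h0 h1 => ?_
    have h2 := ph_lim hn h m hm ρ h0 h1.ne (by linarith)
    rw [if_neg (by linarith), add_zero, P0 _ _ rfl] at h2
    rw [one_mul] at h2
    rw [← hN] at h2
    rw [← hp1 _ (Complex.exp_ne_zero _), h2, mul_zero]
  have hzero2 : p1 - (pu + pi) = 0 := by
    refine tid_inf 1 2 N zero_le_one (by norm_num) le_rfl (by linarith) _ fun ρ h0 h1 => ?_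
    have h2 := ph_lim hn h m hm ρ (by linarith) h0.ne' h1
    rw [if_pos h0, P0 _ _ rfl, P1 _ _ rfl, P2 _ _ rfl, ← hN] at h2
    rw [eval_sub, eval_add, ← hp1 _ (Complex.exp_ne_zero _), ← hpu _ (Complex.exp_ne_zero _),
      ← hpi1 _ (Complex.exp_ne_zero _)]
    linear_combination (Complex.exp ((Real.pi * ρ / (6 * N) : ℝ) * Complex.I)) ^
      ny (vM n v (3 * (4 * m))) * h2
  rw [hzero, zero_sub, neg_eq_zero] at hzero2
  have h5 := congrArg (Polynomial.eval 0) hzero2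
  rw [eval_add, hpu', hpi', eval_zero, inv_pow] at h5
  linear_combination h5

end Pool.Agent.AMH
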