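import Pool.Agent.AMH.DefsB

/-!
# AMH, module TPos: the sum of the two top coefficients
-/

namespace Pool.Agent.AMH

open Pool.Agent.AMG

namespace TPos

private noncomputable def th (n i : ℕ) : ℝ := Real.pi / (2 * (n * (4 * 3 ^ i : ℕ)))

private noncomputable def U (n i : ℕ) : ℂ := Complex.exp ((th n i : ℝ) * Complex.I)

private theorem th_pos {n : ℕ} (hn : 0 < n) (i : ℕ) : 0 < th n i := by
  unfold th
  have := Real.pi_pos
  positivity

private theorem th_lt {n : ℕ} (hn : 0 < n) (i : ℕ) : th n i < Real.pi / 2 := by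
  unfold th
  have h1 : (1 : ℝ) < n * (4 * 3 ^ i : ℕ) := by
    have h2 : 1 < n * (4 * 3 ^ i) := by
      have h3 : 0 < 3 ^ i := by positivity
      nlinarith
    exact_mod_cast h2
  have := Real.pi_pos
  apply div_lt_div_of_pos_left this two_pos
  linarith

private theorem U_ne (n i : ℕ) : U n i ≠ 0 := Complex.exp_ne_zero _

private theorem U_norm (n i : ℕ) : ‖U n i‖ = 1 := Complex.norm_exp_ofReal_mul_I _

private theorem U_cube (n i : ℕ) : U n (i + 1) ^ 3 = U n i := by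
  unfold U
  rw [← Complex.exp_nat_mul]
  congr 1
  have h1 : 3 * th n (i + 1) = th n i := by
    unfold th
    rcases Nat.eq_zero_or_pos n with h | h
    · subst h
      simp
    · have h2 : (n : ℝ) ≠ 0 := by exact_mod_cast h.ne'
      push_cast
      rw [pow_succ]
      field_simp
  rw [← h1]
  push_cast
  ring

private theorem U_prim {n : ℕ} (hn : 0 < n) (i : ℕ) :
    IsPrimitiveRoot (U n i ^ (4 * n)) (4 * 3 ^ i) := by
  have h1 := Complex.isPrimitiveRoot_exp (4 * 3 ^ i) (by positivity)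
  have h2 : U n i ^ (4 * n) = Complex.exp (2 * Real.pi * Complex.I / (4 * 3 ^ i : ℕ)) := by
    unfold U th
    rw [← Complex.exp_nat_mul]
    congr 1
    have h3 : (n : ℂ) ≠ 0 := by exact_mod_cast hn.ne'
    push_cast
    field_simp
    ring
  rw [h2]
  exact h1

private theorem al_cube (u : ℂ) (q : Bool × ℤ × Bool) : al u q ^ 3 = al (u ^ 3) q := by
  unfold al
  cases q.1 with
  | true =>
    simp only [if_true]
    have h1 : (-u ^ 3) ^ q.2.1 = ((-u) ^ q.2.1) ^ 3 := by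
      have h2 : -u ^ 3 = (-u) ^ 3 := by ring
      rw [h2, ← zpow_natCast, ← zpow_mul, ← zpow_natCast, ← zpow_mul, mul_comm]
    rw [h1]
    ring
  | false =>
    simp only [Bool.false_eq_true, if_false]
    rw [← zpow_natCast, ← zpow_mul, ← zpow_natCast, ← zpow_mul, mul_comm]

private theorem be_cube (u : ℂ) (q : Bool × ℤ × Bool) : be u q ^ 3 = be (u ^ 3) q := by
  unfold be
  cases q.1 with
  | true =>
    simp only [if_true]
    have h1 : (u ^ 3) ^ (-1 - q.2.1) = (u ^ (-1 - q.2.1)) ^ 3 := by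
      rw [← zpow_natCast, ← zpow_mul, ← zpow_natCast, ← zpow_mul, mul_comm]
    rw [h1]
    ring
  | false =>
    simp only [Bool.false_eq_true, if_false]
    have h1 : (-u ^ 3) ^ q.2.1 = ((-u) ^ q.2.1) ^ 3 := by
      have h2 : -u ^ 3 = (-u) ^ 3 := by ring
      rw [h2, ← zpow_natCast, ← zpow_mul, ← zpow_natCast, ← zpow_mul, mul_comm]
    rw [h1, mul_pow, inv_pow]

private theorem al_inv (u : ℂ) (q : Bool × ℤ × Bool) : al u⁻¹ q = (al u q)⁻¹ := by
  unfold al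
  have h1 : (-u⁻¹ : ℂ) = (-u)⁻¹ := neg_inv
  cases q.1 with
  | true =>
    simp only [if_true]
    rw [h1, inv_zpow, inv_neg, mul_inv]
  | false =>
    simp only [Bool.false_eq_true, if_false]
    rw [inv_zpow]

private theorem be_inv (u : ℂ) (q : Bool × ℤ × Bool) : be u⁻¹ q = (be u q)⁻¹ := by
  unfold be
  have h1 : (-u⁻¹ : ℂ) = (-u)⁻¹ := neg_inv
  cases q.1 with
  | true =>
    simp only [if_true]
    rw [inv_zpow, inv_neg]
  | false =>
    simp only [Bool.false_eq_true, if_false]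
    rw [h1, inv_zpow, mul_inv, inv_inv]

private theorem be_al (u : ℂ) (hu : u ≠ 0) (q : Bool × ℤ × Bool) :
    be u q * al u q = (-1) ^ q.2.1 := by
  have h1 : (-u) ^ q.2.1 = (-1) ^ q.2.1 * u ^ q.2.1 := by
    rw [← mul_zpow, neg_one_mul]
  unfold be al
  cases q.1 with
  | true =>
    simp only [if_true]
    rw [h1]
    have h2 : u ^ (-1 - q.2.1) * u * u ^ q.2.1 = 1 := by
      rw [← zpow_add_one₀ hu, ← zpow_add₀ hu]
      have h3 : -1 - q.2.1 + 1 + q.2.1 = 0 := by ring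
      rw [h3, zpow_zero]
    linear_combination (-1) ^ q.2.1 * h2
  | false =>
    simp only [Bool.false_eq_true, if_false]
    rw [h1]
    have h2 : u ^ (1 - q.2.1) * u⁻¹ * u ^ q.2.1 = 1 := by
      rw [← zpow_sub_one₀ hu, ← zpow_add₀ hu]
      have h3 : 1 - q.2.1 - 1 + q.2.1 = 0 := by ring
      rw [h3, zpow_zero]
    linear_combination (-1) ^ q.2.1 * h2

private theorem be_norm (u : ℂ) (hu : ‖u‖ = 1) (q : Bool × ℤ × Bool) : ‖be u q‖ = 1 := by
  unfold be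
  cases q.1 with
  | true =>
    simp only [if_true]
    rw [norm_neg, norm_zpow, hu, one_zpow]
  | false =>
    simp only [Bool.false_eq_true, if_false]
    rw [norm_mul, norm_inv, norm_zpow, norm_neg, hu, one_zpow, inv_one, mul_one]

/-- the list of the coefficients -/
private noncomputable def Ls (l : List (ℤ × Bool)) (u : ℂ) (k : ℕ) : List (ℂ × ℂ) :=
  (same l).map fun q => (be u q ^ k, al u q ^ k)

private theorem half (i : ℕ) : 4 * 3 ^ i / 2 = 2 * 3 ^ i := by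
  have h : 4 * 3 ^ i = 2 * (2 * 3 ^ i) := by ring
  rw [h, Nat.mul_div_cancel_left _ two_pos]

private theorem Ls_eq (l : List (ℤ × Bool)) (n i : ℕ) :
    Ls l (U n i) (2 * 3 ^ i) = Ls l (U n 0) 2 := by
  induction i with
  | zero => rfl
  | succ i ih =>
    rw [← ih]
    unfold Ls
    congr 1
    funext q
    have h1 : 2 * 3 ^ (i + 1) = 3 * (2 * 3 ^ i) := by ring
    rw [h1, pow_mul (be (U n (i + 1)) q) 3, pow_mul (al (U n (i + 1)) q) 3, be_cube, al_cube,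
      U_cube]

private theorem Ls_inv (l : List (ℤ × Bool)) (u : ℂ) (k : ℕ) :
    Ls l u⁻¹ k = (Ls l u k).map fun q => (q.1⁻¹, q.2⁻¹) := by
  unfold Ls
  rw [List.map_map]
  congr 1
  funext q
  show (be u⁻¹ q ^ k, al u⁻¹ q ^ k) = ((be u q ^ k)⁻¹, (al u q ^ k)⁻¹)
  rw [be_inv, al_inv, inv_pow, inv_pow]

end TPos

open TPos in
theorem tpos
    (topT_vM : ∀ (n M : ℕ) (_ : 0 < n) (_ : 4 ∣ M) (_ : 0 < M) (l : List (ℤ × Bool)) (_ : l ≠ [])
      (_ : ¬ (lst true l = true ∧ ∀ q ∈ l.head?, q.2 = false)) (u : ℂ) (_ : u ≠ 0)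
      (_ : u ^ 2 + 1 ≠ 0) (_ : IsPrimitiveRoot (u ^ (4 * n)) M),
      topT (vM n (wd l) M) u = kap l u ^ M * ((-1) ^ (same l).length *
        Kc ((same l).map fun q => (be u q ^ (M / 2), al u q ^ (M / 2))) (M / 2)))
    (Kc_exp : ∀ (L : List (ℂ × ℂ)) (m : ℕ) (_ : 0 < m), Kc L m = Kc L 1)
    (Kc_pos : ∀ (L : List (ℂ × ℂ)) (_ : ∀ q ∈ L, q.1 * q.2 = 1 ∧ ‖q.1‖ = 1),
      ∃ K : ℝ, 0 < K ∧ (-1) ^ L.length * Kc L 1 = K ∧
        (-1) ^ L.length * Kc (L.map fun q => (q.1⁻¹, q.2⁻¹)) 1 = K)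
    (kap_abs : ∀ (l : List (ℤ × Bool)) (θ : ℝ) (_ : 0 < θ) (_ : θ < Real.pi / 2) (M : ℕ)
      (_ : 4 ∣ M) (u : ℂ) (_ : u = Complex.exp (θ * Complex.I)),
      kap l u ^ M = (phi l θ ^ M : ℝ) ∧ kap l u⁻¹ ^ M = (phi l θ ^ M : ℝ))
    (n : ℕ) (hn : 0 < n) (l : List (ℤ × Bool)) (hl : l ≠ [])
    (hi : ¬ (lst true l = true ∧ ∀ q ∈ l.head?, q.2 = false)) :
    ∃ K : ℝ, 0 < K ∧ ∀ i : ℕ, ∀ u : ℂ,
      u = Complex.exp ((Real.pi / (2 * (n * (4 * 3 ^ i : ℕ))) : ℝ) * Complex.I) →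
      topT (vM n (wd l) (4 * 3 ^ i)) u + topT (vM n (wd l) (4 * 3 ^ i)) u⁻¹ =
        (2 * phi l (Real.pi / (2 * (n * (4 * 3 ^ i : ℕ)))) ^ (4 * 3 ^ i) * K : ℝ) := by
  obtain ⟨K, hK, h1, h2⟩ := Kc_pos (Ls l (U n 0) 2) (by
    intro q hq
    obtain ⟨p, -, rfl⟩ := List.mem_map.1 hq
    refine ⟨?_, ?_⟩
    · show be (U n 0) p ^ 2 * al (U n 0) p ^ 2 = 1
      rw [← mul_pow, be_al _ (U_ne n 0), ← zpow_natCast, ← zpow_mul, mul_comm, zpow_mul]
      norm_num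
    · show ‖be (U n 0) p ^ 2‖ = 1
      rw [norm_pow, be_norm _ (U_norm n 0), one_pow])
  have hlen : (Ls l (U n 0) 2).length = (same l).length := List.length_map _
  rw [hlen] at h1 h2
  refine ⟨K, hK, fun i u hu => ?_⟩
  have hu' : u = U n i := hu
  have hM : 4 ∣ 4 * 3 ^ i := dvd_mul_right _ _
  have hM0 : 0 < 4 * 3 ^ i := by positivity
  have hk := kap_abs l (th n i) (th_pos hn i) (th_lt hn i) _ hM u hu
  have hprim : IsPrimitiveRoot (u ^ (4 * n)) (4 * 3 ^ i) := by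
    rw [hu']
    exact U_prim hn i
  have hu0 : u ≠ 0 := by
    rw [hu']
    exact U_ne n i
  have hne : ∀ w : ℂ, IsPrimitiveRoot (w ^ (4 * n)) (4 * 3 ^ i) → w ^ 2 + 1 ≠ 0 := by
    intro w hw h0
    have h3 : w ^ (4 * n) = 1 := by
      have h4 : w ^ (4 * n) = ((w ^ 2) ^ 2) ^ n := by
        rw [← pow_mul, ← pow_mul]
        congr 1
        ring
      rw [h4, eq_neg_of_add_eq_zero_left h0]
      norm_num
    rw [h3] at hw
    have h5 : 4 * 3 ^ i ∣ 1 := hw.dvd_of_pow_eq_one 1 (one_pow 1)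
    have h6 := Nat.le_of_dvd one_pos h5
    omega
  have hprim' : IsPrimitiveRoot (u⁻¹ ^ (4 * n)) (4 * 3 ^ i) := by
    rw [inv_pow]
    exact hprim.inv
  have e1 := topT_vM n _ hn hM hM0 l hl hi u hu0 (hne u hprim) hprim
  have e2 := topT_vM n _ hn hM hM0 l hl hi u⁻¹ (inv_ne_zero hu0) (hne u⁻¹ hprim') hprim'
  have hLs : Ls l u (2 * 3 ^ i) = Ls l (U n 0) 2 := by
    rw [hu']
    exact Ls_eq l n i
  have hLs' : Ls l u⁻¹ (2 * 3 ^ i) = (Ls l (U n 0) 2).map fun q => (q.1⁻¹, q.2⁻¹) := by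
    rw [Ls_inv, hLs]
  have e1' : topT (vM n (wd l) (4 * 3 ^ i)) u = kap l u ^ (4 * 3 ^ i) *
      ((-1) ^ (same l).length * Kc (Ls l (U n 0) 2) 1) := by
    rw [e1, half, Kc_exp _ (2 * 3 ^ i) (by positivity)]
    have h3 : (same l).map (fun q => (be u q ^ (2 * 3 ^ i), al u q ^ (2 * 3 ^ i))) =
        Ls l (U n 0) 2 := hLs
    rw [h3]
  have e2' : topT (vM n (wd l) (4 * 3 ^ i)) u⁻¹ = kap l u⁻¹ ^ (4 * 3 ^ i) *
      ((-1) ^ (same l).length * Kc ((Ls l (U n 0) 2).map fun q => (q.1⁻¹, q.2⁻¹)) 1) := by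
    rw [e2, half, Kc_exp _ (2 * 3 ^ i) (by positivity)]
    have h3 : (same l).map (fun q => (be u⁻¹ q ^ (2 * 3 ^ i), al u⁻¹ q ^ (2 * 3 ^ i))) =
        (Ls l (U n 0) 2).map fun q => (q.1⁻¹, q.2⁻¹) := hLs'
    rw [h3]
  rw [e1', e2', h1, h2, hk.1, hk.2]
  have h4 : th n i = Real.pi / (2 * (n * (4 * 3 ^ i : ℕ))) := rfl
  rw [← h4]
  push_cast
  ring

end Pool.Agent.AMH
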