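import Pool.Agent.AMH.DefsB
import Pool.Agent.AMG.CTE

/-!
# The top coefficient of the substituted words
-/

open scoped BigOperators LaurentPolynomial Matrix
open Polynomial

set_option linter.unusedVariables false

namespace Pool.Agent.AMH

open Pool.Agent.AMG

/-- The matrix of `x ^ b`. -/
noncomputable def tvX (u : ℂ) (b : ℤ) : Matrix (Fin 2) (Fin 2) ℂ[T;T⁻¹] :=
  !![LaurentPolynomial.C (u ^ (-b)), 0; 0, LaurentPolynomial.C ((-u) ^ b)]

/-- The column of a letter. -/
noncomputable def tvc (u : ℂ) (e : Bool) : Fin 2 → ℂ[T;T⁻¹] :=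
  if e then ![LaurentPolynomial.C (-u⁻¹) * LaurentPolynomial.T (-1), 1]
  else ![LaurentPolynomial.C u * LaurentPolynomial.T 1, 1]

/-- The row of a letter. -/
noncomputable def tvr (u : ℂ) (e : Bool) : Fin 2 → ℂ[T;T⁻¹] :=
  if e then ![1, LaurentPolynomial.C (-u) * LaurentPolynomial.T 1]
  else ![1, LaurentPolynomial.C u⁻¹ * LaurentPolynomial.T (-1)]

/-- The column of a substituted letter. -/
noncomputable def tvcj (u : ℂ) (j : ℤ) (e : Bool) : Fin 2 → ℂ[T;T⁻¹] :=
  tvX u (if e then 0 else -j) *ᵥ tvc u e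

/-- The row of a substituted letter. -/
noncomputable def tvrj (u : ℂ) (j : ℤ) (e : Bool) : Fin 2 → ℂ[T;T⁻¹] :=
  tvr u e ᵥ* tvX u (if e then j else 0)

/-- The transition. -/
noncomputable def tvf (u : ℂ) (j : ℤ) (q : Bool × ℤ × Bool) : ℂ[T;T⁻¹] :=
  tvrj u j q.1 ⬝ᵥ (tvX u q.2.1 *ᵥ tvcj u j q.2.2)

theorem tvX_add {u : ℂ} (hu : u ≠ 0) (a b : ℤ) : tvX u (a + b) = tvX u a * tvX u b := by
  have h1 : u ^ (-(a + b)) = u ^ (-a) * u ^ (-b) := by
    rw [← zpow_add₀ hu]; congr 1; ring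
  have h2 : (-u) ^ (a + b) = (-u) ^ a * (-u) ^ b := by
    rw [← zpow_add₀ (neg_ne_zero.2 hu)]
  rw [tvX, tvX, tvX, h1, h2, Matrix.mul_fin_two]
  simp only [mul_zero, zero_mul, add_zero, zero_add, map_mul]

theorem tvX_zero (u : ℂ) : tvX u 0 = 1 := by
  ext i j
  fin_cases i <;> fin_cases j <;> simp [tvX]

theorem tv_topX (u : ℂ) : topL u (0, true) = tvX u 1 := by
  simp [topL, tvX]

theorem tv_topX' {u : ℂ} (hu : u ≠ 0) : topL u (0, false) = tvX u (-1) := by
  have h1 : u ^ (-(-1 : ℤ)) = u := by rw [neg_neg, zpow_one]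
  have h2 : (-u) ^ (-1 : ℤ) = -u⁻¹ := by rw [zpow_neg_one, inv_neg]
  rw [tvX, h1, h2, topL]
  simp only [if_true, Bool.false_eq_true, if_false]

theorem tv_rep {u : ℂ} (hu : u ≠ 0) (b : Bool) (k : ℕ) :
    ((List.replicate k ((0 : Fin 2), b)).map (topL u)).prod = tvX u (if b then k else -k) := by
  induction k with
  | zero => cases b <;> simp [tvX_zero]
  | succ k ih =>
    rw [List.replicate_succ, List.map_cons, List.prod_cons, ih]
    cases b
    · rw [tv_topX' hu, ← tvX_add hu]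
      congr 1
      simp only [Bool.false_eq_true, if_false]
      push_cast
      ring
    · rw [tv_topX, ← tvX_add hu]
      congr 1
      simp only [if_true]
      push_cast
      ring

theorem tv_xw {u : ℂ} (hu : u ≠ 0) (b : ℤ) : ((xw b).map (topL u)).prod = tvX u b := by
  rw [xw, tv_rep hu]
  congr 1
  by_cases h : 0 ≤ b
  · simp only [h, decide_true, if_true]
    omega
  · simp only [h, decide_false, Bool.false_eq_true, if_false]
    omega

theorem tv_topY (u : ℂ) (e : Bool) : topL u (1, e) =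
    LaurentPolynomial.C (u + u⁻¹)⁻¹ • Matrix.vecMulVec (tvc u e) (tvr u e) := by
  by_cases hu : u = 0
  · subst hu
    ext i j
    fin_cases i <;> fin_cases j <;> cases e <;> simp [topL, tvc, tvr]
  · have h1 : (LaurentPolynomial.C (-u⁻¹) * LaurentPolynomial.T (-1) : ℂ[T;T⁻¹]) *
        (LaurentPolynomial.C (-u) * LaurentPolynomial.T 1) = 1 := by
      have : (LaurentPolynomial.C (-u⁻¹) * LaurentPolynomial.T (-1) : ℂ[T;T⁻¹]) *
        (LaurentPolynomial.C (-u) * LaurentPolynomial.T 1) =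
        LaurentPolynomial.C (-u⁻¹ * -u) * LaurentPolynomial.T (-1 + 1) := by
        rw [map_mul, LaurentPolynomial.T_add]; ring
      rw [this]
      simp [hu]
    have h2 : (LaurentPolynomial.C u * LaurentPolynomial.T 1 : ℂ[T;T⁻¹]) *
        (LaurentPolynomial.C u⁻¹ * LaurentPolynomial.T (-1)) = 1 := by
      have : (LaurentPolynomial.C u * LaurentPolynomial.T 1 : ℂ[T;T⁻¹]) *
        (LaurentPolynomial.C u⁻¹ * LaurentPolynomial.T (-1)) =
        LaurentPolynomial.C (u * u⁻¹) * LaurentPolynomial.T (1 + -1) := by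
        rw [map_mul, LaurentPolynomial.T_add]; ring
      rw [this]
      simp [hu]
    cases e
    · have : topL u (1, false) = LaurentPolynomial.C (u + u⁻¹)⁻¹ •
        !![LaurentPolynomial.C u * LaurentPolynomial.T 1, 1;
        1, LaurentPolynomial.C u⁻¹ * LaurentPolynomial.T (-1)] := by
        simp [topL]
      rw [this]
      congr 1
      ext i j
      fin_cases i <;> fin_cases j <;>
        simp only [tvc, tvr, Matrix.vecMulVec_apply, Bool.false_eq_true, if_false, Fin.zero_eta,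
          Fin.mk_one, Matrix.cons_val_zero, Matrix.cons_val_one, Matrix.of_apply, mul_one, one_mul,
          Matrix.cons_val', Matrix.cons_val_fin_one, h2]
    · have : topL u (1, true) = LaurentPolynomial.C (u + u⁻¹)⁻¹ •
        !![LaurentPolynomial.C (-u⁻¹) * LaurentPolynomial.T (-1), 1;
        1, LaurentPolynomial.C (-u) * LaurentPolynomial.T 1] := by
        simp [topL]
      rw [this]
      congr 1
      ext i j
      fin_cases i <;> fin_cases j <;>
        simp only [tvc, tvr, Matrix.vecMulVec_apply, if_true, Fin.zero_eta,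
          Fin.mk_one, Matrix.cons_val_zero, Matrix.cons_val_one, Matrix.of_apply, mul_one, one_mul,
          Matrix.cons_val', Matrix.cons_val_fin_one, h1]

/-- The matrix of a substituted block. -/
noncomputable def tvB (u : ℂ) (j : ℤ) (q : ℤ × Bool) : Matrix (Fin 2) (Fin 2) ℂ[T;T⁻¹] :=
  LaurentPolynomial.C (u + u⁻¹)⁻¹ •
    Matrix.vecMulVec (tvX u q.1 *ᵥ tvcj u j q.2) (tvrj u j q.2)

theorem tv_flat_x (j : ℤ) (k : ℕ) (b : Bool) :
    (List.replicate k ((0 : Fin 2), b)).flatMap (tl j) = List.replicate k ((0 : Fin 2), b) := by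
  induction k with
  | zero => rfl
  | succ k ih =>
    rw [List.replicate_succ, List.flatMap_cons, ih]
    simp [tl]

theorem tv_tlY {u : ℂ} (hu : u ≠ 0) (j : ℤ) (e : Bool) :
    ((tl j (1, e)).map (topL u)).prod =
      LaurentPolynomial.C (u + u⁻¹)⁻¹ • Matrix.vecMulVec (tvcj u j e) (tvrj u j e) := by
  cases e
  · have : tl j (1, false) = xw (-j) ++ [(1, false)] := by simp [tl]
    rw [this, List.map_append, List.prod_append, tv_xw hu, List.map_cons, List.map_nil,
      List.prod_singleton, tv_topY, Matrix.mul_smul, Matrix.mul_vecMulVec]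
    congr 2
    simp [tvrj, tvX_zero]
  · have : tl j (1, true) = (1, true) :: xw j := by simp [tl]
    rw [this, List.map_cons, List.prod_cons, tv_xw hu, tv_topY, Matrix.smul_mul,
      Matrix.vecMulVec_mul]
    congr 2
    simp [tvcj, tvX_zero]

theorem tv_block {u : ℂ} (hu : u ≠ 0) (j : ℤ) (l : List (ℤ × Bool)) :
    ((tww j (wd l)).map (topL u)).prod = (l.map (tvB u j)).prod := by
  induction l with
  | nil => simp [wd, tww]
  | cons q l ih =>
    have h : tww j (wd (q :: l)) = xw q.1 ++ (tl j (1, q.2) ++ tww j (wd l)) := by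
      simp only [tww, wd, List.flatMap_cons, List.flatMap_append, List.append_assoc]
      rw [xw, tv_flat_x]
      simp
    rw [h, List.map_append, List.prod_append, List.map_append, List.prod_append, ih, tv_xw hu,
      tv_tlY hu, List.map_cons, List.prod_cons, ← mul_assoc]
    congr 1
    rw [tvB, Matrix.mul_smul, Matrix.mul_vecMulVec]

theorem tv_row {u : ℂ} (j : ℤ) (l : List (ℤ × Bool)) : ∀ e : Bool,
    tvrj u j e ᵥ* (l.map (tvB u j)).prod =
      (LaurentPolynomial.C (u + u⁻¹)⁻¹ ^ l.length * ((trs e l).map (tvf u j)).prod) •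
        tvrj u j (lst e l) := by
  induction l with
  | nil => intro e; simp [trs, lst]
  | cons q l ih =>
    intro e
    rw [List.map_cons, List.prod_cons, ← Matrix.vecMul_vecMul]
    have h1 : tvrj u j e ᵥ* tvB u j q = (LaurentPolynomial.C (u + u⁻¹)⁻¹ *
        tvf u j (e, q.1, q.2)) • tvrj u j q.2 := by
      rw [tvB, Matrix.vecMul_smul, Matrix.vecMul_vecMulVec, smul_smul]
      rfl
    rw [h1, Matrix.smul_vecMul, ih, smul_smul]
    have h2 : lst e (q :: l) = lst q.2 l := rfl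
    have h3 : trs e (q :: l) = (e, q.1, q.2) :: trs q.2 l := rfl
    rw [h2, h3, List.map_cons, List.prod_cons, List.length_cons, pow_succ]
    congr 1
    ring

theorem tv_cons {u : ℂ} (j : ℤ) (q : ℤ × Bool) (l : List (ℤ × Bool)) :
    ((q :: l).map (tvB u j)).prod =
      (LaurentPolynomial.C (u + u⁻¹)⁻¹ ^ (l.length + 1) * ((trs q.2 l).map (tvf u j)).prod) •
        Matrix.vecMulVec (tvX u q.1 *ᵥ tvcj u j q.2) (tvrj u j (lst q.2 l)) := by
  rw [List.map_cons, List.prod_cons, tvB, Matrix.smul_mul, Matrix.vecMulVec_mul, tv_row,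
    Matrix.vecMulVec_smul, smul_smul, pow_succ]
  congr 1
  ring

/-- The factor of a copy. -/
noncomputable def tvg (u : ℂ) (q : ℤ × Bool) (l : List (ℤ × Bool)) (j : ℤ) : ℂ[T;T⁻¹] :=
  LaurentPolynomial.C (u + u⁻¹)⁻¹ ^ (l.length + 1) * ((trs q.2 l).map (tvf u j)).prod

theorem tv_prod {u : ℂ} (hu : u ≠ 0) (n : ℕ) (q : ℤ × Bool) (l : List (ℤ × Bool)) (m : ℕ) :
    ((vM n (wd (q :: l)) (m + 1)).map (topL u)).prod =
      ((∏ i ∈ Finset.range (m + 1), tvg u q l (-(4 * n * i : ℕ))) *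
        ∏ i ∈ Finset.range m, (tvrj u (-(4 * n * (i + 1) : ℕ)) (lst q.2 l) ⬝ᵥ
          (tvX u q.1 *ᵥ tvcj u (-(4 * n * i : ℕ)) q.2))) •
        Matrix.vecMulVec (tvX u q.1 *ᵥ tvcj u (-(4 * n * m : ℕ)) q.2)
          (tvrj u (-(4 * n * 0 : ℕ)) (lst q.2 l)) := by
  induction m with
  | zero =>
    rw [vM, vM, List.append_nil, tv_block hu, tv_cons]
    simp [tvg]
  | succ m ih =>
    rw [vM, List.map_append, List.prod_append, ih, tv_block hu, tv_cons, Matrix.smul_mul,
      Matrix.mul_smul, Matrix.vecMulVec_mul_vecMulVec, Matrix.vecMulVec_smul, smul_smul, smul_smul]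
    congr 1
    rw [Finset.prod_range_succ _ (m + 1), Finset.prod_range_succ (fun i : ℕ =>
      (tvrj u (-(4 * n * (i + 1) : ℕ)) (lst q.2 l) ⬝ᵥ
          (tvX u q.1 *ᵥ tvcj u (-(4 * n * i : ℕ)) q.2))) m]
    simp only [tvg]
    ring

theorem tv_trace {u : ℂ} (hu : u ≠ 0) (n : ℕ) (q : ℤ × Bool) (l : List (ℤ × Bool)) (m : ℕ) :
    ((vM n (wd (q :: l)) (m + 1)).map (topL u)).prod.trace =
      (∏ i ∈ Finset.range (m + 1), tvg u q l (-(4 * n * i : ℕ))) *
        ((∏ i ∈ Finset.range m, (tvrj u (-(4 * n * (i + 1) : ℕ)) (lst q.2 l) ⬝ᵥ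
          (tvX u q.1 *ᵥ tvcj u (-(4 * n * i : ℕ)) q.2))) *
        (tvrj u (-(4 * n * 0 : ℕ)) (lst q.2 l) ⬝ᵥ
          (tvX u q.1 *ᵥ tvcj u (-(4 * n * m : ℕ)) q.2))) := by
  rw [tv_prod hu, Matrix.trace_smul, Matrix.trace_vecMulVec, smul_eq_mul, mul_assoc,
    dotProduct_comm (tvX u q.1 *ᵥ tvcj u (-(4 * n * m : ℕ)) q.2)]

theorem tv_shift {S : Type*} [CommRing S] (R K : ℕ → Fin 2 → S) (m : ℕ)
    (h : (∀ i, K i = K 0) ∨ (∀ i, R i = R 0)) :
    (∏ i ∈ Finset.range m, (R (i + 1) ⬝ᵥ K i)) * (R 0 ⬝ᵥ K m) =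
      ∏ i ∈ Finset.range (m + 1), (R i ⬝ᵥ K i) := by
  rcases h with h | h
  · have h1 : ∀ i, R (i + 1) ⬝ᵥ K i = R (i + 1) ⬝ᵥ K (i + 1) := by
      intro i
      rw [h i, h (i + 1)]
    rw [Finset.prod_range_succ', h m]
    simp only [h1]
  · have h1 : ∀ i, R (i + 1) ⬝ᵥ K i = R i ⬝ᵥ K i := by
      intro i
      rw [h i, h (i + 1)]
    rw [Finset.prod_range_succ, h m]
    simp only [h1]

theorem tv_trace' {u : ℂ} (hu : u ≠ 0) (n : ℕ) (q : ℤ × Bool) (l : List (ℤ × Bool)) (m : ℕ)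
    (hi : ¬ (lst q.2 l = true ∧ q.2 = false)) :
    ((vM n (wd (q :: l)) (m + 1)).map (topL u)).prod.trace =
      ∏ i ∈ Finset.range (m + 1), (LaurentPolynomial.C (u + u⁻¹)⁻¹ ^ (l.length + 1) *
        ((cyc (q :: l)).map (tvf u (-(4 * n * i : ℕ)))).prod) := by
  have key := tv_shift (fun i => tvrj u (-(4 * n * i : ℕ)) (lst q.2 l))
    (fun i => tvX u q.1 *ᵥ tvcj u (-(4 * n * i : ℕ)) q.2) m (by
      rcases Bool.eq_false_or_eq_true (lst q.2 l) with h | h
      · left
        have h2 : q.2 = true := by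
          rcases Bool.eq_false_or_eq_true q.2 with h3 | h3
          · exact h3
          · exact absurd ⟨h, h3⟩ hi
        intro i
        simp only [h2, tvcj, if_true]
      · right
        intro i
        simp only [h, tvrj, Bool.false_eq_true, if_false])
  rw [tv_trace hu, key, ← Finset.prod_mul_distrib]
  apply Finset.prod_congr rfl
  intro i _
  have h3 : cyc (q :: l) = (lst q.2 l, q.1, q.2) :: trs q.2 l := rfl
  have h4 : tvf u (-(4 * n * i : ℕ)) (lst q.2 l, q.1, q.2) =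
    (tvrj u (-(4 * n * i : ℕ)) (lst q.2 l) ⬝ᵥ (tvX u q.1 *ᵥ tvcj u (-(4 * n * i : ℕ)) q.2)) := rfl
  rw [h3, List.map_cons, List.prod_cons, tvg, h4]
  ring

/-- The exponent of a transition. -/
def tvex (q : Bool × ℤ × Bool) : ℤ := (if q.1 then 1 else 0) - (if q.2.2 then 1 else 0)

theorem tv_ex_sum (l : List (ℤ × Bool)) : ∀ e : Bool, ((trs e l).map tvex).sum =
    (if e then 1 else 0) - (if lst e l then 1 else 0) := by
  induction l with
  | nil => intro e; cases e <;> rfl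
  | cons q l ih =>
    intro e
    have h2 : lst e (q :: l) = lst q.2 l := rfl
    have h3 : trs e (q :: l) = (e, q.1, q.2) :: trs q.2 l := rfl
    rw [h2, h3, List.map_cons, List.sum_cons, ih, tvex]
    ring

theorem tv_ex_cyc (q : ℤ × Bool) (l : List (ℤ × Bool)) : ((cyc (q :: l)).map tvex).sum = 0 := by
  rw [cyc, tv_ex_sum]
  have h2 : lst (lst true (q :: l)) (q :: l) = lst true (q :: l) := rfl
  rw [h2, sub_self]

theorem tv_f_eq {u : ℂ} (hu : u ≠ 0) (j : ℤ) (q : Bool × ℤ × Bool) :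
    tvf u j q = tvr u q.1 ⬝ᵥ (tvX u ((if q.1 then j else 0) + (q.2.1 +
      (if q.2.2 then 0 else -j))) *ᵥ tvc u q.2.2) := by
  rw [tvf, tvrj, tvcj, ← Matrix.dotProduct_mulVec, Matrix.mulVec_mulVec, Matrix.mulVec_mulVec,
    tvX_add hu, tvX_add hu, mul_assoc]

theorem tv_dot (u : ℂ) (k : ℤ) (a b : Fin 2 → ℂ[T;T⁻¹]) : a ⬝ᵥ (tvX u k *ᵥ b) =
    a 0 * (LaurentPolynomial.C (u ^ (-k)) * b 0) +
      a 1 * (LaurentPolynomial.C ((-u) ^ k) * b 1) := by
  simp [dotProduct, tvX, Matrix.mulVec, Fin.sum_univ_two]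

theorem tv_f_opp {u : ℂ} (hu : u ≠ 0) (j : ℤ) (q : Bool × ℤ × Bool) (h : q.1 ≠ q.2.2) :
    tvf u j q = LaurentPolynomial.C (oc u q) * LaurentPolynomial.T (tvex q) := by
  obtain ⟨e, b, e'⟩ := q
  rw [tv_f_eq hu, tv_dot]
  cases e <;> cases e'
  · exact absurd rfl h
  · simp only [tvr, tvc, oc, tvex, Bool.false_eq_true, if_false, if_true, Matrix.cons_val_zero,
      Matrix.cons_val_one, Matrix.cons_val_fin_one, zero_add, add_zero, zero_sub, one_mul, mul_one,
      map_sub, map_mul, map_neg]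
    ring
  · have h1 : j + (b + -j) = b := by ring
    simp only [tvr, tvc, oc, tvex, Bool.false_eq_true, if_false, if_true, Matrix.cons_val_zero,
      Matrix.cons_val_one, Matrix.cons_val_fin_one, sub_zero, one_mul, mul_one, h1,
      map_sub, map_mul, map_neg]
    ring
  · exact absurd rfl h

theorem tv_f_same {u : ℂ} (hu : u ≠ 0) (n i : ℕ) (q : Bool × ℤ × Bool) (h : q.1 = q.2.2) :
    tvf u (-(4 * n * i : ℕ)) q =
      LaurentPolynomial.C (al u q * ((u ^ (4 * n))⁻¹) ^ i) * LaurentPolynomial.T 1 +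
      LaurentPolynomial.C (be u q * (u ^ (4 * n)) ^ i) * LaurentPolynomial.T (-1) := by
  obtain ⟨e, b, e'⟩ := q
  have hn : (-u) ≠ 0 := neg_ne_zero.2 hu
  rw [tv_f_eq hu, tv_dot]
  have h0 : ((u ^ (4 * n))⁻¹) ^ i = u ^ (-((4 * n * i : ℕ) : ℤ)) := by
    rw [inv_pow, ← pow_mul, zpow_neg, zpow_natCast]
  have h0' : (u ^ (4 * n)) ^ i = u ^ ((4 * n * i : ℕ) : ℤ) := by
    rw [← pow_mul, zpow_natCast]
  have hev : ∀ k : ℤ, k = ((4 * n * i : ℕ) : ℤ) ∨ k = -((4 * n * i : ℕ) : ℤ) →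
      (-u) ^ k = u ^ k := by
    intro k hk
    apply Even.neg_zpow
    rcases hk with rfl | rfl
    · exact ⟨2 * n * i, by push_cast; ring⟩
    · exact ⟨-(2 * n * i), by push_cast; ring⟩
  cases e <;> cases e'
  · have h1 : u ^ (-((0 : ℤ) + (b + -(-((4 * n * i : ℕ) : ℤ))))) * u =
        u ^ (1 - b) * u ^ (-((4 * n * i : ℕ) : ℤ)) := by
      rw [← zpow_add₀ hu, ← zpow_add_one₀ hu]
      congr 1
      ring
    have h2 : (-u) ^ ((0 : ℤ) + (b + -(-((4 * n * i : ℕ) : ℤ)))) =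
        (-u) ^ b * u ^ ((4 * n * i : ℕ) : ℤ) := by
      rw [← hev _ (Or.inl rfl), ← zpow_add₀ hn]
      congr 1
      ring
    simp only [tvr, tvc, al, be, Bool.false_eq_true, if_false, Matrix.cons_val_zero,
      Matrix.cons_val_one, Matrix.cons_val_fin_one, one_mul, mul_one, h0, h0']
    rw [h2, ← mul_assoc (LaurentPolynomial.C (u ^ _)), ← map_mul, h1]
    simp only [map_mul]
    ring
  · exact absurd h (by simp)
  · exact absurd h (by simp)
  · have h1 : u ^ (-(-((4 * n * i : ℕ) : ℤ) + (b + 0))) * -u⁻¹ =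
        -u ^ (-1 - b) * u ^ ((4 * n * i : ℕ) : ℤ) := by
      have : u⁻¹ = u ^ (-1 : ℤ) := by rw [zpow_neg_one]
      rw [this, mul_neg, neg_mul, ← zpow_add₀ hu, ← zpow_add₀ hu]
      congr 2
      ring
    have h2 : (-u) ^ (-((4 * n * i : ℕ) : ℤ) + (b + 0)) =
        (-u) ^ b * u ^ (-((4 * n * i : ℕ) : ℤ)) := by
      rw [← hev _ (Or.inr rfl), ← zpow_add₀ hn]
      congr 1
      ring
    simp only [tvr, tvc, al, be, if_true, Matrix.cons_val_zero,
      Matrix.cons_val_one, Matrix.cons_val_fin_one, one_mul, mul_one, h0, h0']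
    rw [h2, ← mul_assoc (LaurentPolynomial.C (u ^ _)), ← map_mul, h1]
    simp only [map_mul, map_neg]
    ring

theorem tv_geo {S : Type*} [CommRing S] [IsDomain S] (a b : S) (m : ℕ) (hm : 0 < m)
    (hev : Even m) (z : S) (hz : IsPrimitiveRoot z m) :
    ∏ i ∈ Finset.range m, (a + b * z ^ i) = a ^ m - b ^ m := by
  have h := X_pow_sub_C_eq_prod hz (α := -b) (a := b ^ m) hm (hev.neg_pow b)
  have h2 := congrArg (Polynomial.eval a) h
  rw [Polynomial.eval_prod] at h2
  simp only [Polynomial.eval_sub, Polynomial.eval_pow, Polynomial.eval_X, Polynomial.eval_C] at h2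
  rw [h2]
  apply Finset.prod_congr rfl
  intro i _
  ring

theorem tv_same_prod (α β ω : ℂ) (M : ℕ) (hM : 4 ∣ M) (hM0 : 0 < M) (hω : IsPrimitiveRoot ω M) :
    ∏ i ∈ Finset.range M, (LaurentPolynomial.C (α * ω⁻¹ ^ i) * LaurentPolynomial.T 1 +
      LaurentPolynomial.C (β * ω ^ i) * LaurentPolynomial.T (-1) : ℂ[T;T⁻¹]) =
      - (LaurentPolynomial.C (β ^ (M / 2)) * LaurentPolynomial.T (-((M / 2 : ℕ) : ℤ)) -
        LaurentPolynomial.C (α ^ (M / 2)) * LaurentPolynomial.T ((M / 2 : ℕ) : ℤ)) ^ 2 := by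
  obtain ⟨k, rfl⟩ := hM
  have hk : 0 < k := by omega
  have hM2 : 4 * k / 2 = 2 * k := by omega
  rw [hM2]
  have hω0 : ω ≠ 0 := hω.ne_zero (by omega)
  set m := 2 * k with hm
  have h4 : 4 * k = m + m := by omega
  have hz : IsPrimitiveRoot (LaurentPolynomial.C (ω ^ 2) : ℂ[T;T⁻¹]) m := by
    apply IsPrimitiveRoot.map_of_injective (f := (LaurentPolynomial.C : ℂ →+* ℂ[T;T⁻¹]))
    · exact hω.pow (by omega) (by omega)
    · intro x y hxy
      have := congrArg (fun f : ℂ[T;T⁻¹] => f.coeff 0) hxy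
      simpa using this
  have hm0 : 0 < m := by omega
  have hev : Even m := ⟨k, by omega⟩
  have hterm : ∀ i : ℕ, (LaurentPolynomial.C (α * ω⁻¹ ^ i) * LaurentPolynomial.T 1 +
      LaurentPolynomial.C (β * ω ^ i) * LaurentPolynomial.T (-1) : ℂ[T;T⁻¹]) =
      LaurentPolynomial.C (ω⁻¹ ^ i) * (LaurentPolynomial.C α * LaurentPolynomial.T 1 +
        LaurentPolynomial.C β * LaurentPolynomial.T (-1) * LaurentPolynomial.C (ω ^ 2) ^ i) := by
    intro i
    have h1 : ω ^ i = ω⁻¹ ^ i * (ω ^ 2) ^ i := by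
      rw [← mul_pow, pow_two, inv_mul_cancel_left₀ hω0]
    have h2 : (LaurentPolynomial.C (β * ω ^ i) : ℂ[T;T⁻¹]) = LaurentPolynomial.C β *
        (LaurentPolynomial.C (ω⁻¹ ^ i) * LaurentPolynomial.C (ω ^ 2) ^ i) := by
      rw [h1, map_mul, map_mul, map_pow (LaurentPolynomial.C) (ω ^ 2) i]
    rw [h2, map_mul]
    ring
  have hωm : ω ^ m = -1 := by
    have h1 : (ω ^ m - 1) * (ω ^ m + 1) = 0 := by
      have : ω ^ (m + m) = 1 := by rw [← h4]; exact hω.pow_eq_one
      rw [pow_add] at this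
      linear_combination this
    rcases mul_eq_zero.1 h1 with h | h
    · exfalso
      have := hω.dvd_of_pow_eq_one m (by linear_combination h)
      have := Nat.le_of_dvd hm0 this
      omega
    · linear_combination h
  have hsign : ∏ i ∈ Finset.range (m + m), (LaurentPolynomial.C (ω⁻¹ ^ i) : ℂ[T;T⁻¹]) = -1 := by
    rw [← map_prod, Finset.prod_pow_eq_pow_sum]
    have h1 : ∑ i ∈ Finset.range (m + m), i = m * (2 * m - 1) := by
      have h2 := Finset.sum_range_id_mul_two (m + m)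
      have h3 : m + m - 1 = 2 * m - 1 := by omega
      rw [h3] at h2
      have h4 : (m + m) * (2 * m - 1) = m * (2 * m - 1) * 2 := by ring
      omega
    have h5 : (2 * m - 1) = 2 * (m - 1) + 1 := by omega
    rw [h1, pow_mul, inv_pow, hωm, h5, pow_succ, pow_mul]
    norm_num
  rw [Finset.prod_congr rfl fun i _ => hterm i, Finset.prod_mul_distrib, h4, hsign,
    Finset.prod_range_add]
  have h6 : ∀ i : ℕ, (LaurentPolynomial.C (ω ^ 2) : ℂ[T;T⁻¹]) ^ (m + i) =
      LaurentPolynomial.C (ω ^ 2) ^ i := by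
    intro i
    rw [pow_add, hz.pow_eq_one, one_mul]
  simp only [h6]
  rw [tv_geo _ _ m hm0 hev _ hz, mul_pow, mul_pow, LaurentPolynomial.T_pow, LaurentPolynomial.T_pow,
    ← map_pow, ← map_pow]
  have h7 : ((m : ℤ) * (-1)) = -(m : ℤ) := by ring
  rw [h7, mul_one]
  ring

theorem tv_list_prod {ι S : Type*} [CommRing S] (F : ℕ → ι → S) (M : ℕ) (L : List ι) :
    ∏ i ∈ Finset.range M, (L.map (F i)).prod =
      (L.map fun q => ∏ i ∈ Finset.range M, F i q).prod := by
  induction L with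
  | nil => simp
  | cons q L ih => simp only [List.map_cons, List.prod_cons, Finset.prod_mul_distrib, ih]

theorem tv_split (u : ℂ) (M : ℕ) (G : Bool × ℤ × Bool → ℂ[T;T⁻¹]) (L : List (Bool × ℤ × Bool)) :
    (L.map fun q => if q.1 = q.2.2 then -G q else (LaurentPolynomial.C (oc u q) *
      LaurentPolynomial.T (tvex q)) ^ M).prod =
    LaurentPolynomial.C ((((L.filter fun q => q.1 != q.2.2).map (oc u)).prod) ^ M) *
      LaurentPolynomial.T (M * (L.map tvex).sum) *
      ((-1) ^ (L.filter fun q => q.1 == q.2.2).length *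
        ((L.filter fun q => q.1 == q.2.2).map G).prod) := by
  induction L with
  | nil => simp
  | cons q L ih =>
    rw [List.map_cons, List.prod_cons, ih]
    by_cases h : q.1 = q.2.2
    · have h0 : tvex q = 0 := by rw [tvex, h, sub_self]
      rw [if_pos h, List.filter_cons_of_neg (by simp [h]), List.filter_cons_of_pos (by simp [h]),
        List.map_cons, List.sum_cons, List.map_cons, List.prod_cons, List.length_cons, h0,
        zero_add, pow_succ]
      ring
    · rw [if_neg h, List.filter_cons_of_pos (by simp [h]), List.filter_cons_of_neg (by simp [h]),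
        List.map_cons (f := tvex), List.sum_cons, List.map_cons (f := oc u), List.prod_cons, mul_add,
        LaurentPolynomial.T_add, mul_pow, mul_pow, map_mul, ← map_pow, LaurentPolynomial.T_pow]
      ring

theorem topT_vM (n M : ℕ) (hn : 0 < n) (hM : 4 ∣ M) (hM0 : 0 < M) (l : List (ℤ × Bool)) (hl : l ≠ [])
    (hi : ¬ (lst true l = true ∧ ∀ q ∈ l.head?, q.2 = false)) (u : ℂ) (hu0 : u ≠ 0)
    (hu1 : u ^ 2 + 1 ≠ 0) (hu : IsPrimitiveRoot (u ^ (4 * n)) M) :
    topT (vM n (wd l) M) u = kap l u ^ M * ((-1) ^ (same l).length *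
      Kc ((same l).map fun q => (be u q ^ (M / 2), al u q ^ (M / 2))) (M / 2)) := by
  obtain ⟨q, l, rfl⟩ := List.exists_cons_of_ne_nil hl
  obtain ⟨m, rfl⟩ : ∃ m, M = m + 1 := ⟨M - 1, by omega⟩
  have hi' : ¬ (lst q.2 l = true ∧ q.2 = false) := by
    rintro ⟨h1, h2⟩
    exact hi ⟨h1, by simpa using h2⟩
  rw [topT, tv_trace' hu0 n q l m hi', Finset.prod_mul_distrib, tv_list_prod,
    Finset.prod_const, Finset.card_range]
  have h1 : ((cyc (q :: l)).map fun q => ∏ i ∈ Finset.range (m + 1),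
      tvf u (-(4 * n * i : ℕ)) q) =
      ((cyc (q :: l)).map fun q => if q.1 = q.2.2 then
        -(LaurentPolynomial.C (be u q ^ ((m + 1) / 2)) *
          LaurentPolynomial.T (-(((m + 1) / 2 : ℕ) : ℤ)) -
        LaurentPolynomial.C (al u q ^ ((m + 1) / 2)) *
          LaurentPolynomial.T (((m + 1) / 2 : ℕ) : ℤ)) ^ 2
        else (LaurentPolynomial.C (oc u q) * LaurentPolynomial.T (tvex q)) ^ (m + 1)) := by
    apply List.map_congr_left
    intro q _
    by_cases h : q.1 = q.2.2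
    · rw [if_pos h, ← tv_same_prod _ _ _ _ hM hM0 hu]
      apply Finset.prod_congr rfl
      intro i _
      rw [tv_f_same hu0 n i q h]
    · rw [if_neg h]
      simp only [tv_f_opp hu0 _ q h, Finset.prod_const, Finset.card_range]
  rw [h1, tv_split u (m + 1) (fun q => (LaurentPolynomial.C (be u q ^ ((m + 1) / 2)) *
          LaurentPolynomial.T (-(((m + 1) / 2 : ℕ) : ℤ)) -
        LaurentPolynomial.C (al u q ^ ((m + 1) / 2)) *
          LaurentPolynomial.T (((m + 1) / 2 : ℕ) : ℤ)) ^ 2), tv_ex_cyc, mul_zero,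
    LaurentPolynomial.T_zero, mul_one, ← map_pow, ← map_pow, ← mul_assoc, ← map_mul, ← mul_assoc]
  have h2 : (-1 : ℂ[T;T⁻¹]) = LaurentPolynomial.C (-1) := by simp
  have h3 : (LaurentPolynomial.C ((((u + u⁻¹)⁻¹ ^ (l.length + 1)) ^ (m + 1)) *
      (((cyc (q :: l)).filter fun q => q.1 != q.2.2).map (oc u)).prod ^ (m + 1)) : ℂ[T;T⁻¹]) =
      LaurentPolynomial.C (kap (q :: l) u ^ (m + 1)) := by
    rw [kap, opp, ← mul_pow, List.length_cons, inv_pow, div_eq_inv_mul]
  rw [h3, h2, ← map_pow, ← map_mul, cte_Cmul, mul_assoc, Kc, same, List.map_map]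
  rfl

end Pool.Agent.AMH
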