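import Pool.Agent.AMG.Final
import Pool.Agent.AMH.AltComm
import Pool.Agent.AMH.ClTop
import Pool.Agent.AMH.DPow
import Pool.Agent.AMH.FailConj
import Pool.Agent.AMH.GLim
import Pool.Agent.AMH.GSum
import Pool.Agent.AMH.KL
import Pool.Agent.AMH.KapA
import Pool.Agent.AMH.KcA
import Pool.Agent.AMH.KcB
import Pool.Agent.AMH.NFEx
import Pool.Agent.AMH.PhLim
import Pool.Agent.AMH.PhiRigid
import Pool.Agent.AMH.StarC
import Pool.Agent.AMH.Sum0
import Pool.Agent.AMH.SymReg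
import Pool.Agent.AMH.TId
import Pool.Agent.AMH.TPos
import Pool.Agent.AMH.TopV

/-!
# AMH, module Core: failure in all windows of one parity
-/

open scoped BigOperators LaurentPolynomial Matrix Topology
open Polynomial Filter

namespace Pool.Agent.AMH

open Pool.Agent.AMG

theorem core {n : ℕ} (hn : 0 < n) (v : List (Fin 2 × Bool)) (p : ℕ)
    (hf : ∀ C : ℕ, C % 2 = p % 2 → FailW C n v) :
    ∃ (h : GT) (γ : FreeGroup (Fin 2)),
      h * (tt ^ (4 * (n : ℤ)) * inc (FreeGroup.mk v)) * h⁻¹ = tt ^ (4 * (n : ℤ)) * inc γ ∧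
      Simple γ ∧ Commute tt (inc γ) := by
  have dp : ∀ (C n : ℕ) {A : ℂ} (_ : A ≠ 0) (v : List (Fin 2 × Bool)) (M : ℕ),
      (DW C A ^ n * wordW C A v) ^ M = DW C A ^ (n * M) * wordW C A (vM n v M) :=
    fun C n A hA v M => dpow C n hA v M
  have dt : ∀ (C : ℕ) {A : ℂ} (_ : A ≠ 0) (j : ℕ) (v : List (Fin 2 × Bool)),
      DW C A ^ j * wordW C A (tww (-(4 * j : ℕ)) v) = wordW C A v * DW C A ^ j :=
    fun C A hA j v => dtw C hA j v
  obtain ⟨h, hh⟩ := nf_exists n hn (FreeGroup.mk v)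
  have hconj : ∀ γ : FreeGroup (Fin 2), tau (-(4 * n : ℕ)) h * FreeGroup.mk v * h⁻¹ = γ →
      inc h * (tt ^ (4 * (n : ℤ)) * inc (FreeGroup.mk v)) * (inc h)⁻¹ =
        tt ^ (4 * (n : ℤ)) * inc γ := by
    rintro γ rfl
    have h1 := conj_tt (-(4 * n : ℕ)) h
    have h2 : tt ^ (-((4 * n : ℕ) : ℤ)) = (tt ^ (4 * (n : ℤ)))⁻¹ := by
      rw [← zpow_neg]
      congr 1
    rw [h2, inv_inv] at h1
    rw [map_mul, map_mul, map_inv, ← h1]
    group
  have hfail : ∀ v' : List (Fin 2 × Bool),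
      FreeGroup.mk v' = tau (-(4 * n : ℕ)) h * FreeGroup.mk v * h⁻¹ →
      ∀ C : ℕ, C % 2 = p % 2 → FailW C n v' := fun v' hv' C hC => fail_conj dt h hv' (hf C hC)
  rcases hh with ⟨b, hb⟩ | ⟨l, hl, hlv⟩
  · refine ⟨inc h, FreeGroup.of 0 ^ b, hconj _ hb, Or.inl ⟨MulEquiv.refl _, b, rfl⟩, ?_⟩
    rw [map_zpow]
    exact comm_x.zpow_right b
  · have hF := hfail (wd l) hlv.symm
    obtain ⟨hl1, hl2, hl3⟩ := hl
    -- the traces
    have hph : ∀ {n : ℕ} (_ : 0 < n) {v : List (Fin 2 × Bool)} {p : ℕ}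
        (_ : ∀ C : ℕ, C % 2 = p % 2 → FailW C n v) (m : ℕ) (_ : 0 < m) (ρ : ℝ) (_ : 0 < ρ)
        (_ : ρ ≠ 1) (_ : ρ < 2),
        Ph n v (4 * m) 0 0 (Real.pi * ρ / (6 * (n * (4 * m)))) +
          (if 1 < ρ then Ph n v (4 * m) 1 0 (Real.pi * ρ / (6 * (n * (4 * m)))) +
            Ph n v (4 * m) (-1) 0 (Real.pi * ρ / (6 * (n * (4 * m)))) else 0) = 0 :=
      ph_lim (sum0 dp (starC dp)) (glim kl gsum) sym_reg
    have htid := fun (m : ℕ) (hm : 0 < m) => tid hph cl_top hn hF m hm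
    obtain ⟨K, hK, hpos⟩ := tpos topT_vM Kc_exp Kc_pos kap_abs n hn l hl1 hl3
    have hstep : ∀ i : ℕ, phi l (Real.pi / (2 * (n * (4 * 3 ^ (i + 1) : ℕ)))) ^ (4 * 3 ^ (i + 1)) =
        phi l (Real.pi / (2 * (n * (4 * 3 ^ i : ℕ)))) ^ (4 * 3 ^ i) := by
      intro i
      set u : ℂ := Complex.exp ((Real.pi / (6 * (n * (4 * (3 ^ i : ℕ)))) : ℝ) * Complex.I) with hu
      have h1 := htid (3 ^ i) (by positivity) u (by rw [hu])
      have e1 : 3 * (4 * 3 ^ i) = 4 * 3 ^ (i + 1) := by ring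
      have h2 := hpos (i + 1) u (by
        rw [hu]
        congr 3
        push_cast
        ring_nf)
      have h3 := hpos i (u ^ 3) (by
        rw [hu, ← Complex.exp_nat_mul]
        congr 1
        push_cast
        field_simp
        ring)
      rw [e1, h2, h3] at h1
      have h4 : 2 * phi l (Real.pi / (2 * (n * (4 * 3 ^ (i + 1) : ℕ)))) ^ (4 * 3 ^ (i + 1)) * K =
          2 * phi l (Real.pi / (2 * (n * (4 * 3 ^ i : ℕ)))) ^ (4 * 3 ^ i) * K := by
        exact_mod_cast h1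
      have h5 := mul_right_cancel₀ hK.ne' h4
      linarith
    have hconst : ∀ i : ℕ, phi l (Real.pi / (2 * (n * (4 * 3 ^ i : ℕ)))) ^ (4 * 3 ^ i) =
        phi l (Real.pi / (2 * (n * (4 * 3 ^ 0 : ℕ)))) ^ (4 * 3 ^ 0) := by
      intro i
      induction i with
      | zero => rfl
      | succ i ih => rw [hstep, ih]
    have hrig := phi_rigid n hn l hl1 hl2 _ hconst
    obtain ⟨htau, hcomm⟩ := alt_comm l ⟨hl1, hl2, hl3⟩ (fun q hq => (hrig q hq).1)
    refine ⟨inc h, nfv l, hconj _ hlv, ?_, hcomm⟩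
    refine simple_of_fail (wd l) p fun C hC r0 => ?_
    obtain ⟨r, hr, A, hA, k, hk, z, hz⟩ := hF C hC (max r0 (C + 2))
    have hr0 : r0 ≤ r := le_trans (le_max_left _ _) hr
    have hr1 : C + 2 ≤ r := le_trans (le_max_right _ _) hr
    have hgood := good_of_prim hr1 hA
    have hA0 : A ≠ 0 := hgood.1
    have h1 : DW C A ^ n * wordW C A (wd l) = wordW C A (wd l) * DW C A ^ n := by
      rw [← dtw C hA0 n (wd l), wordW_mk hgood (tww (-(4 * n : ℕ)) (wd l)) (wd l)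
        (by rw [mk_tww]; exact htau _)]
    have hD : DW C A ^ (4 * r) = 1 := by
      rw [DW, Matrix.diagonal_pow, ← Matrix.diagonal_one]
      congr 1
      funext q
      simp only [Pi.pow_apply]
      rw [← zpow_natCast, ← zpow_mul, mul_comm, zpow_mul, zpow_natCast, hA.pow_eq_one, one_zpow]
    refine ⟨r, hr0, A, hA, k * (4 * r), Nat.mul_pos hk (by omega), z ^ (4 * r), ?_⟩
    have h2 : (DW C A ^ n * wordW C A (wd l)) ^ k = DW C A ^ (n * k) * wordW C A (wd l) ^ k := by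
      have hc : Commute (DW C A ^ n) (wordW C A (wd l)) := h1
      rw [hc.mul_pow, ← pow_mul]
    rw [h2] at hz
    have hc2 : Commute (DW C A ^ (n * k)) (wordW C A (wd l) ^ k) := by
      have hc : Commute (DW C A ^ n) (wordW C A (wd l)) := h1
      rw [pow_mul]
      exact (hc.pow_left k).pow_right k
    have h3 : (DW C A ^ (n * k) * wordW C A (wd l) ^ k) ^ (4 * r) = wordW C A (wd l) ^ (k * (4 * r)) := by
      rw [hc2.mul_pow, ← pow_mul, mul_comm (n * k), pow_mul, hD, one_pow, one_mul, ← pow_mul]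
    rw [← h3, hz, _root_.smul_pow, one_pow]

end Pool.Agent.AMH
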