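import Pool.Agent.AMG.Defs

/-!
# Mapping classes of the torus with two boundary components which fix a curve of the torus

`t` is the Dehn twist of `Σ_{1,2}` along the meridian coloured `a`. Together with the point pushes
`x`, `y` it generates, modulo the Dehn twists along the boundary, the stabiliser in `Mod(Σ_{1,2})`
of the homology class of the meridian in `H_1` of the torus. One has `t x = x t` and
`t y t⁻¹ = y x`.
-/

namespace Pool.Agent.AMH

open Pool.Agent.AMG

/-- The relations `t x = x t` and `t y t⁻¹ = y x` (`x = of 0`, `y = of 1`, `t = of 2`). -/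
def rels : Set (FreeGroup (Fin 3)) :=
  {FreeGroup.of 2 * FreeGroup.of 0 * (FreeGroup.of 2)⁻¹ * (FreeGroup.of 0)⁻¹,
    FreeGroup.of 2 * FreeGroup.of 1 * (FreeGroup.of 2)⁻¹ * (FreeGroup.of 1 * FreeGroup.of 0)⁻¹}

/-- The group generated by the point pushes and the Dehn twist `t`. -/
abbrev GT : Type := PresentedGroup rels

/-- The Dehn twist. -/
def tt : GT := PresentedGroup.of 2

/-- The inclusion of the point pushes. -/
def inc : FreeGroup (Fin 2) →* GT := FreeGroup.lift fun i => PresentedGroup.of (Fin.castSucc i)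

/-- The mapping class of a word. -/
def gval (w : List (Fin 3 × Bool)) : GT := PresentedGroup.mk rels (FreeGroup.mk w)

/-- The action of the Dehn twist `t`: `e_(a,b) ↦ μ_a e_(a,b)`. -/
noncomputable def twT (r c : ℕ) (A : ℂ) : Matrix (Col r c) (Col r c) ℂ :=
  Matrix.diagonal fun p => tw A p.1.1

/-- The action of a word in `x = (0, true)`, `x⁻¹ = (0, false)`, `y = (1, true)`,
`y⁻¹ = (1, false)`, `t = (2, true)`, `t⁻¹ = (2, false)`. -/
noncomputable def wordMatT (r c : ℕ) (A : ℂ) (w : List (Fin 3 × Bool)) :
    Matrix (Col r c) (Col r c) ℂ :=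
  (w.map fun l => match l with
    | (0, true) => pushX r c A
    | (0, false) => (pushX r c A)⁻¹
    | (1, true) => pushY r c A
    | (1, false) => (pushY r c A)⁻¹
    | (2, true) => twT r c A
    | (2, false) => (twT r c A)⁻¹).prod

/-- Some positive power of `g` is conjugate to a multitwist: to `t ^ n` times a power `γ` of a
simple loop, where `γ` commutes with `t` if `n ≠ 0`. -/
def Elem (g : GT) : Prop :=
  ∃ (k : ℕ) (h : GT) (n : ℤ) (γ : FreeGroup (Fin 2)), 0 < k ∧ h * g ^ k * h⁻¹ = tt ^ n * inc γ ∧
    Simple γ ∧ (n = 0 ∨ Commute tt (inc γ))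

/-- The word `w` has infinite order in the projective representation on
`V_r(Σ_{1,2}; c, 1)` at the root of unity `A`: the space is not zero and no positive power acts as
a scalar. -/
def InfOrderT (r c : ℕ) (A : ℂ) (w : List (Fin 3 × Bool)) : Prop :=
  Nonempty (Col r c) ∧ ∀ n : ℕ, 0 < n → ∀ z : ℂ, wordMatT r c A w ^ n ≠ z • 1

end Pool.Agent.AMH
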