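import Pool.Agent.AMH.Defs
import Pool.Agent.AMG.DefsB

/-!
# Auxiliary definitions: the window form of the twist, substituted words, the top coefficients
-/

open scoped BigOperators LaurentPolynomial Matrix

namespace Pool.Agent.AMH

open Pool.Agent.AMG

/-- The sign of a spin. -/
def sg (s : Fin 2) : ℤ := if s = 0 then 1 else -1

/-- The fourth power of the twist on the window. -/
def DW {F : Type*} [Field F] (C : ℕ) (A : F) : Matrix (Win C) (Win C) F :=
  Matrix.diagonal fun p => A ^ ((2 * (p.1 : ℤ) - C + sg p.2) ^ 2)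

/-- The word of `x ^ b`. -/
def xw (b : ℤ) : List (Fin 2 × Bool) := List.replicate b.natAbs (0, decide (0 ≤ b))

/-- The substitution `y ↦ y x ^ j` on letters. -/
def tl (j : ℤ) (l : Fin 2 × Bool) : List (Fin 2 × Bool) :=
  if l.1 = 0 then [l] else if l.2 then l :: xw j else xw (-j) ++ [l]

/-- The substitution `y ↦ y x ^ j` on words. -/
def tww (j : ℤ) (w : List (Fin 2 × Bool)) : List (Fin 2 × Bool) := w.flatMap (tl j)

/-- The word `v_M` with `(D ^ n P_v) ^ M = D ^ (n M) P_{v_M}`. -/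
def vM (n : ℕ) (v : List (Fin 2 × Bool)) : ℕ → List (Fin 2 × Bool)
  | 0 => []
  | M + 1 => tww (-(4 * n * M : ℕ)) v ++ vM n v M

/-- The inverse word. -/
def iw (v : List (Fin 2 × Bool)) : List (Fin 2 × Bool) := (v.map fun l => (l.1, !l.2)).reverse

/-- The number of letters `y`, `y⁻¹`. -/
def ny (w : List (Fin 2 × Bool)) : ℕ := w.countP fun l => decide (l.1 = 1)

/-- The classical trace. -/
noncomputable def clC (w : List (Fin 2 × Bool)) (x v : ℂ) : ℂ := ∑ s : Fin 2, sym w s s 0 x 1 v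

/-- The function in the Gauss sum. -/
noncomputable def Ph (n : ℕ) (v : List (Fin 2 × Bool)) (M : ℕ) (x α β : ℝ) : ℂ :=
  ∑ s : Fin 2, Complex.exp (Real.pi * x * sg s * Complex.I) *
    (sym (vM n v (3 * M)) s s 0 (Complex.exp (Real.pi * x / (6 * (n * M)) * Complex.I))
        (Complex.exp (α * Complex.I)) (Complex.exp (β * Complex.I)) -
      sym (vM n v M) s s 0 (Complex.exp (Real.pi * x / (2 * (n * M)) * Complex.I))
        (Complex.exp (3 * α * Complex.I)) (Complex.exp (3 * β * Complex.I)))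

/-- The top coefficient (in `v⁻¹`) of the classical matrix of a letter, `E = T 1`. -/
noncomputable def topL (u : ℂ) (l : Fin 2 × Bool) : Matrix (Fin 2) (Fin 2) ℂ[T;T⁻¹] :=
  if l.1 = 0 then
    (if l.2 then !![LaurentPolynomial.C u⁻¹, 0; 0, LaurentPolynomial.C (-u)]
      else !![LaurentPolynomial.C u, 0; 0, LaurentPolynomial.C (-u⁻¹)])
  else LaurentPolynomial.C (u + u⁻¹)⁻¹ •
    (if l.2 then !![LaurentPolynomial.C (-u⁻¹) * LaurentPolynomial.T (-1), 1;
        1, LaurentPolynomial.C (-u) * LaurentPolynomial.T 1]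
      else !![LaurentPolynomial.C u * LaurentPolynomial.T 1, 1;
        1, LaurentPolynomial.C u⁻¹ * LaurentPolynomial.T (-1)])

/-- The top coefficient of the classical trace. -/
noncomputable def topT (w : List (Fin 2 × Bool)) (u : ℂ) : ℂ :=
  ((w.map (topL u)).prod).trace.coeff 0

/-- The word `x ^ b₁ y ^ ε₁ ⋯ x ^ b_d y ^ ε_d`. -/
def wd (l : List (ℤ × Bool)) : List (Fin 2 × Bool) := l.flatMap fun q => xw q.1 ++ [(1, q.2)]

/-- The transitions `(ε, b, ε')` of a list, starting with the sign `e`. -/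
def trs : Bool → List (ℤ × Bool) → List (Bool × ℤ × Bool)
  | _, [] => []
  | e, q :: l => (e, q.1, q.2) :: trs q.2 l

/-- The last sign. -/
def lst : Bool → List (ℤ × Bool) → Bool
  | e, [] => e
  | _, q :: l => lst q.2 l

/-- The cyclic transitions. -/
def cyc (l : List (ℤ × Bool)) : List (Bool × ℤ × Bool) := trs (lst true l) l

/-- Transitions with opposite signs. -/
def opp (l : List (ℤ × Bool)) : List (Bool × ℤ × Bool) := (cyc l).filter fun q => q.1 != q.2.2

/-- Transitions with equal signs. -/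
def same (l : List (ℤ × Bool)) : List (Bool × ℤ × Bool) := (cyc l).filter fun q => q.1 == q.2.2

/-- The scalar of a transition with opposite signs. -/
noncomputable def oc (u : ℂ) (q : Bool × ℤ × Bool) : ℂ :=
  if q.1 then u * (u ^ (-q.2.1) - (-u) ^ q.2.1) else -(u⁻¹ * (u ^ (-q.2.1) - (-u) ^ q.2.1))

/-- The coefficient of `E` of a transition with equal signs. -/
noncomputable def al (u : ℂ) (q : Bool × ℤ × Bool) : ℂ :=
  if q.1 then -(u * (-u) ^ q.2.1) else u ^ (1 - q.2.1)

/-- The coefficient of `E⁻¹` of a transition with equal signs. -/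
noncomputable def be (u : ℂ) (q : Bool × ℤ × Bool) : ℂ :=
  if q.1 then -u ^ (-1 - q.2.1) else u⁻¹ * (-u) ^ q.2.1

/-- The product of the opposite transitions. -/
noncomputable def kap (l : List (ℤ × Bool)) (u : ℂ) : ℂ :=
  ((opp l).map (oc u)).prod / (u + u⁻¹) ^ l.length

/-- The constant coefficient of the product of the squares. -/
noncomputable def Kc (L : List (ℂ × ℂ)) (m : ℕ) : ℂ :=
  ((L.map fun q => (LaurentPolynomial.C q.1 * LaurentPolynomial.T (-(m : ℤ)) -
    LaurentPolynomial.C q.2 * LaurentPolynomial.T (m : ℤ)) ^ 2).prod : ℂ[T;T⁻¹]).coeff 0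

/-- `|κ(e ^ (i θ))|`. -/
noncomputable def phi (l : List (ℤ × Bool)) (θ : ℝ) : ℝ :=
  ((opp l).map fun q => if Even q.2.1 then |2 * Real.sin (q.2.1 * θ)|
    else |2 * Real.cos (q.2.1 * θ)|).prod / (2 * Real.cos θ) ^ l.length

/-- The value of a list in the free group. -/
def nfv (l : List (ℤ × Bool)) : FreeGroup (Fin 2) := FreeGroup.mk (wd l)

/-- The automorphism `x ↦ x`, `y ↦ y x ^ j`. -/
def tau (j : ℤ) : FreeGroup (Fin 2) →* FreeGroup (Fin 2) :=
  FreeGroup.lift fun i => if i = 0 then FreeGroup.of 0 else FreeGroup.of 1 * FreeGroup.of 0 ^ j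

/-- Normal form: opposite transitions are not trivial, and the list does not go from `+` to `-` at
the end. -/
def NF (l : List (ℤ × Bool)) : Prop :=
  l ≠ [] ∧ (∀ q ∈ opp l, q.2.1 ≠ 0) ∧ ¬ (lst true l = true ∧ ∀ q ∈ l.head?, q.2 = false)

/-- The window form of the failure of the conclusion. -/
def FailW (C n : ℕ) (v : List (Fin 2 × Bool)) : Prop :=
  ∀ r0 : ℕ, ∃ r ≥ r0, ∃ A : ℂ, IsPrimitiveRoot A (4 * r) ∧
    ∃ k > 0, ∃ z : ℂ, (DW C A ^ n * wordW C A v) ^ k = z • 1

end Pool.Agent.AMH
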