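import Pool.Agent.AMH.DefsB

/-!
# AMH, module GForm: every word in `x, y, t` is `t ^ n v`
-/

open scoped BigOperators LaurentPolynomial Matrix Topology
open Polynomial Filter

set_option linter.unusedVariables false

namespace Pool.Agent.AMH

open Pool.Agent.AMG

/-- data satisfying the relations of `GT` -/
structure GDat (M : Type) [Monoid M] where
  t : Mˣ
  X : M
  X' : M
  Y : M
  Y' : M
  hX : (t : M) * X = X * t
  hX' : (t : M) * X' = X' * t
  hY : (t : M) * Y = Y * X * t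
  hY' : (t : M) * Y' = X' * Y' * t
  XX : X * X' = 1

namespace GDat

variable {M : Type} [Monoid M]

/-- the letters `x`, `y` -/
def L (d : GDat M) (l : Fin 2 × Bool) : M := match l with
  | (0, true) => d.X
  | (0, false) => d.X'
  | (1, true) => d.Y
  | (1, false) => d.Y'

/-- the words in `x`, `y` -/
def W (d : GDat M) (v : List (Fin 2 × Bool)) : M := (v.map d.L).prod

/-- the letters `x`, `y`, `t` -/
def LT (d : GDat M) (l : Fin 3 × Bool) : M := match l with
  | (0, true) => d.X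
  | (0, false) => d.X'
  | (1, true) => d.Y
  | (1, false) => d.Y'
  | (2, true) => (d.t : M)
  | (2, false) => ((d.t⁻¹ : Mˣ) : M)

/-- the words in `x`, `y`, `t` -/
def WT (d : GDat M) (w : List (Fin 3 × Bool)) : M := (w.map d.LT).prod

theorem W_cons (d : GDat M) (l : Fin 2 × Bool) (v : List (Fin 2 × Bool)) :
    d.W (l :: v) = d.L l * d.W v := by
  unfold W
  rw [List.map_cons, List.prod_cons]

theorem W_append (d : GDat M) (v v' : List (Fin 2 × Bool)) :
    d.W (v ++ v') = d.W v * d.W v' := by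
  unfold W
  rw [List.map_append, List.prod_append]

theorem W_one (d : GDat M) (l : Fin 2 × Bool) : d.W [l] = d.L l := by
  unfold W
  rw [List.map_cons, List.map_nil, List.prod_cons, List.prod_nil, mul_one]

theorem W_two (d : GDat M) (l l' : Fin 2 × Bool) : d.W [l, l'] = d.L l * d.L l' := by
  rw [W_cons, W_one]

theorem conj_inv (t : Mˣ) (A B : M) (h : (t : M) * A = B * t) :
    A * ((t⁻¹ : Mˣ) : M) = ((t⁻¹ : Mˣ) : M) * B := by
  rw [Units.eq_inv_mul_iff_mul_eq, ← mul_assoc, h, mul_assoc, Units.mul_inv, mul_one]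

end GDat

open GDat

theorem gf_step1 (l : Fin 2 × Bool) : ∃ u : List (Fin 2 × Bool),
    ∀ (M : Type) [Monoid M] (d : GDat M), d.L l * (d.t : M) = (d.t : M) * d.W u := by
  rcases l with ⟨i, b⟩
  fin_cases i <;> cases b
  · refine ⟨[(0, false)], fun M _ d => ?_⟩
    rw [W_one]
    exact d.hX'.symm
  · refine ⟨[(0, true)], fun M _ d => ?_⟩
    rw [W_one]
    exact d.hX.symm
  · refine ⟨[(0, true), (1, false)], fun M _ d => ?_⟩
    rw [W_two]
    show d.Y' * (d.t : M) = (d.t : M) * (d.X * d.Y')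
    rw [← mul_assoc, d.hX, mul_assoc, d.hY', ← mul_assoc, ← mul_assoc, d.XX, one_mul]
  · refine ⟨[(1, true), (0, false)], fun M _ d => ?_⟩
    rw [W_two]
    show d.Y * (d.t : M) = (d.t : M) * (d.Y * d.X')
    rw [← mul_assoc, d.hY, mul_assoc, d.hX', ← mul_assoc, mul_assoc d.Y, d.XX, mul_one]

theorem gf_step2 (l : Fin 2 × Bool) : ∃ u : List (Fin 2 × Bool),
    ∀ (M : Type) [Monoid M] (d : GDat M),
      d.L l * ((d.t⁻¹ : Mˣ) : M) = ((d.t⁻¹ : Mˣ) : M) * d.W u := by
  rcases l with ⟨i, b⟩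
  fin_cases i <;> cases b
  · refine ⟨[(0, false)], fun M _ d => ?_⟩
    rw [W_one]
    exact conj_inv _ _ _ d.hX'
  · refine ⟨[(0, true)], fun M _ d => ?_⟩
    rw [W_one]
    exact conj_inv _ _ _ d.hX
  · refine ⟨[(0, false), (1, false)], fun M _ d => ?_⟩
    rw [W_two]
    exact conj_inv _ _ _ d.hY'
  · refine ⟨[(1, true), (0, true)], fun M _ d => ?_⟩
    rw [W_two]
    exact conj_inv _ _ _ d.hY

theorem gf_word1 (v : List (Fin 2 × Bool)) : ∃ u : List (Fin 2 × Bool),
    ∀ (M : Type) [Monoid M] (d : GDat M), d.W v * (d.t : M) = (d.t : M) * d.W u := by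
  induction v with
  | nil => exact ⟨[], fun M _ d => by simp [W]⟩
  | cons l v ih =>
    obtain ⟨u, hu⟩ := ih
    obtain ⟨u', hu'⟩ := gf_step1 l
    refine ⟨u' ++ u, fun M _ d => ?_⟩
    rw [W_cons, W_append, mul_assoc, hu, ← mul_assoc, hu', mul_assoc]

theorem gf_word2 (v : List (Fin 2 × Bool)) : ∃ u : List (Fin 2 × Bool),
    ∀ (M : Type) [Monoid M] (d : GDat M),
      d.W v * ((d.t⁻¹ : Mˣ) : M) = ((d.t⁻¹ : Mˣ) : M) * d.W u := by
  induction v with
  | nil => exact ⟨[], fun M _ d => by simp [W]⟩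
  | cons l v ih =>
    obtain ⟨u, hu⟩ := ih
    obtain ⟨u', hu'⟩ := gf_step2 l
    refine ⟨u' ++ u, fun M _ d => ?_⟩
    rw [W_cons, W_append, mul_assoc, hu, ← mul_assoc, hu', mul_assoc]

theorem gf_zpow (n : ℤ) : ∀ v : List (Fin 2 × Bool), ∃ u : List (Fin 2 × Bool),
    ∀ (M : Type) [Monoid M] (d : GDat M),
      d.W v * ((d.t ^ n : Mˣ) : M) = ((d.t ^ n : Mˣ) : M) * d.W u := by
  induction n using Int.induction_on with
  | zero => exact fun v => ⟨v, fun M _ d => by simp⟩
  | succ n ih =>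
    intro v
    obtain ⟨u, hu⟩ := ih v
    obtain ⟨u', hu'⟩ := gf_word1 u
    refine ⟨u', fun M _ d => ?_⟩
    rw [zpow_add, zpow_one, Units.val_mul, ← mul_assoc, hu, mul_assoc, hu', mul_assoc]
  | pred n ih =>
    intro v
    obtain ⟨u, hu⟩ := ih v
    obtain ⟨u', hu'⟩ := gf_word2 u
    refine ⟨u', fun M _ d => ?_⟩
    rw [sub_eq_add_neg, zpow_add, zpow_neg_one, Units.val_mul, ← mul_assoc, hu, mul_assoc, hu',
      mul_assoc]

theorem gf_mul (n m : ℤ) (v v' : List (Fin 2 × Bool)) : ∃ u : List (Fin 2 × Bool),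
    ∀ (M : Type) [Monoid M] (d : GDat M),
      (((d.t ^ n : Mˣ) : M) * d.W v) * (((d.t ^ m : Mˣ) : M) * d.W v') =
        ((d.t ^ (n + m) : Mˣ) : M) * d.W u := by
  obtain ⟨u, hu⟩ := gf_zpow m v
  refine ⟨u ++ v', fun M _ d => ?_⟩
  rw [mul_assoc, ← mul_assoc (d.W v), hu, W_append, zpow_add, Units.val_mul]
  simp only [mul_assoc]

theorem gf_form (w : List (Fin 3 × Bool)) : ∃ (n : ℤ) (v : List (Fin 2 × Bool)),
    ∀ (M : Type) [Monoid M] (d : GDat M), d.WT w = ((d.t ^ n : Mˣ) : M) * d.W v := by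
  induction w with
  | nil => exact ⟨0, [], fun M _ d => by simp [W, WT]⟩
  | cons l w ih =>
    obtain ⟨n, v, hv⟩ := ih
    have key : ∃ (m : ℤ) (u : List (Fin 2 × Bool)), ∀ (M : Type) [Monoid M] (d : GDat M),
        d.LT l = ((d.t ^ m : Mˣ) : M) * d.W u := by
      rcases l with ⟨i, b⟩
      fin_cases i <;> cases b
      · exact ⟨0, [(0, false)], fun M _ d => by
          rw [W_one, zpow_zero, Units.val_one, one_mul]
          rfl⟩
      · exact ⟨0, [(0, true)], fun M _ d => by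
          rw [W_one, zpow_zero, Units.val_one, one_mul]
          rfl⟩
      · exact ⟨0, [(1, false)], fun M _ d => by
          rw [W_one, zpow_zero, Units.val_one, one_mul]
          rfl⟩
      · exact ⟨0, [(1, true)], fun M _ d => by
          rw [W_one, zpow_zero, Units.val_one, one_mul]
          rfl⟩
      · exact ⟨-1, [], fun M _ d => by
          rw [zpow_neg_one]
          simp [W, GDat.LT]⟩
      · exact ⟨1, [], fun M _ d => by
          rw [zpow_one]
          simp [W, GDat.LT]⟩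
    obtain ⟨m, u, hu⟩ := key
    obtain ⟨u', hu'⟩ := gf_mul m n u v
    refine ⟨m + n, u', fun M _ d => ?_⟩
    rw [← hu', ← hu, ← hv]
    unfold WT
    rw [List.map_cons, List.prod_cons]

theorem gf_form4 (w : List (Fin 3 × Bool)) : ∃ (n : ℤ) (v v4 : List (Fin 2 × Bool)),
    ∀ (M : Type) [Monoid M] (d : GDat M), d.WT w = ((d.t ^ n : Mˣ) : M) * d.W v ∧
      d.WT w ^ 4 = ((d.t ^ (4 * n) : Mˣ) : M) * d.W v4 := by
  obtain ⟨n, v, hv⟩ := gf_form w
  obtain ⟨v2, h2⟩ := gf_mul n n v v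
  obtain ⟨v4, h4⟩ := gf_mul (n + n) (n + n) v2 v2
  refine ⟨n, v, v4, fun M _ d => ⟨hv M d, ?_⟩⟩
  have e1 : d.WT w ^ 4 = (d.WT w * d.WT w) * (d.WT w * d.WT w) := by
    rw [← pow_two, ← pow_two, ← pow_mul]
  rw [e1, hv, h2, h4]
  congr 3
  ring

/-! ### the group -/

theorem gt_rel1 : tt * inc (FreeGroup.of 0) = inc (FreeGroup.of 0) * tt := by
  have h : PresentedGroup.mk rels (FreeGroup.of 2 * FreeGroup.of 0 * (FreeGroup.of 2)⁻¹ *
      (FreeGroup.of 0)⁻¹) = 1 := by
    refine (QuotientGroup.eq_one_iff _).2 (Subgroup.subset_normalClosure ?_)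
    exact Or.inl rfl
  rw [map_mul, map_mul, map_mul, map_inv, map_inv] at h
  have e : inc (FreeGroup.of 0) = PresentedGroup.mk rels (FreeGroup.of 0) := by
    unfold inc
    rw [FreeGroup.lift_apply_of]
    rfl
  rw [e]
  rw [mul_inv_eq_one, mul_inv_eq_iff_eq_mul] at h
  exact h

theorem gt_rel2 : tt * inc (FreeGroup.of 1) =
    inc (FreeGroup.of 1) * inc (FreeGroup.of 0) * tt := by
  have h : PresentedGroup.mk rels (FreeGroup.of 2 * FreeGroup.of 1 * (FreeGroup.of 2)⁻¹ *
      (FreeGroup.of 1 * FreeGroup.of 0)⁻¹) = 1 := by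
    refine (QuotientGroup.eq_one_iff _).2 (Subgroup.subset_normalClosure ?_)
    exact Or.inr rfl
  rw [map_mul, map_mul, map_mul, map_inv, map_inv, map_mul] at h
  have e0 : inc (FreeGroup.of 0) = PresentedGroup.mk rels (FreeGroup.of 0) := by
    unfold inc
    rw [FreeGroup.lift_apply_of]
    rfl
  have e1 : inc (FreeGroup.of 1) = PresentedGroup.mk rels (FreeGroup.of 1) := by
    unfold inc
    rw [FreeGroup.lift_apply_of]
    rfl
  rw [e0, e1]
  rw [mul_inv_eq_one, mul_inv_eq_iff_eq_mul] at h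
  exact h

/-- the data of the group -/
noncomputable def dGT : GDat GT where
  t := toUnits tt
  X := inc (FreeGroup.of 0)
  X' := (inc (FreeGroup.of 0))⁻¹
  Y := inc (FreeGroup.of 1)
  Y' := (inc (FreeGroup.of 1))⁻¹
  hX := gt_rel1
  hX' := by
    have h := gt_rel1
    show tt * (inc (FreeGroup.of 0))⁻¹ = (inc (FreeGroup.of 0))⁻¹ * tt
    rw [mul_inv_eq_iff_eq_mul, mul_assoc, h, inv_mul_cancel_left]
  hY := gt_rel2
  hY' := by
    have h := gt_rel2
    show tt * (inc (FreeGroup.of 1))⁻¹ =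
      (inc (FreeGroup.of 0))⁻¹ * (inc (FreeGroup.of 1))⁻¹ * tt
    rw [mul_inv_eq_iff_eq_mul, mul_assoc, h]
    group
  XX := mul_inv_cancel _

theorem dGT_W (v : List (Fin 2 × Bool)) : dGT.W v = inc (FreeGroup.mk v) := by
  induction v with
  | nil =>
    have e : FreeGroup.mk ([] : List (Fin 2 × Bool)) = 1 := rfl
    rw [e, map_one]
    rfl
  | cons l v ih =>
    have e : FreeGroup.mk (l :: v) = FreeGroup.mk [l] * FreeGroup.mk v := by
      rw [FreeGroup.mul_mk]
      rfl
    rw [W_cons, ih, e, map_mul]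
    congr 1
    rcases l with ⟨i, b⟩
    have e2 : ∀ i : Fin 2, FreeGroup.mk [(i, false)] = (FreeGroup.of i)⁻¹ := fun i => rfl
    have e3 : ∀ i : Fin 2, FreeGroup.mk [(i, true)] = FreeGroup.of i := fun i => rfl
    fin_cases i <;> cases b
    · show (inc (FreeGroup.of 0))⁻¹ = inc (FreeGroup.mk [(0, false)])
      rw [e2, map_inv]
    · show inc (FreeGroup.of 0) = inc (FreeGroup.mk [(0, true)])
      rw [e3]
    · show (inc (FreeGroup.of 1))⁻¹ = inc (FreeGroup.mk [(1, false)])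
      rw [e2, map_inv]
    · show inc (FreeGroup.of 1) = inc (FreeGroup.mk [(1, true)])
      rw [e3]

theorem dGT_WT (w : List (Fin 3 × Bool)) : dGT.WT w = gval w := by
  induction w with
  | nil =>
    unfold gval
    have e : FreeGroup.mk ([] : List (Fin 3 × Bool)) = 1 := rfl
    rw [e, map_one]
    rfl
  | cons l w ih =>
    have e : FreeGroup.mk (l :: w) = FreeGroup.mk [l] * FreeGroup.mk w := by
      rw [FreeGroup.mul_mk]
      rfl
    have e1 : dGT.WT (l :: w) = dGT.LT l * dGT.WT w := by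
      unfold WT
      rw [List.map_cons, List.prod_cons]
    unfold gval at ih ⊢
    rw [e1, ih, e, map_mul]
    congr 1
    have e2 : ∀ i : Fin 3, FreeGroup.mk [(i, false)] = (FreeGroup.of i)⁻¹ := fun i => rfl
    have e3 : ∀ i : Fin 3, FreeGroup.mk [(i, true)] = FreeGroup.of i := fun i => rfl
    have i0 : inc (FreeGroup.of 0) = PresentedGroup.mk rels (FreeGroup.of 0) := by
      unfold inc
      rw [FreeGroup.lift_apply_of]
      rfl
    have i1 : inc (FreeGroup.of 1) = PresentedGroup.mk rels (FreeGroup.of 1) := by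
      unfold inc
      rw [FreeGroup.lift_apply_of]
      rfl
    rcases l with ⟨i, b⟩
    fin_cases i <;> cases b
    · show (inc (FreeGroup.of 0))⁻¹ = PresentedGroup.mk rels (FreeGroup.mk [(0, false)])
      rw [e2, map_inv, i0]
    · show inc (FreeGroup.of 0) = PresentedGroup.mk rels (FreeGroup.mk [(0, true)])
      rw [e3, i0]
    · show (inc (FreeGroup.of 1))⁻¹ = PresentedGroup.mk rels (FreeGroup.mk [(1, false)])
      rw [e2, map_inv, i1]
    · show inc (FreeGroup.of 1) = PresentedGroup.mk rels (FreeGroup.mk [(1, true)])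
      rw [e3, i1]
    · show (tt : GT)⁻¹ = PresentedGroup.mk rels (FreeGroup.mk [(2, false)])
      rw [e2, map_inv]
      rfl
    · show (tt : GT) = PresentedGroup.mk rels (FreeGroup.mk [(2, true)])
      rw [e3]
      rfl

/-! ### the matrices -/

theorem gf_tw {A : ℂ} (hA : A ≠ 0) (a : ℕ) : tw A a ≠ 0 := by
  unfold tw
  exact mul_ne_zero (pow_ne_zero _ (by norm_num)) (pow_ne_zero _ hA)

theorem gf_detT (r c : ℕ) {A : ℂ} (hA : A ≠ 0) : IsUnit (twT r c A).det := by
  unfold twT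
  rw [Matrix.det_diagonal]
  exact isUnit_iff_ne_zero.2 (Finset.prod_ne_zero_iff.2 fun p _ => gf_tw hA _)

theorem gf_detX (r c : ℕ) {A : ℂ} (hA : A ≠ 0) : IsUnit (pushX r c A).det := by
  unfold pushX
  rw [Matrix.det_diagonal]
  exact isUnit_iff_ne_zero.2 (Finset.prod_ne_zero_iff.2 fun p _ =>
    div_ne_zero (gf_tw hA _) (gf_tw hA _))

theorem gf_TX (r c : ℕ) (A : ℂ) : twT r c A * pushX r c A = pushX r c A * twT r c A := by
  unfold twT pushX
  rw [Matrix.diagonal_mul_diagonal, Matrix.diagonal_mul_diagonal]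
  congr 1
  funext p
  ring

theorem gf_TY (r c : ℕ) {A : ℂ} (hA : A ≠ 0) :
    twT r c A * pushY r c A = pushY r c A * pushX r c A * twT r c A := by
  ext q p
  unfold twT pushX
  rw [Matrix.diagonal_mul, Matrix.mul_diagonal, Matrix.mul_diagonal]
  by_cases h : q.1.1 = p.1.2
  · rw [h]
    have h1 := gf_tw hA (p.1.1 : ℕ)
    field_simp
  · have h0 : pushY r c A q p = 0 := by
      unfold pushY
      rw [Matrix.of_apply, if_neg h]
    rw [h0]
    ring

/-- the data of the matrices -/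
noncomputable def dMat (r c : ℕ) (A : ℂ) (hA : A ≠ 0) : GDat (Matrix (Col r c) (Col r c) ℂ) where
  t := Matrix.nonsingInvUnit (twT r c A) (gf_detT r c hA)
  X := pushX r c A
  X' := (pushX r c A)⁻¹
  Y := pushY r c A
  Y' := (pushY r c A)⁻¹
  hX := gf_TX r c A
  hX' := by
    show twT r c A * (pushX r c A)⁻¹ = (pushX r c A)⁻¹ * twT r c A
    have h := gf_TX r c A
    have hX := gf_detX r c hA
    calc twT r c A * (pushX r c A)⁻¹
        = (pushX r c A)⁻¹ * (pushX r c A * twT r c A) * (pushX r c A)⁻¹ := by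
          rw [← mul_assoc, Matrix.nonsing_inv_mul _ hX, one_mul]
      _ = (pushX r c A)⁻¹ * (twT r c A * (pushX r c A * (pushX r c A)⁻¹)) := by
          rw [← h, mul_assoc, mul_assoc]
      _ = _ := by rw [Matrix.mul_nonsing_inv _ hX, mul_one]
  hY := gf_TY r c hA
  hY' := by
    show twT r c A * (pushY r c A)⁻¹ = (pushX r c A)⁻¹ * (pushY r c A)⁻¹ * twT r c A
    have h := gf_TY r c hA
    have hT := gf_detT r c hA
    have h1 : twT r c A * pushY r c A * (twT r c A)⁻¹ = pushY r c A * pushX r c A := by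
      rw [h, mul_assoc, Matrix.mul_nonsing_inv _ hT, mul_one]
    have h2 := congrArg (fun M => M⁻¹) h1
    simp only [Matrix.mul_inv_rev, Matrix.nonsing_inv_nonsing_inv _ hT] at h2
    rw [← h2, mul_assoc, mul_assoc, Matrix.nonsing_inv_mul _ hT, mul_one]
  XX := Matrix.mul_nonsing_inv _ (gf_detX r c hA)

theorem dMat_W (r c : ℕ) (A : ℂ) (hA : A ≠ 0) (v : List (Fin 2 × Bool)) :
    (dMat r c A hA).W v = wordMat r c A v := by
  unfold W wordMat
  congr 1

theorem dMat_WT (r c : ℕ) (A : ℂ) (hA : A ≠ 0) (w : List (Fin 3 × Bool)) :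
    (dMat r c A hA).WT w = wordMatT r c A w := by
  unfold WT wordMatT
  congr 1

theorem gform (w : List (Fin 3 × Bool)) : ∃ (n : ℤ) (v v4 : List (Fin 2 × Bool)),
    gval w = tt ^ n * inc (FreeGroup.mk v) ∧ gval w ^ 4 = tt ^ (4 * n) * inc (FreeGroup.mk v4) ∧
    ∀ (r c : ℕ) (A : ℂ), A ≠ 0 → wordMatT r c A w = twT r c A ^ n * wordMat r c A v ∧
      wordMatT r c A w ^ 4 = twT r c A ^ (4 * n) * wordMat r c A v4 := by
  obtain ⟨n, v, v4, h⟩ := gf_form4 w
  have hz : ∀ m : ℤ, ((dGT.t ^ m : GTˣ) : GT) = tt ^ m := by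
    intro m
    show ((toUnits tt ^ m : GTˣ) : GT) = tt ^ m
    rw [← map_zpow]
    rfl
  have h1 := h GT dGT
  rw [dGT_WT, dGT_W, dGT_W, hz, hz] at h1
  refine ⟨n, v, v4, h1.1, h1.2, fun r c A hA => ?_⟩
  have h2 := h _ (dMat r c A hA)
  rw [dMat_WT, dMat_W, dMat_W, Matrix.coe_units_zpow, Matrix.coe_units_zpow] at h2
  exact h2

end Pool.Agent.AMH
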