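import Pool.Agent.AMH.Core
import Pool.Agent.AMH.CmpT
import Pool.Agent.AMH.GForm

/-!
# AMH, module Final: the theorem
-/

open scoped BigOperators LaurentPolynomial Matrix Topology
open Polynomial Filter

namespace Pool.Agent.AMH

open Pool.Agent.AMG

theorem inc_iw (v : List (Fin 2 × Bool)) : FreeGroup.mk (iw v) = (FreeGroup.mk v)⁻¹ := by
  rw [FreeGroup.inv_mk]
  rfl

theorem Simple_inv {g : FreeGroup (Fin 2)} (h : Simple g) : Simple g⁻¹ := by
  rcases h with ⟨φ, n, h⟩ | ⟨a, n, h⟩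
  · exact Or.inl ⟨φ, -n, by rw [h, zpow_neg]⟩
  · refine Or.inr ⟨a, -n, ?_⟩
    rw [h, zpow_neg]
    group

/-- For each parity there is a good window. -/
theorem key (w : List (Fin 3 × Bool)) (hw : ¬ Elem (gval w)) (p : ℕ) :
    ∃ C : ℕ, C % 2 = p % 2 ∧ ∃ r0 : ℕ, ∀ r ≥ r0, ∀ c : ℕ, r = c + 2 + C → Odd c → ∀ A : ℂ,
      IsPrimitiveRoot A (4 * r) → InfOrderT r c A w := by
  obtain ⟨n, v, v4, h1, h4, hmat⟩ := gform w
  rcases lt_trichotomy n 0 with hn | hn | hn
  · -- negative exponent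
    obtain ⟨N, hN⟩ : ∃ N : ℕ, n = -(N : ℤ) := ⟨n.natAbs, by omega⟩
    have hN0 : 0 < N := by omega
    by_contra hcon
    push Not at hcon
    have hf : ∀ C : ℕ, C % 2 = p % 2 → FailW C N (iw v4) := by
      intro C hC r0
      obtain ⟨r, hr, c, hrc, hc, A, hA, hinf⟩ := hcon C hC r0
      obtain ⟨hne, hcmp⟩ := cmpT hrc hc hA n v4
      rw [InfOrderT, not_and_or] at hinf
      rcases hinf with hinf | hinf
      · exact absurd hne hinf
      push Not at hinf
      obtain ⟨k, hk, z, hz⟩ := hinf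
      have hA0 : A ≠ 0 := hA.ne_zero (by omega)
      obtain ⟨z', hz'⟩ := (hcmp k (z ^ 4) (by
        rw [← (hmat r c A hA0).2, ← pow_mul, mul_comm, pow_mul, hz, _root_.smul_pow,
          one_pow])).2 (by omega)
      refine ⟨r, hr, A, hA, k, hk, z', ?_⟩
      rw [hN, neg_neg, Int.toNat_natCast] at hz'
      exact hz'
    obtain ⟨h, γ, hh, hs, hcm⟩ := core hN0 (iw v4) p hf
    apply hw
    refine ⟨4, h * inc (FreeGroup.mk v4), n * 4, γ⁻¹, by norm_num, ?_, Simple_inv hs, Or.inr ?_⟩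
    · rw [h4]
      rw [inc_iw, map_inv] at hh
      have e1 : tt ^ (4 * n) = (tt ^ (4 * (N : ℤ)))⁻¹ := by
        rw [← zpow_neg]
        congr 1
        rw [hN]
        ring
      have e2 : tt ^ (n * 4) = (tt ^ (4 * (N : ℤ)))⁻¹ := by
        rw [← e1, mul_comm]
      rw [e1, e2, map_inv]
      have e3 : h * inc (FreeGroup.mk v4) * ((tt ^ (4 * (N : ℤ)))⁻¹ * inc (FreeGroup.mk v4)) *
          (h * inc (FreeGroup.mk v4))⁻¹ =
          (h * (tt ^ (4 * (N : ℤ)) * (inc (FreeGroup.mk v4))⁻¹) * h⁻¹)⁻¹ := by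
        group
      rw [e3, hh, mul_inv_rev]
      exact ((hcm.zpow_left (4 * (N : ℤ))).inv_inv.eq).symm
    · rw [map_inv]
      exact hcm.inv_right
  · -- exponent zero
    subst hn
    by_contra hcon
    push Not at hcon
    apply hw
    refine ⟨1, 1, 0, FreeGroup.mk v, one_pos, by rw [h1]; simp, ?_, Or.inl rfl⟩
    refine simple_of_fail v p fun C hC r0 => ?_
    obtain ⟨r, hr, c, hrc, hc, A, hA, hinf⟩ := hcon C hC r0
    obtain ⟨hne, hcmp⟩ := cmpT hrc hc hA 0 v
    rw [InfOrderT, not_and_or] at hinf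
    rcases hinf with hinf | hinf
    · exact absurd hne hinf
    push Not at hinf
    obtain ⟨k, hk, z, hz⟩ := hinf
    have hA0 : A ≠ 0 := hA.ne_zero (by omega)
    obtain ⟨z', hz'⟩ := (hcmp k z (by
      rw [mul_zero]
      rw [(hmat r c A hA0).1] at hz
      exact hz)).1 le_rfl
    refine ⟨r, hr, A, hA, k, hk, z', ?_⟩
    rw [Int.toNat_zero, pow_zero, one_mul] at hz'
    exact hz'
  · -- positive exponent
    obtain ⟨N, hN⟩ : ∃ N : ℕ, n = (N : ℤ) := ⟨n.natAbs, by omega⟩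
    have hN0 : 0 < N := by omega
    by_contra hcon
    push Not at hcon
    have hf : ∀ C : ℕ, C % 2 = p % 2 → FailW C N v4 := by
      intro C hC r0
      obtain ⟨r, hr, c, hrc, hc, A, hA, hinf⟩ := hcon C hC r0
      obtain ⟨hne, hcmp⟩ := cmpT hrc hc hA n v4
      rw [InfOrderT, not_and_or] at hinf
      rcases hinf with hinf | hinf
      · exact absurd hne hinf
      push Not at hinf
      obtain ⟨k, hk, z, hz⟩ := hinf
      have hA0 : A ≠ 0 := hA.ne_zero (by omega)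
      obtain ⟨z', hz'⟩ := (hcmp k (z ^ 4) (by
        rw [← (hmat r c A hA0).2, ← pow_mul, mul_comm, pow_mul, hz, _root_.smul_pow,
          one_pow])).1 (by omega)
      refine ⟨r, hr, A, hA, k, hk, z', ?_⟩
      rw [hN, Int.toNat_natCast] at hz'
      exact hz'
    obtain ⟨h, γ, hh, hs, hcm⟩ := core hN0 v4 p hf
    apply hw
    refine ⟨4, h, 4 * n, γ, by norm_num, ?_, hs, Or.inr hcm⟩
    rw [h4, hN]
    exact hh

/-- The AMU conjecture for the mapping classes generated by the point pushes and the Dehn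
twist `t`. -/
theorem main (w : List (Fin 3 × Bool)) (hw : ¬ Elem (gval w)) :
    ∃ K r0 : ℕ, ∀ r, r0 ≤ r → ∃ c, c + 2 ≤ r ∧ r ≤ c + 2 + K ∧
      ∀ A : ℂ, IsPrimitiveRoot A (4 * r) → InfOrderT r c A w := by
  obtain ⟨C0, hC0, r00, h0⟩ := key w hw 0
  obtain ⟨C1, hC1, r01, h1⟩ := key w hw 1
  refine ⟨max C0 C1, max (max r00 r01) (max C0 C1 + 3), fun r hr => ?_⟩
  have hr1 : r00 ≤ r := le_trans (le_trans (le_max_left _ _) (le_max_left _ _)) hr
  have hr2 : r01 ≤ r := le_trans (le_trans (le_max_right _ _) (le_max_left _ _)) hr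
  have hr3 : max C0 C1 + 3 ≤ r := le_trans (le_max_right _ _) hr
  have hC0' : C0 ≤ max C0 C1 := le_max_left _ _
  have hC1' : C1 ≤ max C0 C1 := le_max_right _ _
  rcases Nat.even_or_odd r with hev | hodd
  · refine ⟨r - 2 - C1, by omega, by omega, fun A hA => ?_⟩
    exact h1 r hr2 (r - 2 - C1) (by omega)
      (by obtain ⟨u, hu⟩ := hev; refine ⟨(r - 2 - C1) / 2, by omega⟩) A hA
  · refine ⟨r - 2 - C0, by omega, by omega, fun A hA => ?_⟩
    exact h0 r hr1 (r - 2 - C0) (by omega)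
      (by obtain ⟨u, hu⟩ := hodd; refine ⟨(r - 2 - C0) / 2, by omega⟩) A hA

end Pool.Agent.AMH
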