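import Pool.Agent.AMH.DefsB

/-!
# AMH: the group generated by the point pushes and the twist
-/

open scoped BigOperators

namespace Pool.Agent.AMH

open Pool.Agent.AMG

theorem rel_x : tt * inc (FreeGroup.of 0) * tt⁻¹ = inc (FreeGroup.of 0) := by
  have h : PresentedGroup.mk rels (FreeGroup.of 2 * FreeGroup.of 0 * (FreeGroup.of 2)⁻¹ *
      (FreeGroup.of 0)⁻¹) = 1 :=
    (PresentedGroup.mk_eq_one_iff).2 (Subgroup.subset_normalClosure (by simp [rels]))
  simp only [map_mul, map_inv] at h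
  have h1 := mul_inv_eq_one.1 h
  simpa [inc, tt, PresentedGroup.of] using h1

theorem rel_y : tt * inc (FreeGroup.of 1) * tt⁻¹ = inc (FreeGroup.of 1) * inc (FreeGroup.of 0) := by
  have h : PresentedGroup.mk rels (FreeGroup.of 2 * FreeGroup.of 1 * (FreeGroup.of 2)⁻¹ *
      (FreeGroup.of 1 * FreeGroup.of 0)⁻¹) = 1 :=
    (PresentedGroup.mk_eq_one_iff).2 (Subgroup.subset_normalClosure (by simp [rels]))
  simp only [map_mul, map_inv] at h
  have h1 := mul_inv_eq_one.1 h
  simpa [inc, tt, PresentedGroup.of] using h1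

theorem comm_x : Commute tt (inc (FreeGroup.of 0)) := by
  have h := rel_x
  rw [mul_inv_eq_iff_eq_mul] at h
  exact h

theorem conj_tt (m : ℤ) (g : FreeGroup (Fin 2)) :
    tt ^ m * inc g * (tt ^ m)⁻¹ = inc (tau m g) := by
  have h1 : ∀ m : ℤ, tt ^ m * inc (FreeGroup.of 1) * (tt ^ m)⁻¹ =
      inc (FreeGroup.of 1) * inc (FreeGroup.of 0) ^ m := by
    have hc : ∀ a b : ℤ, tt ^ a * inc (FreeGroup.of 0) ^ b = inc (FreeGroup.of 0) ^ b * tt ^ a :=
      fun a b => (comm_x.zpow_zpow a b)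
    have hy := rel_y
    have hy' : tt⁻¹ * inc (FreeGroup.of 1) * tt = inc (FreeGroup.of 1) *
        (inc (FreeGroup.of 0))⁻¹ := by
      have e1 : inc (FreeGroup.of 1) = tt⁻¹ * (inc (FreeGroup.of 1) * inc (FreeGroup.of 0)) * tt := by
        rw [← hy]
        group
      have e2 : tt⁻¹ * (inc (FreeGroup.of 1) * inc (FreeGroup.of 0)) * tt =
          tt⁻¹ * inc (FreeGroup.of 1) * tt * inc (FreeGroup.of 0) := by
        have := comm_x.eq
        rw [mul_assoc _ _ tt, mul_assoc _ _ tt, ← this]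
        group
      rw [e2] at e1
      exact eq_mul_inv_of_mul_eq e1.symm
    intro m
    induction m using Int.induction_on with
    | zero => simp
    | succ k ih =>
      have e : tt ^ ((k : ℤ) + 1) * inc (FreeGroup.of 1) * (tt ^ ((k : ℤ) + 1))⁻¹ =
          tt * (tt ^ (k : ℤ) * inc (FreeGroup.of 1) * (tt ^ (k : ℤ))⁻¹) * tt⁻¹ := by
        rw [add_comm, zpow_add, zpow_one]
        group
      rw [e, ih]
      have e3 : tt * (inc (FreeGroup.of 1) * inc (FreeGroup.of 0) ^ (k : ℤ)) * tt⁻¹ =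
          (tt * inc (FreeGroup.of 1) * tt⁻¹) * (tt * inc (FreeGroup.of 0) ^ (k : ℤ) * tt⁻¹) := by
        group
      have e4 : tt * inc (FreeGroup.of 0) ^ (k : ℤ) * tt⁻¹ = inc (FreeGroup.of 0) ^ (k : ℤ) := by
        have := hc 1 k
        rw [zpow_one] at this
        rw [this, mul_assoc, mul_inv_cancel, mul_one]
      rw [e3, hy, e4, zpow_add_one, mul_assoc, ← zpow_one_add, add_comm, zpow_add_one]
    | pred k ih =>
      have e : tt ^ (-(k : ℤ) - 1) * inc (FreeGroup.of 1) * (tt ^ (-(k : ℤ) - 1))⁻¹ =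
          tt⁻¹ * (tt ^ (-(k : ℤ)) * inc (FreeGroup.of 1) * (tt ^ (-(k : ℤ)))⁻¹) * tt := by
        have e5 : tt ^ (-(k : ℤ) - 1) = tt⁻¹ * tt ^ (-(k : ℤ)) := by
          rw [sub_eq_add_neg, add_comm, zpow_add, zpow_neg_one]
        rw [e5]
        group
      rw [e, ih]
      have e3 : tt⁻¹ * (inc (FreeGroup.of 1) * inc (FreeGroup.of 0) ^ (-(k : ℤ))) * tt =
          (tt⁻¹ * inc (FreeGroup.of 1) * tt) * (tt⁻¹ * inc (FreeGroup.of 0) ^ (-(k : ℤ)) * tt) := by
        group
      have e4 : tt⁻¹ * inc (FreeGroup.of 0) ^ (-(k : ℤ)) * tt = inc (FreeGroup.of 0) ^ (-(k : ℤ)) := by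
        have := hc (-1) (-(k : ℤ))
        rw [zpow_neg_one] at this
        rw [this, mul_assoc, inv_mul_cancel, mul_one]
      rw [e3, hy', e4, mul_assoc, ← zpow_neg_one, ← zpow_add]
      congr 2
      ring
  have h0 : (MulAut.conj (tt ^ m)).toMonoidHom.comp inc = inc.comp (tau m) := by
    refine FreeGroup.ext_hom _ _ fun i => ?_
    fin_cases i
    · show tt ^ m * inc (FreeGroup.of 0) * (tt ^ m)⁻¹ = inc (tau m (FreeGroup.of 0))
      have h2 : tau m (FreeGroup.of 0) = FreeGroup.of 0 := by simp [tau]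
      rw [h2]
      have := (comm_x.zpow_left m).eq
      rw [this, mul_assoc, mul_inv_cancel, mul_one]
    · show tt ^ m * inc (FreeGroup.of 1) * (tt ^ m)⁻¹ = inc (tau m (FreeGroup.of 1))
      have h2 : tau m (FreeGroup.of 1) = FreeGroup.of 1 * FreeGroup.of 0 ^ m := by simp [tau]
      rw [h2, h1, map_mul, map_zpow]
  exact DFunLike.congr_fun h0 g

theorem mk_xw (b : ℤ) : FreeGroup.mk (xw b) = FreeGroup.of (0 : Fin 2) ^ b := by
  have h : ∀ (k : ℕ) (e : Bool), FreeGroup.mk (List.replicate k ((0 : Fin 2), e)) =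
      (FreeGroup.mk [((0 : Fin 2), e)]) ^ k := by
    intro k e
    induction k with
    | zero => rfl
    | succ k ih =>
      rw [List.replicate_succ, pow_succ', ← ih, FreeGroup.mul_mk]
      rfl
  rw [xw, h]
  rcases le_or_gt 0 b with hb | hb
  · rw [decide_eq_true hb]
    have : (FreeGroup.mk [((0 : Fin 2), true)]) = FreeGroup.of 0 := rfl
    rw [this, ← zpow_natCast, Int.natAbs_of_nonneg hb]
  · rw [decide_eq_false (not_le.2 hb)]
    have : (FreeGroup.mk [((0 : Fin 2), false)]) = (FreeGroup.of 0)⁻¹ := rfl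
    rw [this, inv_pow, ← zpow_natCast, ← zpow_neg]
    congr 1
    omega

end Pool.Agent.AMH
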