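import Pool.Agent.AMH.DefsB

/-!
# Regularity of the symbols
-/

set_option autoImplicit false

open scoped BigOperators Topology
open Filter

namespace Pool.Agent.AMH

open Pool.Agent.AMG

/-- Bounded and Lipschitz in `x` for small `α`, continuous in `(α, β)` at `α = 0`. -/
private def SNice (f : ℝ → ℝ → ℝ → ℂ) : Prop :=
  ∃ α0 > 0, ∃ B Lip : ℝ, (∀ α β x y : ℝ, |α| ≤ α0 → |x| ≤ 2 → |y| ≤ 2 →
    ‖f x α β‖ ≤ B ∧ ‖f x α β - f y α β‖ ≤ Lip * |x - y|) ∧
    ∀ x β : ℝ, |x| ≤ 2 → ContinuousAt (fun q : ℝ × ℝ => f x q.1 q.2) (0, β)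

private theorem SNice.add {f g : ℝ → ℝ → ℝ → ℂ} (hf : SNice f) (hg : SNice g) :
    SNice fun x α β => f x α β + g x α β := by
  obtain ⟨α1, h1, B1, L1, hb1, hc1⟩ := hf
  obtain ⟨α2, h2, B2, L2, hb2, hc2⟩ := hg
  refine ⟨min α1 α2, lt_min h1 h2, B1 + B2, L1 + L2, fun α β x y hα hx hy => ?_,
    fun x β hx => (hc1 x β hx).add (hc2 x β hx)⟩
  obtain ⟨a1, b1⟩ := hb1 α β x y (hα.trans (min_le_left _ _)) hx hy
  obtain ⟨a2, b2⟩ := hb2 α β x y (hα.trans (min_le_right _ _)) hx hy
  refine ⟨(norm_add_le _ _).trans (add_le_add a1 a2), ?_⟩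
  have h : f x α β + g x α β - (f y α β + g y α β) =
      (f x α β - f y α β) + (g x α β - g y α β) := by ring
  rw [h, add_mul]
  exact (norm_add_le _ _).trans (add_le_add b1 b2)

private theorem SNice.mul {f g : ℝ → ℝ → ℝ → ℂ} (hf : SNice f) (hg : SNice g) :
    SNice fun x α β => f x α β * g x α β := by
  obtain ⟨α1, h1, B1, L1, hb1, hc1⟩ := hf
  obtain ⟨α2, h2, B2, L2, hb2, hc2⟩ := hg
  refine ⟨min α1 α2, lt_min h1 h2, B1 * B2, B1 * L2 + L1 * B2, fun α β x y hα hx hy => ?_,
    fun x β hx => (hc1 x β hx).mul (hc2 x β hx)⟩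
  obtain ⟨a1, b1⟩ := hb1 α β x y (hα.trans (min_le_left _ _)) hx hy
  obtain ⟨a2, b2⟩ := hb2 α β x y (hα.trans (min_le_right _ _)) hx hy
  obtain ⟨a3, b3⟩ := hb2 α β y x (hα.trans (min_le_right _ _)) hy hx
  have hB1 : 0 ≤ B1 := (norm_nonneg _).trans a1
  have hB2 : 0 ≤ B2 := (norm_nonneg _).trans a2
  refine ⟨?_, ?_⟩
  · rw [norm_mul]
    exact mul_le_mul a1 a2 (norm_nonneg _) hB1
  have h : f x α β * g x α β - (f y α β * g y α β) =
      f x α β * (g x α β - g y α β) + (f x α β - f y α β) * g y α β := by ring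
  rw [h]
  refine (norm_add_le _ _).trans ?_
  rw [norm_mul, norm_mul]
  have e1 : ‖f x α β‖ * ‖g x α β - g y α β‖ ≤ B1 * (L2 * |x - y|) :=
    mul_le_mul a1 b2 (norm_nonneg _) hB1
  have e2 : ‖f x α β - f y α β‖ * ‖g y α β‖ ≤ (L1 * |x - y|) * B2 :=
    mul_le_mul b1 a3 (norm_nonneg _) ((norm_nonneg _).trans b1)
  calc _ ≤ B1 * (L2 * |x - y|) + (L1 * |x - y|) * B2 := add_le_add e1 e2
    _ = _ := by ring

private theorem SNice.const (c : ℂ) : SNice fun _ _ _ => c := by
  refine ⟨1, one_pos, ‖c‖, 0, fun α β x y _ _ _ => ⟨le_refl _, ?_⟩,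
    fun x β _ => continuousAt_const⟩
  rw [sub_self, norm_zero, zero_mul]

private theorem SNice.sum {ι : Type} (S : Finset ι) (f : ι → ℝ → ℝ → ℝ → ℂ)
    (h : ∀ i ∈ S, SNice (f i)) : SNice fun x α β => ∑ i ∈ S, f i x α β := by
  classical
  induction S using Finset.induction_on with
  | empty => simpa using SNice.const 0
  | insert a S ha ih =>
    have h1 := (h a (Finset.mem_insert_self _ _)).add
      (ih fun i hi => h i (Finset.mem_insert_of_mem hi))
    have h2 : (fun x α β => ∑ i ∈ insert a S, f i x α β) =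
        fun x α β => f a x α β + ∑ i ∈ S, f i x α β := by
      funext x α β
      rw [Finset.sum_insert ha]
    rw [h2]
    exact h1

private theorem SNice.inv {f : ℝ → ℝ → ℝ → ℂ} (hf : SNice f) {m α2 : ℝ} (hm : 0 < m)
    (h2 : 0 < α2) (hfm : ∀ α β x : ℝ, |α| ≤ α2 → |x| ≤ 2 → m ≤ ‖f x α β‖) :
    SNice fun x α β => (f x α β)⁻¹ := by
  obtain ⟨α1, h1, B1, L1, hb1, hc1⟩ := hf
  refine ⟨min α1 α2, lt_min h1 h2, m⁻¹, L1 * (m⁻¹ * m⁻¹), fun α β x y hα hx hy => ?_,
    fun x β hx => (hc1 x β hx).inv₀ ?_⟩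
  · obtain ⟨a1, b1⟩ := hb1 α β x y (hα.trans (min_le_left _ _)) hx hy
    have m1 := hfm α β x (hα.trans (min_le_right _ _)) hx
    have m2 := hfm α β y (hα.trans (min_le_right _ _)) hy
    have n1 : f x α β ≠ 0 := norm_pos_iff.1 (hm.trans_le m1)
    have n2 : f y α β ≠ 0 := norm_pos_iff.1 (hm.trans_le m2)
    have i1 : ‖(f x α β)⁻¹‖ ≤ m⁻¹ := by
      rw [norm_inv]
      exact inv_anti₀ hm m1
    have i2 : ‖(f y α β)⁻¹‖ ≤ m⁻¹ := by
      rw [norm_inv]
      exact inv_anti₀ hm m2
    refine ⟨i1, ?_⟩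
    have h : (f x α β)⁻¹ - (f y α β)⁻¹ =
        -(f x α β - f y α β) * ((f x α β)⁻¹ * (f y α β)⁻¹) := by
      field_simp
      ring
    rw [h, norm_mul, norm_neg, norm_mul]
    have hm' : 0 ≤ m⁻¹ := (inv_pos.2 hm).le
    calc _ ≤ (L1 * |x - y|) * (m⁻¹ * m⁻¹) := mul_le_mul b1
          (mul_le_mul i1 i2 (norm_nonneg _) hm') (by positivity) ((norm_nonneg _).trans b1)
      _ = _ := by ring
  · have m1 := hfm 0 β x (by rw [abs_zero]; exact h2.le) hx
    exact norm_pos_iff.1 (hm.trans_le m1)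

private noncomputable def see (θ : ℝ) : ℂ := Complex.exp (θ * Complex.I)

private theorem see_add (a b : ℝ) : see (a + b) = see a * see b := by
  rw [see, see, see, ← Complex.exp_add]
  congr 1
  push_cast
  ring

private theorem see_neg (a : ℝ) : see (-a) = (see a)⁻¹ := by
  rw [see, see, ← Complex.exp_neg]
  congr 1
  push_cast
  ring

private theorem see_zpow (a : ℝ) (n : ℤ) : see a ^ n = see (n * a) := by
  rw [see, see, ← Complex.exp_int_mul]
  congr 1
  push_cast
  ring

private theorem see_norm (a : ℝ) : ‖see a‖ = 1 := Complex.norm_exp_ofReal_mul_I a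

private theorem SNice.exps (k c e : ℝ) : SNice fun x α β => see (k * x + c * α + e * β) := by
  refine ⟨1, one_pos, 1, |k|, fun α β x y _ _ _ => ⟨(see_norm _).le, ?_⟩, fun x β _ => ?_⟩
  · have h : see (k * x + c * α + e * β) - see (k * y + c * α + e * β) =
        see (k * y + c * α + e * β) * (see (k * (x - y)) - 1) := by
      rw [mul_sub, ← see_add, mul_one]
      congr 2
      ring
    rw [h, norm_mul, see_norm, one_mul, see, mul_comm ((k * (x - y) : ℝ) : ℂ)]
    refine (Real.norm_exp_I_mul_ofReal_sub_one_le).trans ?_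
    rw [Real.norm_eq_abs, abs_mul]
  · have h : Continuous (fun q : ℝ × ℝ => see (k * x + c * q.1 + e * q.2)) := by
      unfold see
      fun_prop
    exact h.continuousAt

private theorem SNice.den {ξ : ℝ} (h0 : 0 ≤ ξ) (hξ : 2 * ξ < Real.pi / 2) (c : ℝ) :
    SNice fun x α _ => (see (ξ * x + c * α) + see (-(ξ * x + c * α)))⁻¹ := by
  have hpi := Real.pi_pos
  have h1 : SNice fun x α β => see (ξ * x + c * α + 0 * β) +
      see ((-ξ) * x + (-c) * α + 0 * β) := (SNice.exps ξ c 0).add (SNice.exps (-ξ) (-c) 0)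
  have h2 : (fun x α _ => (see (ξ * x + c * α) + see (-(ξ * x + c * α)))⁻¹) =
      fun x α β => (see (ξ * x + c * α + 0 * β) +
      see ((-ξ) * x + (-c) * α + 0 * β))⁻¹ := by
    funext x α β
    congr 3 <;> ring
  rw [h2]
  set θ0 : ℝ := (2 * ξ + Real.pi / 2) / 2 with hθ
  have hθ1 : 0 ≤ θ0 := by
    rw [hθ]
    positivity
  have hθ2 : θ0 < Real.pi / 2 := by
    rw [hθ]
    linarith
  have hcos : 0 < Real.cos θ0 := Real.cos_pos_of_mem_Ioo ⟨by linarith, hθ2⟩
  have hc1 : 0 < |c| + 1 := by positivity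
  refine h1.inv (m := 2 * Real.cos θ0) (α2 := (Real.pi / 2 - 2 * ξ) / (2 * (|c| + 1)))
    (by positivity) (div_pos (by linarith) (by positivity)) fun α β x hα hx => ?_
  have h3 : |ξ * x + c * α| ≤ θ0 := by
    have e1 : |ξ * x| ≤ 2 * ξ := by
      rw [abs_mul, abs_of_nonneg h0, mul_comm]
      exact mul_le_mul_of_nonneg_right hx h0
    have e2 : |c * α| ≤ (Real.pi / 2 - 2 * ξ) / 2 := by
      rw [abs_mul]
      calc |c| * |α| ≤ (|c| + 1) * ((Real.pi / 2 - 2 * ξ) / (2 * (|c| + 1))) :=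
            mul_le_mul (by linarith) hα (abs_nonneg _) hc1.le
        _ = _ := by
            field_simp
    calc _ ≤ |ξ * x| + |c * α| := abs_add_le _ _
      _ ≤ 2 * ξ + (Real.pi / 2 - 2 * ξ) / 2 := add_le_add e1 e2
      _ = θ0 := by
        rw [hθ]
        ring
  have h4 : see (ξ * x + c * α + 0 * β) + see ((-ξ) * x + (-c) * α + 0 * β) =
      ((2 * Real.cos (ξ * x + c * α) : ℝ) : ℂ) := by
    have e1 : ξ * x + c * α + 0 * β = ξ * x + c * α := by ring
    have e2 : (-ξ) * x + (-c) * α + 0 * β = -(ξ * x + c * α) := by ring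
    rw [e1, e2, see, see]
    push_cast
    rw [Complex.cos]
    ring_nf
  rw [h4, Complex.norm_real, Real.norm_eq_abs, abs_mul, abs_two]
  refine mul_le_mul_of_nonneg_left ?_ (by norm_num)
  refine le_trans ?_ (le_abs_self _)
  rw [← Real.cos_abs (ξ * x + c * α)]
  exact Real.cos_le_cos_of_nonneg_of_le_pi (abs_nonneg _) (by linarith) h3

private theorem SNice.letter {ξ : ℝ} (h0 : 0 ≤ ξ) (hξ : 2 * ξ < Real.pi / 2)
    (l : Fin 2 × Bool) (t s' : Fin 2) (i c : ℤ) :
    SNice fun x α β => lsym l t s' i (see (ξ * x) * see α ^ (2 * c)) (see α)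
      (see β) := by
  have hX : ∀ x α : ℝ, see (ξ * x) * see α ^ (2 * c) =
      see (ξ * x + (2 * c : ℝ) * α) := by
    intro x α
    rw [see_zpow, ← see_add]
    push_cast
    rfl
  have h1 : SNice fun x α _ => see (ξ * x + (2 * c : ℝ) * α) := by
    have h := SNice.exps ξ (2 * c : ℝ) 0
    have e : (fun x α _ => see (ξ * x + (2 * c : ℝ) * α)) =
        fun x α β => see (ξ * x + (2 * c : ℝ) * α + 0 * β) := by
      funext x α β
      congr 1
      ring
    rw [e]
    exact h
  have h2 : SNice fun x α _ => (see (ξ * x + (2 * c : ℝ) * α))⁻¹ := by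
    have h := SNice.exps (-ξ) (-(2 * c : ℝ)) 0
    have e : (fun x α _ => (see (ξ * x + (2 * c : ℝ) * α))⁻¹) =
        fun x α β => see (-ξ * x + (-(2 * c : ℝ)) * α + 0 * β) := by
      funext x α β
      rw [← see_neg]
      congr 1
      ring
    rw [e]
    exact h
  have hneg : ∀ f : ℝ → ℝ → ℝ → ℂ, SNice f → SNice fun x α β => -f x α β := by
    intro f hf
    have h := (SNice.const (-1)).mul hf
    simpa using h
  have hden : ∀ d : ℤ, SNice fun x α _ => (AMG.den (see (ξ * x + (2 * c : ℝ) * α))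
      (see α) d)⁻¹ := by
    intro d
    have h := SNice.den h0 hξ (2 * c + d : ℝ)
    have e : (fun x α _ => (AMG.den (see (ξ * x + (2 * c : ℝ) * α)) (see α) d)⁻¹) =
        fun x α (_ : ℝ) => (see (ξ * x + (2 * c + d : ℝ) * α) +
          see (-(ξ * x + (2 * c + d : ℝ) * α)))⁻¹ := by
      funext x α β
      rw [AMG.den, see_zpow, ← see_add, ← see_neg]
      congr 3
      · ring
      · ring
    rw [e]
    exact h
  have hflip : ∀ d : ℤ, SNice fun x α β => flipc (see (ξ * x + (2 * c : ℝ) * α))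
      (see α) (see β) d := by
    intro d
    have h := ((SNice.exps 0 1 1).add (SNice.exps 0 (-1) (-1))).mul (hden d)
    have e : (fun x α β => flipc (see (ξ * x + (2 * c : ℝ) * α)) (see α)
        (see β) d) = fun x α β => (see (0 * x + 1 * α + 1 * β) +
          see (0 * x + (-1) * α + (-1) * β)) *
          (AMG.den (see (ξ * x + (2 * c : ℝ) * α)) (see α) d)⁻¹ := by
      funext x α β
      rw [flipc, div_eq_mul_inv, ← see_add, ← see_neg]
      congr 3
      · ring
      · ring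
    rw [e]
    exact h
  have hshift : ∀ d : ℤ, SNice fun x α β => shiftc (see (ξ * x + (2 * c : ℝ) * α))
      (see α) (see β) d := by
    intro d
    have h := ((SNice.exps (-d * ξ) (-d * (2 * c)) 1).add
      (hneg _ (SNice.exps (d * ξ) (d * (2 * c)) (-1)))).mul (hden d)
    have e : (fun x α β => shiftc (see (ξ * x + (2 * c : ℝ) * α)) (see α)
        (see β) d) = fun x α β => (see (-d * ξ * x + -d * (2 * c) * α + 1 * β) +
          -see (d * ξ * x + d * (2 * c) * α + (-1) * β)) *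
          (AMG.den (see (ξ * x + (2 * c : ℝ) * α)) (see α) d)⁻¹ := by
      funext x α β
      have e1 : β + ((-d : ℤ) : ℝ) * (ξ * x + (2 * c : ℝ) * α) =
          -d * ξ * x + -d * (2 * c) * α + 1 * β := by
        push_cast
        ring
      have e2 : -β + (d : ℝ) * (ξ * x + (2 * c : ℝ) * α) =
          d * ξ * x + d * (2 * c) * α + (-1) * β := by ring
      rw [shiftc, div_eq_mul_inv, ← see_neg β, see_zpow, see_zpow, ← see_add, ← see_add,
        sub_eq_add_neg, e1, e2]
    rw [e]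
    exact h
  have hz : SNice fun _ _ _ => (0 : ℂ) := SNice.const 0
  simp only [hX]
  unfold lsym
  by_cases hl : l.1 = 0
  · simp only [if_pos hl]
    by_cases hs : s' = t ∧ i = 0
    · simp only [if_pos hs]
      by_cases ht : t = 0
      · simp only [if_pos ht]
        cases l.2
        · simpa using h1
        · simpa using h2
      · simp only [if_neg ht]
        cases l.2
        · simpa using hneg _ h2
        · simpa using hneg _ h1
    · simp only [if_neg hs]
      exact hz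
  · simp only [if_neg hl]
    by_cases hs : s' ≠ t ∧ i = 0
    · simp only [if_pos hs]
      exact hflip _
    · simp only [if_neg hs]
      by_cases ht : s' = t ∧ i = dir l.2 t
      · simp only [if_pos ht]
        exact (SNice.const _).mul (hshift _)
      · simp only [if_neg ht]
        exact hz

private theorem SNice.word {ξ : ℝ} (h0 : 0 ≤ ξ) (hξ : 2 * ξ < Real.pi / 2)
    (u : List (Fin 2 × Bool)) (s s' : Fin 2) (j : ℤ) :
    SNice fun x α β => sym u s s' j (see (ξ * x)) (see α) (see β) := by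
  induction u generalizing s' j with
  | nil => exact SNice.const _
  | cons l w ih =>
    unfold sym
    exact SNice.sum _ (fun t x α β => ∑ i ∈ ({-1, 0, 1} : Finset ℤ),
      sym w s t (j - i) (see (ξ * x)) (see α) (see β) *
        lsym l t s' i (see (ξ * x) * see α ^ (2 * (j - i))) (see α) (see β))
      fun t _ => SNice.sum _ (fun i x α β =>
        sym w s t (j - i) (see (ξ * x)) (see α) (see β) *
        lsym l t s' i (see (ξ * x) * see α ^ (2 * (j - i))) (see α) (see β))
      fun i _ => (ih t (j - i)).mul (SNice.letter h0 hξ l t s' i (j - i))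

/-- [SymReg] Regularity of the symbols. -/
theorem sym_reg (u : List (Fin 2 × Bool)) (s s' : Fin 2) (j : ℤ) (ξ : ℝ) (h0 : 0 ≤ ξ)
    (hξ : 2 * ξ < Real.pi / 2) :
    ∃ α0 > 0, ∃ B Lip : ℝ, (∀ α β x y : ℝ, |α| ≤ α0 → |x| ≤ 2 → |y| ≤ 2 →
      ‖sym u s s' j (Complex.exp (ξ * x * Complex.I)) (Complex.exp (α * Complex.I))
        (Complex.exp (β * Complex.I))‖ ≤ B ∧
      ‖sym u s s' j (Complex.exp (ξ * x * Complex.I)) (Complex.exp (α * Complex.I))
          (Complex.exp (β * Complex.I)) -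
        sym u s s' j (Complex.exp (ξ * y * Complex.I)) (Complex.exp (α * Complex.I))
          (Complex.exp (β * Complex.I))‖ ≤ Lip * |x - y|) ∧
    ∀ x β : ℝ, |x| ≤ 2 → ContinuousAt (fun q : ℝ × ℝ =>
      sym u s s' j (Complex.exp (ξ * x * Complex.I)) (Complex.exp (q.1 * Complex.I))
        (Complex.exp (q.2 * Complex.I))) (0, β) := by
  have h := SNice.word h0 hξ u s s' j
  have e : ∀ x : ℝ, see (ξ * x) = Complex.exp (ξ * x * Complex.I) := by
    intro x
    rw [see, Complex.ofReal_mul]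
  unfold SNice at h
  simp only [e] at h
  exact h

end Pool.Agent.AMH
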